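import Pool.Agent.AKX.Dat

set_option autoImplicit false

/-!
# Certificates from packed data: what the kernel checks
-/

namespace Pool.Agent.AKX

open Finset Pool.Agent.AKU

/-! ### positive semidefinite blocks -/

/-- data for a positive semidefinite matrix: number of pivots, bits, scales, offset, columns of the
factor, coefficients of the other rows -/
structure Pd where
  m : Nat
  u : Nat
  N : Nat
  s : Nat
  OV : Nat
  L : List Nat
  vp : List Nat
  vn : List Nat

/-- the sizes -/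
noncomputable def Pd.sz (P : Pd) (sb n nk off offe : Nat) : Bool :=
  (Nat.ble P.m n && Nat.ble 1 P.N) && szC sb P.u P.N P.s P.OV nk off offe P.L.length

/-- the pivots in a list -/
noncomputable def Pd.pv (P : Pd) (sb nk off offe : Nat) (rows : List Nat) (lamP evP : Nat → Nat)
    (l : List Nat) : Bool := pivC sb P.m P.u P.N P.s P.OV nk off offe rows lamP evP P.L l

/-- the other rows in a list -/
noncomputable def Pd.cm (P : Pd) (sb n nk off offe : Nat) (rows : List Nat) (lamP evP : Nat → Nat)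
    (l : List Nat) : Bool := allM l fun i => cmbC sb n P.m nk off offe rows lamP evP i
      (nthL P.vp (Nat.sub i P.m)) (nthL P.vn (Nat.sub i P.m))

/-- everything for one matrix -/
structure PsdB (P : Pd) (sb n nk off offe : Nat) (rows : List Nat) (lamP evP : Nat → Nat) :
    Prop where
  sz : P.sz sb n nk off offe = true
  sy : ∀ i < n, ∃ l, symY sb rows l = true ∧ i ∈ l
  ln : rows.length = n
  pv : ∀ a < P.m, ∃ l, P.pv sb nk off offe rows lamP evP l = true ∧ a ∈ l
  cm : ∀ i < n, P.m ≤ i → ∃ l, P.cm sb n nk off offe rows lamP evP l = true ∧ i ∈ l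

theorem PsdB.sym {P : Pd} {sb n nk off offe : Nat} {rows : List Nat} {lamP evP : Nat → Nat}
    (h : PsdB P sb n nk off offe rows lamP evP) : ∀ i < n, ∀ j < n,
      dgu sb (nthL rows i) j = dgu sb (nthL rows j) i := by
  intro i hi j hj
  obtain ⟨l, h1, h2⟩ := h.sy i hi
  exact symY_sound h1 h2 (by rw [h.ln]; exact hj)

theorem PsdB.psd {P : Pd} {sb n nk off offe : Nat} {rows : List Nat} {lamP evP : Nat → Nat}
    (h : PsdB P sb n nk off offe rows lamP evP) (z : ℕ → ℤ) :
    0 ≤ ∑ a ∈ range n, ∑ b ∈ range n, Qv sb nk off offe rows lamP evP a b * (z a * z b) := by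
  have h1 := h.sz
  unfold Pd.sz at h1
  rw [Bool.and_eq_true, Bool.and_eq_true] at h1
  refine psd_all (m := P.m) (u := P.u) (N := P.N) (s := P.s) (OV := P.OV) (L := P.L)
    (vp := fun i => nthL P.vp (i - P.m)) (vn := fun i => nthL P.vn (i - P.m)) h1.1.1 h1.1.2 h1.2
    h.sym ?_ ?_ z
  · intro a ha
    obtain ⟨l, h2, h3⟩ := h.pv a ha
    exact allF_iff.1 h2 a h3
  · intro i hi hm
    obtain ⟨l, h2, h3⟩ := h.cm i hi hm
    exact allM_iff.1 h2 i h3

/-! ### symmetries -/

/-- packed data of a symmetry of the roots -/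
structure Gd where
  tpP : Nat
  /-- states, 3 bits -/
  spP : Nat
  rkP : Nat
  /-- for every type: 0, or one plus the number of the permutation of the flags -/
  sgP : Nat
  /-- orbit of a permutation -/
  poP : Nat
  pmL : List Nat
  jkP : Nat
  lG : List (Nat × Nat)

/-- the symmetry -/
noncomputable def Gd.sy (x : Gd) : Sy where
  tp p := lk x.tpP p
  sp d := Nat.mod (Nat.shiftRight x.spP (Nat.mul 3 d)) 8
  rk k := lk x.rkP k
  pm p i := Nat.rec (motive := fun _ => Nat) i (fun k _ => lk (nthL x.pmL k) i) (lk x.sgP p)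
  jk j := lk x.jkP j

/-- `a b c` are `0 1 2` in some order -/
def pmB (a b c : Nat) : Bool :=
  (Nat.beq (Nat.add a (Nat.add b c)) 3 && Nat.beq (Nat.mul a (Nat.mul b c)) 0) &&
    ((Nat.ble a 2 && Nat.ble b 2) && (Nat.ble c 2 && Nat.beq (Nat.add (Nat.mul a a) (Nat.add
      (Nat.mul b b) (Nat.mul c c))) 5))

theorem pmB_sound {a b c : Nat} (h : pmB a b c = true) : Pm a b c := by
  unfold pmB at h
  simp only [Bool.and_eq_true, Nat.beq_eq, Nat.ble_eq] at h
  obtain ⟨⟨h1, -⟩, ⟨h2, h3⟩, h4, h5⟩ := h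
  unfold Pm
  have h1' : a + (b + c) = 3 := h1
  have h5' : a * a + (b * b + c * c) = 5 := h5
  interval_cases a <;> interval_cases b <;> interval_cases c <;> omega

/-- `f` permutes the numbers below `n` -/
noncomputable def prB (n : Nat) (f : Nat → Nat) : Bool :=
  allN n fun i => Nat.ble (Nat.add (f i) 1) n && allN n fun j =>
    Bool.rec (motive := fun _ => Bool) true (Nat.beq i j) (Nat.beq (f i) (f j))

theorem prB_sound {n : Nat} {f : Nat → Nat} (h : prB n f = true) (g : Nat → ℤ) :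
    ∑ j ∈ range n, g (f j) = ∑ j ∈ range n, g j := by
  have h1 : ∀ i < n, f i < n ∧ ∀ j < n, f i = f j → i = j := by
    intro i hi
    have h2 := allN_iff.1 h i hi
    rw [Bool.and_eq_true] at h2
    refine ⟨Nat.le_of_ble_eq_true h2.1, fun j hj hij => ?_⟩
    have h3 := allN_iff.1 h2.2 j hj
    have h4 : Nat.beq (f i) (f j) = true := by rw [hij]; exact Nat.beq_refl _
    rw [h4] at h3
    exact Nat.eq_of_beq_eq_true h3
  have hinj : Set.InjOn f (range n : Set ℕ) := by
    intro i hi j hj hij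
    exact (h1 i (mem_range.1 (mem_coe.1 hi))).2 j (mem_range.1 (mem_coe.1 hj)) hij
  have himg : (range n).image f = range n := by
    refine eq_of_subset_of_card_le ?_ ?_
    · intro k hk
      obtain ⟨i, hi, rfl⟩ := mem_image.1 hk
      exact mem_range.2 (h1 i (mem_range.1 hi)).1
    · rw [card_image_of_injOn hinj]
  conv_rhs => rw [← himg]
  rw [sum_image hinj]

/-- the weights of the second list are those of the first one, transported -/
noncomputable def mapC (nt : Nat) (tp : Nat → Nat) (l : List (Nat × Nat)) :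
    List (Nat × Nat) → Bool :=
  List.rec (motive := fun _ => List (Nat × Nat) → Bool)
    (fun l' => List.rec (motive := fun _ => Bool) true (fun _ _ _ => false) l')
    (fun a _ ih l' => List.rec (motive := fun _ => Bool) false
      (fun b t _ => (Nat.beq a.1 b.1 && allN nt fun p => Nat.beq (gk b.2 (tp p)) (gk a.2 p)) && ih t)
      l') l

theorem mapC_sound {nt : Nat} {tp : Nat → Nat} {l : List (Nat × Nat)} :
    ∀ {l' : List (Nat × Nat)}, mapC nt tp l l' = true → ∀ {p q r : Nat}, p < nt → q < nt →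
      r < nt → u3L l' (tp p) (tp q) (tp r) = u3L l p q r := by
  induction l with
  | nil =>
    intro l' h p q r _ _ _
    cases l' with
    | nil => rfl
    | cons b t => exact absurd h (by simp [mapC])
  | cons a l ih =>
    intro l' h p q r hp hq hr
    cases l' with
    | nil => exact absurd h (by simp [mapC])
    | cons b t =>
      have e : mapC nt tp (a :: l) (b :: t) = ((Nat.beq a.1 b.1 && allN nt fun p =>
        Nat.beq (gk b.2 (tp p)) (gk a.2 p)) && mapC nt tp l t) := rfl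
      rw [e, Bool.and_eq_true, Bool.and_eq_true] at h
      obtain ⟨⟨h1, h2⟩, h3⟩ := h
      have k1 := Nat.eq_of_beq_eq_true h1
      have k2 : ∀ p < nt, gd b.2 (tp p) = gd a.2 p := fun p hp =>
        Nat.eq_of_beq_eq_true (allN_iff.1 h2 p hp)
      simp only [u3L]
      rw [ih h3 hp hq hr, k2 p hp, k2 q hq, k2 r hr, k1]

theorem u3L_sum (l : List (Nat × Nat)) (p q r : Nat) :
    u3L l p q r = (l.map fun a => a.1 * (gd a.2 p * gd a.2 q * gd a.2 r)).sum := by
  induction l with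
  | nil => rfl
  | cons a l ih => rw [List.map_cons, List.sum_cons, ← ih]; rfl

theorem u3L_perm {l l' : List (Nat × Nat)} (h : l.Perm l') (p q r : Nat) :
    u3L l p q r = u3L l' p q r := by
  rw [u3L_sum, u3L_sum]
  exact (h.map _).sum_eq

namespace Dt

variable (D : Dt)

/-- the numbers of the roots -/
noncomputable def rkB : Bool := (Nat.beq D.nk 3 || Nat.beq D.nk 0) &&
  allN D.nt fun p => pmB (lk (nthL D.rkL 0) p) (lk (nthL D.rkL 1) p) (lk (nthL D.rkL 2) p)

/-- the matrix of an orbit -/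
noncomputable def QO (o i j : ℕ) : ℤ := Qv D.sb D.nk D.off D.offe (nthR [] D.BL o)
  (fun k => nthL D.lamL (3 * o + k)) (fun k => nthL D.evL (3 * o + k)) i j

variable {D}

theorem rk_sum (h : D.rkB = true) {p : Nat} (hp : p < D.nt) (f : Nat → ℤ) :
    ∑ k ∈ range D.nk, f (lk (nthL D.rkL k) p) = ∑ k ∈ range D.nk, f k := by
  unfold rkB at h
  rw [Bool.and_eq_true, Bool.or_eq_true] at h
  obtain ⟨h1, h2⟩ := h
  rcases h1 with h1 | h1
  · have e := Nat.eq_of_beq_eq_true h1
    rw [e]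
    have h3 := pmB_sound (allN_iff.1 h2 p hp)
    have h4 := h3.sum f
    rw [sum_range_succ, sum_range_succ, sum_range_one, sum_range_succ, sum_range_succ,
      sum_range_one]
    exact h4
  · have e := Nat.eq_of_beq_eq_true h1
    rw [e]
    rfl

/-- the matrix of a type is the matrix of its orbit -/
theorem Qt_eq (h : D.rkB = true) {p i j : Nat} (hp : p < D.nt) (hi : i < D.T.nb p)
    (hj : j < D.T.nb p) : D.T.Qt p i j = D.QO (D.orb p) i j := by
  unfold QO
  rw [Qv_eq]
  unfold Tb.Qt Tb.Mt Tb.XO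
  rw [if_pos ⟨hi, hj⟩, if_pos ⟨hi, hj⟩, if_pos ⟨hj, hi⟩]
  have e1 : ∀ i j, ∑ k ∈ range D.T.nk, (D.T.lam k p j : ℤ) * D.T.Ev k p i =
      ∑ k ∈ range D.nk, (lk (nthL D.lamL (3 * D.orb p + k)) j : ℤ) *
        ((lk (nthL D.evL (3 * D.orb p + k)) i : ℤ) - D.offe) := by
    intro i j
    exact rk_sum h hp fun k => (lk (nthL D.lamL (3 * D.orb p + k)) j : ℤ) *
      ((lk (nthL D.evL (3 * D.orb p + k)) i : ℤ) - D.offe)
  rw [e1, e1]
  rfl

theorem Qt_out {p i j : Nat} (h : ¬ (i < D.T.nb p ∧ j < D.T.nb p)) : D.T.Qt p i j = 0 := by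
  unfold Tb.Qt Tb.Mt Tb.XO
  rw [if_neg h, if_neg h, if_neg fun h' => h ⟨h'.2, h'.1⟩]
  ring

/-- what is checked about the blocks -/
structure BOk (D : Dt) (PL : Nat → Pd) : Prop where
  rk : D.rkB = true
  or : (allN D.nt fun p => Nat.ble (Nat.add (D.orb p) 1) D.no) = true
  bl : ∀ o < D.no, PsdB (PL o) D.sb (lk D.nbP o) D.nk D.off D.offe (nthR [] D.BL o)
    (fun k => nthL D.lamL (3 * o + k)) (fun k => nthL D.evL (3 * o + k))

theorem BOk.orb_lt {PL : Nat → Pd} (h : BOk D PL) {p : Nat} (hp : p < D.nt) : D.orb p < D.no :=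
  Nat.le_of_ble_eq_true (allN_iff.1 h.or p hp)

theorem BOk.qtc {PL : Nat → Pd} (h : BOk D PL) (p i j : Nat) :
    D.T.Qt p i j = D.T.Qt p j i := by
  by_cases hp : p < D.nt
  · by_cases hij : i < D.T.nb p ∧ j < D.T.nb p
    · rw [Qt_eq h.rk hp hij.1 hij.2, Qt_eq h.rk hp hij.2 hij.1]
      unfold QO
      refine Qv_symm ((h.bl _ (h.orb_lt hp)).sym i ?_ j ?_)
      · rw [← D.nb_eq hp]; exact hij.1
      · rw [← D.nb_eq hp]; exact hij.2
    · rw [Qt_out hij, Qt_out fun h' => hij ⟨h'.2, h'.1⟩]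
  · have e := D.nb_out hp
    rw [Qt_out (by rw [e]; omega), Qt_out (by rw [e]; omega)]

theorem BOk.psdt {PL : Nat → Pd} (h : BOk D PL) (ι : Type) [Fintype ι] (p : ℕ) (f : ι → ℕ) :
    0 ≤ ∑ y, ∑ y', D.T.Qt p (f y) (f y') := by
  by_cases hp : p < D.nt
  · have h1 := psd_fun (lk D.nbP (D.orb p)) (D.QO (D.orb p)) ((h.bl _ (h.orb_lt hp)).psd) f
    refine le_trans h1 (le_of_eq ?_)
    refine sum_congr rfl fun y _ => sum_congr rfl fun y' _ => ?_
    rw [← D.nb_eq hp]
    by_cases hij : f y < D.T.nb p ∧ f y' < D.T.nb p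
    · rw [if_pos hij, Qt_eq h.rk hp hij.1 hij.2]
    · rw [if_neg hij, Qt_out hij]
  · have e := D.nb_out hp
    refine le_of_eq (Eq.symm (sum_eq_zero fun y _ => sum_eq_zero fun y' _ => ?_))
    exact Qt_out (by rw [e]; omega)

/-- the block with no further point -/
theorem psd0_of {P : Pd} (h : PsdB P 64 D.nt 0 D.off0 0 D.q0L (fun _ => 0) (fun _ => 0))
    (ι : Type) [Fintype ι] (f : ι → ℕ) : 0 ≤ ∑ y, ∑ y', D.T.Q0 (f y) (f y') := by
  have h1 := psd_fun D.nt (Qv 64 0 D.off0 0 D.q0L (fun _ => 0) (fun _ => 0)) h.psd f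
  refine le_trans h1 (le_of_eq ?_)
  refine sum_congr rfl fun y _ => sum_congr rfl fun y' _ => ?_
  have e : ∀ i j, Qv 64 0 D.off0 0 D.q0L (fun _ => 0) (fun _ => 0) i j =
      (D.T.q0 i j : ℤ) - D.T.off0 := by
    intro i j
    rw [Qv_eq]
    have e2 : D.T.q0 i j = dgu 64 (nthL D.q0L i) j := lk_eq _ _
    rw [e2]
    simp only [range_zero, sum_empty]
    have e3 : D.T.off0 = D.off0 := rfl
    rw [e3]
    ring
  unfold Tb.Q0
  have e4 : D.T.nt = D.nt := rfl
  rw [e4]
  split_ifs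
  · exact e _ _
  · rfl

theorem q0c_of {P : Pd} (h : PsdB P 64 D.nt 0 D.off0 0 D.q0L (fun _ => 0) (fun _ => 0))
    (p q : Nat) : D.T.Q0 p q = D.T.Q0 q p := by
  unfold Tb.Q0
  by_cases hp : p < D.nt ∧ q < D.nt
  · have e4 : D.T.nt = D.nt := rfl
    rw [e4, if_pos hp, if_pos ⟨hp.2, hp.1⟩]
    have e2 : ∀ i j, D.T.q0 i j = dgu 64 (nthL D.q0L i) j := fun i j => lk_eq _ _
    rw [e2, e2, h.sym p hp.1 q hp.2]
  · have e4 : D.T.nt = D.nt := rfl
    rw [e4, if_neg hp, if_neg fun h' => hp ⟨h'.2, h'.1⟩]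

/-! ### second order rows -/

theorem zp_of {P : Pd} (h : PsdB P 64 D.nt 0 D.oz 0 D.zL (fun _ => 0) (fun _ => 0)) :
    PsdT D.nt D.Z where
  sym a b := by
    unfold Z
    by_cases hab : a < D.nt ∧ b < D.nt
    · rw [if_pos hab, if_pos ⟨hab.2, hab.1⟩, D.zz_symm]
    · rw [if_neg hab, if_neg fun h' => hab ⟨h'.2, h'.1⟩]
  out a b hab := by
    unfold Z
    rw [if_neg hab]
  psd z := by
    refine le_trans (h.psd z) (le_of_eq ?_)
    refine sum_congr rfl fun a ha => sum_congr rfl fun b hb => ?_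
    rw [mem_range] at ha hb
    unfold Z
    rw [if_pos ⟨ha, hb⟩, Qv_eq]
    have e : (D.zz a b : ℤ) = dgu 64 (nthL D.zL a) b := by
      unfold zz
      rw [mn_eq, mx_eq, lk_eq]
      rcases le_total a b with hab | hab
      · rw [min_eq_left hab, max_eq_right hab]
      · rw [min_eq_right hab, max_eq_left hab, h.sym b hb a ha]
    rw [e]
    simp only [range_zero, sum_empty]
    ring_nf

/-- the lower bound of the degree multipliers -/
noncomputable def loB (D : Dt) (K : Nat) : Bool := allN D.nt fun p =>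
  Nat.ble (Nat.add (Nat.add K (Nat.mul 9 (D.T.u3 p p p))) (Nat.mul 9 (Nat.add D.offm
    (Nat.mul 3 D.offn)))) (Nat.mul 9 (Nat.add (D.T.mu p) (Nat.add (D.T.nu 0 p)
      (Nat.add (D.T.nu 1 p) (D.T.nu 2 p)))))

theorem linkU_of {P : Pd} {K : Nat}
    (h : PsdB P 64 D.nt 0 D.oz 0 D.zL (fun _ => 0) (fun _ => 0)) (hlo : loB D K = true) :
    LinkU D.T D.l D.Z (3 * D.oz) (K : ℝ) where
  zp := zp_of h
  u3 p hp q hq r hr := D.u3_eq hp hq hr
  lnd := rfl
  lo p hp := by
    have h1 := Nat.le_of_ble_eq_true (allN_iff.1 hlo p hp)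
    have h2 : K + 9 * D.T.u3 p p p + 9 * (D.offm + 3 * D.offn) ≤
      9 * (D.T.mu p + (D.T.nu 0 p + (D.T.nu 1 p + D.T.nu 2 p))) := h1
    have h3 : (K : ℝ) + 9 * (D.T.u3 p p p : ℝ) + 9 * ((D.offm : ℝ) + 3 * (D.offn : ℝ)) ≤
      9 * ((D.T.mu p : ℝ) + ((D.T.nu 0 p : ℝ) + ((D.T.nu 1 p : ℝ) + (D.T.nu 2 p : ℝ)))) := by
      exact_mod_cast h2
    have e1 : (D.T.ld : ℝ) = 9 := by
      have : D.T.ld = 9 := rfl
      rw [this]; norm_num
    have e2 : (D.T.Mu p : ℝ) = (D.T.mu p : ℝ) - D.offm := by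
      unfold Tb.Mu
      push_cast
      rfl
    have e3 : ∀ k, (D.T.Nu k p : ℝ) = (D.T.nu k p : ℝ) - D.offn := by
      intro k
      unfold Tb.Nu
      push_cast
      rfl
    rw [e1, e2, e3, e3, e3]
    linarith

end Dt

end Pool.Agent.AKX
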