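import Pool.Agent.AKX.DatG

set_option autoImplicit false

/-!
# Certificates from packed data: symmetries, and the result
-/

namespace Pool.Agent.AKX

open Finset Pool.Agent.AKU

namespace Dt

variable (D : Dt)

/-- codes of the types -/
def tc (p : Nat) : Nat := lk D.tcP p

/-- the types and their orbits, and the permutations of the flags -/
noncomputable def gA (x : Gd) : Bool :=
  allN D.nt fun p => Nat.beq (D.orb (lk x.tpP p)) (D.orb p) &&
    Nat.rec (motive := fun _ => Bool) true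
      (fun k _ => Nat.beq (lk x.poP k) (D.orb p) && Nat.ble (Nat.add k 1) x.pmL.length)
      (lk x.sgP p)

/-- a permutation of the flags -/
noncomputable def gP (x : Gd) (k : Nat) : Bool :=
  permC D.sb (Nat.shiftLeft 1 D.sb) (lk D.nbP (lk x.poP k)) (nthR [] D.BL (lk x.poP k))
    (fun i => lk (nthL x.pmL k) i)

/-- the numbers of the roots and of the rows -/
noncomputable def gN (x : Gd) : Bool :=
  pmB (lk x.rkP 0) (lk x.rkP 1) (lk x.rkP 2) && prB D.nj (fun j => lk x.jkP j)

/-- the second order rows -/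
noncomputable def gZ (x : Gd) : Bool :=
  allN D.nt fun p => allN D.nt fun q =>
    Nat.beq (D.zz (lk x.tpP p) (lk x.tpP q)) (D.zz p q)

/-- what is checked about a symmetry -/
structure GOk (x : Gd) : Prop where
  a : D.gA x = true
  n : D.gN x = true
  p : ∀ k < x.pmL.length, D.gP x k = true
  z : D.gZ x = true
  m : mapC D.nt (fun p => lk x.tpP p) D.l x.lG = true
  r : x.lG.isPerm D.l = true
  s : invS D.T x.sy = true
  f : ∀ p < D.nt, invF D.T x.sy p = true
  v : ∀ p < D.nt, invM D.T x.sy p = true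

variable {D}

theorem inv_gd {offa offb : Nat} (hrec : ∀ p < D.nt, chkRec D.T D.tc offa offb p = true)
    {x : Gd} (h : D.GOk x) : D.T.Inv x.sy := by
  have hn := h.n
  unfold gN at hn
  rw [Bool.and_eq_true] at hn
  have hS := h.s
  unfold invS at hS
  rw [Bool.and_eq_true, Bool.and_eq_true] at hS
  have htp : ∀ p < D.nt, x.sy.tp p < D.nt := by
    intro p hp
    have := allN_iff.1 hS.2.2 p hp
    rw [Bool.and_eq_true, Bool.and_eq_true, Bool.and_eq_true] at this
    exact Nat.le_of_ble_eq_true this.1.1.1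
  have hA : ∀ p < D.nt, D.orb (x.sy.tp p) = D.orb p ∧ (lk x.sgP p = 0 ∨ ∃ k,
      lk x.sgP p = k + 1 ∧ lk x.poP k = D.orb p ∧ k < x.pmL.length) := by
    intro p hp
    have h1 := allN_iff.1 h.a p hp
    rw [Bool.and_eq_true] at h1
    refine ⟨Nat.eq_of_beq_eq_true h1.1, ?_⟩
    have h2 := h1.2
    cases hs : lk x.sgP p with
    | zero => exact Or.inl rfl
    | succ k =>
      rw [hs] at h2
      have h3 : (Nat.beq (lk x.poP k) (D.orb p) && Nat.ble (k + 1) x.pmL.length) = true := h2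
      rw [Bool.and_eq_true] at h3
      exact Or.inr ⟨k, rfl, Nat.eq_of_beq_eq_true h3.1, Nat.le_of_ble_eq_true h3.2⟩
  refine inv_of (tc := D.tc) (offa := offa) (offb := offb) (fun _ _ _ => rfl) hrec
    (pmB_sound hn.1) (prB_sound hn.2) h.s h.f h.v ?_ ?_
  · intro p hp
    have hp' : p < D.nt := hp
    obtain ⟨ho, hs⟩ := hA p hp'
    have hn' : D.T.nb (x.sy.tp p) = D.T.nb p := by
      rw [D.nb_eq (htp p hp'), D.nb_eq hp', ho]
    have hb' : D.T.blk (x.sy.tp p) = D.T.blk p := by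
      show nthR [] D.BL (D.orb (x.sy.tp p)) = nthR [] D.BL (D.orb p)
      rw [ho]
    refine blk_inv hn' hb' ?_
    rcases hs with h0 | ⟨k, hk, hko, hkl⟩
    · left
      intro i _
      show Nat.rec (motive := fun _ => Nat) i (fun k _ => lk (nthL x.pmL k) i) (lk x.sgP p) = i
      rw [h0]
      rfl
    · right
      have h1 := permC_iff (h.p k hkl)
      rw [hko, ← D.nb_eq hp'] at h1
      have e : ∀ i, x.sy.pm p i = lk (nthL x.pmL k) i := by
        intro i
        show Nat.rec (motive := fun _ => Nat) i (fun k _ => lk (nthL x.pmL k) i) (lk x.sgP p) = _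
        rw [hk]
      intro i hi
      obtain ⟨h2, h3⟩ := h1 i hi
      refine ⟨by rw [e]; exact h2, fun j hj => ?_⟩
      rw [e, e]
      exact h3 j hj
  · intro p hp q hq r hr
    have hp' : p < D.nt := hp
    have hq' : q < D.nt := hq
    have hr' : r < D.nt := hr
    have e : ∀ p q r, D.T.u3 p q r = u3L D.l p q r + (D.zz p q + D.zz q r + D.zz p r) := by
      intro p q r
      rw [← u3K_eq]
      rfl
    have hz : ∀ p < D.nt, ∀ q < D.nt, D.zz (x.sy.tp p) (x.sy.tp q) = D.zz p q := fun p hp q hq =>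
      Nat.eq_of_beq_eq_true (allN_iff.1 (allN_iff.1 h.z p hp) q hq)
    rw [e, e, hz p hp' q hq', hz q hq' r hr', hz p hp' r hr',
      ← u3L_perm (List.isPerm_iff.1 h.r)]
    have h2 := mapC_sound h.m hp' hq' hr'
    have h3 : u3L x.lG (x.sy.tp p) (x.sy.tp q) (x.sy.tp r) = u3L D.l p q r := h2
    rw [h3]

/-- the main check -/
structure MOk (D : Dt) (G : List Sy) (offw offa offb : Nat) (wn : Nat → Nat) : Prop where
  rc : ∀ p < D.nt, chkRec D.T D.tc offa offb p = true
  w : chkW D.T offw wn = true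
  wt : chkWt D.T = true
  q : ∀ p < D.nt, ∀ q < D.nt, p ≤ q → ∃ l, chkQ D.T G offw offa offb wn p l = true ∧ q ∈ l

theorem MOk.key {G : List Sy} {offw offa offb : Nat} {wn : Nat → Nat}
    (h : MOk D G offw offa offb wn) (p q r A B C d : Nat) (hpq : p ≤ q) (hqr : q ≤ r)
    (hr : r < D.T.nt) (hc : can G p q r = true) (hA : A < 512) (hB : B < 512) (hC : C < 512)
    (vA : D.T.vp p q A = true) (vB : D.T.vp p r B = true) (vC : D.T.vp q r C = true) (hd : d < 8)
    (ht : D.T.tst A B C d = true) : D.T.VX p q r A B C d ≤ 0 := by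
  have hr' : r < D.nt := hr
  obtain ⟨l, h1, h2⟩ := h.q p (by omega) q (by omega) hpq
  exact sound_of_chkQ (ok_of_chkRec (tc := D.tc) (fun _ _ _ => rfl) h.rc offw wn h.w h.wt) h1 h2
    hpq hqr hr hc hA hB hC vA vB vC hd ht

/-- **A checked certificate is good.** -/
theorem good_of {PL : Nat → Pd} {P0 : Pd} {xs : List Gd} {offw offa offb : Nat}
    {wn : Nat → Nat} {K : Nat} (hB : BOk D PL)
    (h0 : PsdB P0 64 D.nt 0 D.off0 0 D.q0L (fun _ => 0) (fun _ => 0))
    (hG : ∀ x ∈ xs, D.GOk x) (hM : MOk D (xs.map Gd.sy) offw offa offb wn)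
    (hK : Nat.ble 1 K = true) : Good D.T (xs.map Gd.sy) (K : ℝ) where
  flt p hp q hq s hs hv := by
    obtain ⟨x, -, -, e, h1, -⟩ := rec_sound (tc := D.tc) (fun _ _ _ => rfl) hM.rc hp hq hs hv
    rw [← e]
    exact h1
  spl := spl_of
  q0c := q0c_of h0
  qtc := hB.qtc
  usym := D.usym
  msym := msym_of (tc := D.tc) (fun _ _ _ => rfl) hM.rc
  wsym := wsym_of hM.wt
  inv g hg := by
    obtain ⟨x, hx, rfl⟩ := List.mem_map.1 hg
    exact inv_gd hM.rc (hG x hx)
  key := hM.key
  psd0 := fun ι _ f => psd0_of h0 ι f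
  psdt := fun ι _ p f => hB.psdt ι p f
  K0 := by
    have h1 : 1 ≤ K := Nat.le_of_ble_eq_true hK
    exact_mod_cast h1

/-- **The bound from a checked certificate.** -/
theorem nb_of {PL : Nat → Pd} {P0 PZ : Pd} {xs : List Gd} {offw offa offb : Nat}
    {wn : Nat → Nat} {K : Nat} (hB : BOk D PL)
    (h0 : PsdB P0 64 D.nt 0 D.off0 0 D.q0L (fun _ => 0) (fun _ => 0))
    (hz : PsdB PZ 64 D.nt 0 D.oz 0 D.zL (fun _ => 0) (fun _ => 0))
    (hG : ∀ x ∈ xs, D.GOk x) (hM : MOk D (xs.map Gd.sy) offw offa offb wn)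
    (hK : Nat.ble 1 K = true) (hlo : loB D K = true) (s0 s1 : ℕ) : NB D.T s0 s1 :=
  nb_of_linkU (good_of hB h0 hG hM hK) (linkU_of hz hlo) s0 s1

end Dt

end Pool.Agent.AKX
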