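import Pool.Agent.AKX.DatL

set_option autoImplicit false

/-!
# Packed data: the check of the rows of the value at the roots
-/

namespace Pool.Agent.AKX

open Finset Pool.Agent.AKU Pool.Agent.AKG

namespace Dt

variable (D : Dt)

/-- the rows at pairs are the two rows for the value at the roots, and the exchange rows compare
with the value at the roots -/
noncomputable def chkOwn : Bool :=
  Nat.beq D.nj 2 && allN D.nt fun r =>
    ((Nat.beq (D.T.fp 0 r) (Nat.mul D.e (D.T.wy r)) && Nat.beq (D.T.fm 0 r) D.h0) &&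
      (Nat.beq (D.T.fp 1 r) D.h1 && Nat.beq (D.T.fm 1 r) (Nat.mul D.e (D.T.wy r)))) &&
      Nat.beq (D.T.gm r) (D.T.wy r)

variable {D}

/-- **The rows of the value at the roots** -/
theorem ownK_of (h : D.chkOwn = true) : OwnK D.T := by
  have h0 : Nat.beq D.nj 2 = true := (Bool.and_eq_true _ _ ▸ h : _ ∧ _).1
  have h1 : ∀ r < D.nt, (D.T.fp 0 r = D.e * D.T.wy r ∧ D.T.fm 0 r = D.h0) ∧
      (D.T.fp 1 r = D.h1 ∧ D.T.fm 1 r = D.e * D.T.wy r) ∧ D.T.gm r = D.T.wy r := by
    intro r hr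
    have h2 := allN_iff.1 (Bool.and_eq_true _ _ ▸ h : _ ∧ _).2 r hr
    simp only [Bool.and_eq_true, Nat.beq_eq] at h2
    exact ⟨h2.1.1, h2.1.2, h2.2⟩
  exact
    { nj := Nat.eq_of_beq_eq_true h0
      p0 := fun r hr => (h1 r hr).1.1
      m0 := fun r hr => (h1 r hr).1.2
      p1 := fun r hr => (h1 r hr).2.1.1
      m1 := fun r hr => (h1 r hr).2.1.2
      gm := fun r hr => (h1 r hr).2.2 }

end Dt

end Pool.Agent.AKX
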