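import Pool.Agent.AKX.DatL
import Pool.Agent.AKX.DatI
import Pool.Agent.AKX.Chain

set_option autoImplicit false

/-!
# Packed data: the checks for the triangle with the largest sum of squares
-/

namespace Pool.Agent.AKX

open Finset Pool.Agent.AKU Pool.Agent.AKG

theorem lk_zeroQ (j : ℕ) : lk 0 j = 0 := by
  unfold lk
  show (0 >>> _) % _ = 0
  rw [Nat.zero_shiftRight, Nat.zero_mod]

/-- all the entries of a list vanish -/
noncomputable def allZ (l : List Nat) : Bool := allM l fun x => Nat.beq x 0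

theorem allZ_nthL {l : List Nat} (h : allZ l = true) (i : ℕ) : nthL l i = 0 := by
  rw [nthL_getD, List.getD_eq_getElem?_getD]
  rcases hg : l[i]? with _ | x
  · rfl
  · exact Nat.eq_of_beq_eq_true (allM_iff.1 h x (List.mem_of_getElem? hg))

namespace Dt

variable (D : Dt)

/-- only the row of the weight of the roots -/
noncomputable def chkOwnQ (h : Nat) : Bool :=
  (Nat.beq D.nj 1 && allZ D.mvL) && allN D.nt fun r =>
    Nat.beq (D.T.fp 0 r) (D.T.wy r) && Nat.beq (D.T.fm 0 r) h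

/-- the multipliers of the exchange of the root `k` vanish unless the new triple is acute with a
larger sum of squares -/
noncomputable def chkLmQ (k : Fin 3) : Bool :=
  allN D.nt fun p => orB (Nat.beq (Nat.mod (xst k (D.cd p)) 4) 0 && sqUp k (D.cd p))
    (Nat.beq (nthL D.lamL (Nat.add (Nat.mul 3 (D.orb p)) (lk (nthL D.rkL k.1) p))) 0)

/-- the same, in the right direction: `true` if the multiplier may be positive -/
noncomputable def okQ (k : Fin 3) (p : Nat) : Bool :=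
  Nat.beq (Nat.mod (xst k (D.cd p)) 4) 0 && sqUp k (D.cd p)

/-- the values of the rows of the exchange of the root `k`, compared with `h` -/
noncomputable def chkEvQ (h : Nat) (k : Fin 3) (p : Nat) : Bool :=
  Bool.rec (motive := fun _ => Bool) true
    (allN D.nt fun q => allL (D.T.E p q) fun x =>
      Nat.beq (Nat.add (D.T.ev k.1 p x.f) h)
        (Nat.add D.offe (D.T.wv (xch k (D.cd p) (D.cd q) x.s))))
    (D.okQ k p)

variable {D} {tcs : List ℕ} {offa offb h : ℕ}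

theorem mm_zero (hz : allZ D.mvL = true) (k p q s : ℕ) : D.T.mm k p q s = 0 := by
  have e : D.T.mm k p q s =
    lk (nthL D.mvL (Nat.add (Nat.mul 3 (D.orb p)) (lk (nthL D.rkL k) p))) (D.T.fl p q s) := rfl
  rw [e, allZ_nthL hz, lk_zeroQ]

/-- **The rows at pairs** -/
theorem ownQ_of (hq : D.chkOwnQ h = true) : OwnQ D.T h := by
  unfold chkOwnQ at hq
  rw [Bool.and_eq_true, Bool.and_eq_true] at hq
  obtain ⟨⟨h0, h1⟩, h2⟩ := hq
  have h3 : ∀ r < D.nt, D.T.fp 0 r = D.T.wy r ∧ D.T.fm 0 r = h := by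
    intro r hr
    have h4 := allN_iff.1 h2 r hr
    rw [Bool.and_eq_true] at h4
    exact ⟨Nat.eq_of_beq_eq_true h4.1, Nat.eq_of_beq_eq_true h4.2⟩
  exact
    { nj := Nat.eq_of_beq_eq_true h0
      p0 := fun r hr => (h3 r hr).1
      m0 := fun r hr => (h3 r hr).2
      mm := fun k _ p _ q _ s _ _ => mm_zero h1 k p q s }

/-- **The conditions on the tables**, without multipliers of the exchange of two roots -/
theorem linkT_ofZ (hT : D.TAB = Pool.Agent.AKG.TAB) (hn : D.nt = tcs.length)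
    (ht : chkTy Pool.Agent.AKG.TAB tcs = true) (hc : D.chkTc tcs = true) (hi : D.chkWv = true)
    (hy : D.chkWy = true) (hz : allZ D.mvL = true) : LinkT D.T tcs where
  tab := hT
  nt := hn
  types := chkTy_sound ht
  vp := by
    intro p hp q hq s _ h
    exact vp_of hT hc (by rw [hn]; exact hp) (by rw [hn]; exact hq) h
  inv := by
    intro K hK h1
    have h2 := allN_iff.1 hi K hK
    have h3 : tb D.TAB K = true := by
      rw [tb_eq, hT]
      exact h1
    rw [h3] at h2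
    have h4 : (Nat.beq (D.T.wv (cs12 K)) (D.T.wv K) && Nat.beq (D.T.wv (cs23 K)) (D.T.wv K)) =
      true := h2
    rw [Bool.and_eq_true] at h4
    have h5 : D.T.wv (cs12 K) = D.T.wv K := Nat.eq_of_beq_eq_true h4.1
    have h6 : D.T.wv (cs23 K) = D.T.wv K := Nat.eq_of_beq_eq_true h4.2
    show (D.T.wv (cs12 K) : ℤ) = D.T.wv K ∧ (D.T.wv (cs23 K) : ℤ) = D.T.wv K
    rw [h5, h6]
    exact ⟨rfl, rfl⟩
  wy := by
    intro p hp
    have hp' : p < D.nt := by rw [hn]; exact hp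
    rw [cd_getD hc hp']
    exact Nat.eq_of_beq_eq_true (allN_iff.1 hy p hp')
  m2 := fun p _ q _ s _ _ => ⟨fun _ => mm_zero hz 0 p q s, fun _ => mm_zero hz 1 p q s,
    fun _ => mm_zero hz 2 p q s⟩

theorem lamQ_of (hn : D.nt = tcs.length) (hc : D.chkTc tcs = true) (k : Fin 3)
    (hl : D.chkLmQ k = true) (p : ℕ) (hp : p < tcs.length)
    (hx : ¬ (xst k (tcs.getD p 0) % 4 = 0 ∧ sqUp k (tcs.getD p 0) = true)) (j : ℕ) :
    D.T.lam k p j = 0 := by
  have hp' : p < D.nt := by rw [hn]; exact hp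
  rw [cd_getD hc hp'] at hx
  have h1 := allN_iff.1 hl p hp'
  rw [orB_iff] at h1
  have e : D.T.lam k p j =
    lk (nthL D.lamL (Nat.add (Nat.mul 3 (D.orb p)) (lk (nthL D.rkL k.1) p))) j := rfl
  rcases h1 with h1 | h1
  · rw [Bool.and_eq_true] at h1
    exact absurd ⟨Nat.eq_of_beq_eq_true h1.1, h1.2⟩ hx
  · rw [e, Nat.eq_of_beq_eq_true h1, lk_zeroQ]

theorem evQ_of (hT : D.TAB = Pool.Agent.AKG.TAB) (hn : D.nt = tcs.length)
    (hc : D.chkTc tcs = true)
    (hrec : ∀ p < D.nt, chkRec D.T (fun p => lk D.tcP p) offa offb p = true) (h : ℕ) (k : Fin 3)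
    (he : ∀ p < D.nt, D.chkEvQ h k p = true) (p : ℕ) (hp : p < tcs.length) (q : ℕ)
    (hq : q < tcs.length) (s : ℕ) (hs : s < 512)
    (hv : pairT (tcs.getD p 0) (tcs.getD q 0) s = true)
    (hx : xst k (tcs.getD p 0) % 4 = 0) (hsq : sqUp k (tcs.getD p 0) = true) :
    D.T.Ev k p (D.T.fl p q s) = (D.T.wv (xch k (tcs.getD p 0) (tcs.getD q 0) s) : ℤ) - h := by
  have hp' : p < D.nt := by rw [hn]; exact hp
  have hq' : q < D.nt := by rw [hn]; exact hq
  have hv' := vp_of hT hc hp' hq' hv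
  rw [cd_getD hc hp', cd_getD hc hq'] at *
  obtain ⟨x, hx', rfl, e1, -, -⟩ := rec_sound D.hvp hrec hp' hq' hs hv'
  have h0 := he p hp'
  unfold Dt.chkEvQ at h0
  have h00 : D.okQ k p = true := by
    unfold okQ
    rw [Bool.and_eq_true, Nat.beq_eq]
    exact ⟨hx, hsq⟩
  rw [h00] at h0
  have h1 := allL_iff.1 (allN_iff.1 h0 q hq') x hx'
  rw [Nat.beq_eq] at h1
  have h2 : D.T.ev k.1 p x.f + h = D.offe + D.T.wv (xch k (D.cd p) (D.cd q) x.s) := h1
  have h3 : (D.T.ev k.1 p x.f : ℤ) + h =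
    D.offe + D.T.wv (xch k (D.cd p) (D.cd q) x.s) := by exact_mod_cast h2
  unfold Tb.Ev
  rw [← e1]
  have e : D.T.offe = D.offe := rfl
  rw [e]
  linarith

/-- **The exchange rows of one root** -/
theorem linkEQ_of (hT : D.TAB = Pool.Agent.AKG.TAB) (hn : D.nt = tcs.length)
    (hc : D.chkTc tcs = true)
    (hrec : ∀ p < D.nt, chkRec D.T (fun p => lk D.tcP p) offa offb p = true)
    (hl : ∀ k, D.chkLmQ k = true) (he : ∀ k, ∀ p < D.nt, D.chkEvQ h k p = true)
    (hnk : D.nk ≤ 3) : LinkEQ D.T tcs h where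
  nk := hnk
  lam := fun k p hp hx j => lamQ_of hn hc k (hl k) p hp hx j
  ev := fun k p hp q hq s hs hv hx hsq =>
    evQ_of hT hn hc hrec h k (he k) p hp q hq s hs hv hx hsq

theorem wv_le (D : Dt) (K : ℕ) : D.T.wv K ≤ 4095 := by
  have h1 : D.T.wv K < 4096 := Nat.mod_lt _ (by norm_num)
  omega

/-- **A checked certificate for the triangle with the largest sum of squares**: in every nearly
optimal set some acute triple has weight at least `h` -/
theorem upQ_of {PL : Nat → Pd} {P0 PZ : Pd} {xs : List Gd} {offw offa' offb' : Nat}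
    {wn : Nat → Nat} {K : Nat} (hB : BOk D PL)
    (h0 : PsdB P0 64 D.nt 0 D.off0 0 D.q0L (fun _ => 0) (fun _ => 0))
    (hz : PsdB PZ 64 D.nt 0 D.oz 0 D.zL (fun _ => 0) (fun _ => 0))
    (hG : ∀ x ∈ xs, D.GOk x) (hM : MOk D (xs.map Gd.sy) offw offa' offb' wn)
    (hK : Nat.ble 1 K = true) (hlo : loB D K = true)
    (hT : D.TAB = Pool.Agent.AKG.TAB) (hn : D.nt = tcs.length)
    (ht : chkTy Pool.Agent.AKG.TAB tcs = true) (hc : D.chkTc tcs = true) (hi : D.chkWv = true)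
    (hy : D.chkWy = true) (hq : D.chkOwnQ h = true) (hl : ∀ k, D.chkLmQ k = true)
    (he : ∀ k, ∀ p < D.nt, D.chkEvQ h k p = true) (hnk : D.nk ≤ 3) :
    Dec (Up D.T.wv 1 h) := by
  have hzm : allZ D.mvL = true := by
    unfold chkOwnQ at hq
    rw [Bool.and_eq_true, Bool.and_eq_true] at hq
    exact hq.1.2
  exact up_of_Q (fun s1 => nb_of hB h0 hz hG hM hK hlo _ s1) (ownQ_of hq)
    (linkT_ofZ hT hn ht hc hi hy hzm) (linkEQ_of hT hn hc hM.rc hl he hnk) (wv_le D)

/-! ### the rows of the large triangle -/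

/-- the rows at pairs: cost, weight of the roots and the rows of the disks -/
noncomputable def chkOwnB (tcs : List ℕ) (h m : ℕ) (sp : ℕ → Sp) (lm : ℕ → ℕ) : Bool :=
  (Nat.ble 2 D.nj && allN D.nt fun r =>
    ((Nat.beq (D.T.fp 0 r) 1 && Nat.beq (D.T.fm 0 r) 0) &&
      (Nat.beq (D.T.fp 1 r) h && Nat.beq (D.T.fm 1 r) (D.T.wy r))) &&
      Nat.beq (D.T.gm r) h) &&
  (allN (Nat.sub D.nj 2) fun i => allN D.nt fun r =>
    Nat.beq (D.T.fp (Nat.add i 2) r) (sp (Nat.add i 2)).a &&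
      Nat.ble (D.T.fm (Nat.add i 2) r) ((sp (Nat.add i 2)).val (nthL tcs r)))

/-- the multipliers of the rows at pairs, for one type -/
noncomputable def chkOB (m : ℕ) (lm : ℕ → ℕ) (p : Nat) : Bool :=
  allN D.nt fun q => allL (D.T.E p q) fun x =>
    Nat.ble m (lk (D.T.ov 0 p) x.f) &&
      allN (Nat.sub D.nj 2) fun i => Nat.ble (lk (D.T.ov (Nat.add i 2) p) x.f) (lm (Nat.add i 2))

theorem ownB_of {m : ℕ} {sp : ℕ → Sp} {lm : ℕ → ℕ}
    (hrec : ∀ p < D.nt, chkRec D.T (fun p => lk D.tcP p) offa offb p = true)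
    (hb : D.chkOwnB tcs h m sp lm = true) (ho : ∀ p < D.nt, D.chkOB m lm p = true) :
    OwnB D.T tcs h m sp lm := by
  unfold chkOwnB at hb
  rw [Bool.and_eq_true, Bool.and_eq_true] at hb
  obtain ⟨⟨h0, h1⟩, h2⟩ := hb
  have h3 : ∀ r < D.nt, ((D.T.fp 0 r = 1 ∧ D.T.fm 0 r = 0) ∧
      (D.T.fp 1 r = h ∧ D.T.fm 1 r = D.T.wy r)) ∧ D.T.gm r = h := by
    intro r hr
    have h4 := allN_iff.1 h1 r hr
    simp only [Bool.and_eq_true, Nat.beq_eq] at h4
    exact h4
  have h5 : ∀ j < D.nj, 2 ≤ j → ∀ r < D.nt, D.T.fp j r = (sp j).a ∧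
      D.T.fm j r ≤ (sp j).val (tcs.getD r 0) := by
    intro j hj hj2 r hr
    have h4 := allN_iff.1 (allN_iff.1 h2 (j - 2) (by show j - 2 < D.nj - 2; omega)) r hr
    have e : Nat.add (j - 2) 2 = j := by show j - 2 + 2 = j; omega
    rw [e, Bool.and_eq_true, nthL_getD] at h4
    exact ⟨Nat.eq_of_beq_eq_true h4.1, Nat.le_of_ble_eq_true h4.2⟩
  have h6 : ∀ p < D.nt, ∀ q < D.nt, ∀ s < 512, D.T.vp p q s = true → m ≤ D.T.oo 0 p q s ∧
      ∀ j < D.nj, 2 ≤ j → D.T.oo j p q s ≤ lm j := by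
    intro p hp q hq s hs hv
    obtain ⟨x, hx, rfl, e1, -, -⟩ := rec_sound D.hvp hrec hp hq hs hv
    have h4 := allL_iff.1 (allN_iff.1 (ho p hp) q hq) x hx
    rw [Bool.and_eq_true] at h4
    unfold Tb.oo
    rw [← e1]
    refine ⟨Nat.le_of_ble_eq_true h4.1, fun j hj hj2 => ?_⟩
    have h7 := allN_iff.1 h4.2 (j - 2) (by show j - 2 < D.nj - 2; omega)
    have e : Nat.add (j - 2) 2 = j := by show j - 2 + 2 = j; omega
    rw [e] at h7
    exact Nat.le_of_ble_eq_true h7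
  exact
    { nj := Nat.le_of_ble_eq_true h0
      p0 := fun r hr => (h3 r hr).1.1.1
      m0 := fun r hr => (h3 r hr).1.1.2
      o0 := fun p hp q hq s hs hv => (h6 p hp q hq s hs hv).1
      p1 := fun r hr => (h3 r hr).1.2.1
      m1 := fun r hr => (h3 r hr).1.2.2
      pj := fun j hj hj2 r hr => (h5 j hj hj2 r hr).1
      mj := fun j hj hj2 r hr => (h5 j hj hj2 r hr).2
      oj := fun j hj hj2 p hp q hq s hs hv => (h6 p hp q hq s hs hv).2 j hj hj2
      gm := fun r hr => (h3 r hr).2 }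

/-- **The exchange rows of one root**, compared with `h` -/
theorem linkEB_of (hT : D.TAB = Pool.Agent.AKG.TAB) (hn : D.nt = tcs.length)
    (hc : D.chkTc tcs = true)
    (hrec : ∀ p < D.nt, chkRec D.T (fun p => lk D.tcP p) offa offb p = true)
    (hl : ∀ k, D.chkLm k = true) (he : ∀ k, ∀ p < D.nt, D.chkEh h k p = true)
    (hnk : D.nk ≤ 3) : LinkEB D.T tcs h where
  nk := hnk
  lam := fun k p hp hx j => lam_of hn hc k (hl k) p hp hx j
  ev := fun k p hp q hq s hs hv hx => eh_of hT hn hc hrec h k (he k) p hp q hq s hs hv hx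

end Dt

end Pool.Agent.AKX
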