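import Pool.Agent.AKX.VecD
import Pool.Agent.AKU6.VZ476.Fin
import Pool.Agent.AKZS_46_476_VZ.Ok
import Pool.Agent.AKXS_42_46_VA.Ok
import Pool.Agent.AKXS_36_42_VA.Ok
import Pool.Agent.AKXS_34_39_VA.Ok
import Pool.Agent.AKXS_24_34_V1.Ok
import Pool.Agent.AKXS_0_25_WE.Ok

set_option autoImplicit false

/-!
# `4/27 ≤ F(π/2)`: the certificates together
-/

namespace Pool.Agent.AKX

open Pool.Agent.MP_0af329_co Pool.Agent

/-- VA, values from .42 to .46 -/
theorem half_s1 : Dec (Btw (wvf PVA) 10000 154000 158000) :=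
  strip_of (D := AKXS_42_46_VA.D) rfl (by norm_num) AKXS_42_46_VA.nb AKXS_42_46_VA.ownK AKXS_42_46_VA.linkT
    AKXS_42_46_VA.linkE (by decide +kernel) (by decide +kernel)

/-- VA, values from .39 to .42 -/
theorem half_s2 : Dec (Btw (wvf PVA) 10000 158000 161000) :=
  strip_of (D := AKXS_36_42_VA.D) rfl (by norm_num) AKXS_36_42_VA.nb AKXS_36_42_VA.ownK AKXS_36_42_VA.linkT
    AKXS_36_42_VA.linkE (by decide +kernel) (by decide +kernel)

/-- VA, values from .34 to .39 -/
theorem half_s3 : Dec (Btw (wvf PVA) 10000 161000 166000) :=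
  strip_of (D := AKXS_34_39_VA.D) rfl (by norm_num) AKXS_34_39_VA.nb AKXS_34_39_VA.ownK AKXS_34_39_VA.linkT
    AKXS_34_39_VA.linkE (by decide +kernel) (by decide +kernel)

/-- V1, values from .25 to .34 -/
theorem half_s4 : Dec (Btw (wvf PV1) 10000 166000 175000) :=
  strip_of (D := AKXS_24_34_V1.D) rfl (by norm_num) AKXS_24_34_V1.nb AKXS_24_34_V1.ownK AKXS_24_34_V1.linkT
    AKXS_24_34_V1.linkE (by decide +kernel) (by decide +kernel)

/-- WE, values from 0 to .25 -/
theorem half_s5 : Dec (Btw (wvf PWE) 10000 87500 100000) :=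
  strip_of (D := AKXS_0_25_WE.D) rfl (by norm_num) AKXS_0_25_WE.nb AKXS_0_25_WE.ownK AKXS_0_25_WE.linkT
    AKXS_0_25_WE.linkE (by decide +kernel) (by decide +kernel)

/-- no value below 0 -/
theorem half_end : Dec (Up (wvf PWE) 10000 100000) :=
  up_topA PWE_le (by norm_num) (by norm_num)

theorem half_u5 : Dec (Up (wvf PWE) 10000 87500) := up_step inv_WE half_s5 half_end

theorem half_c4 : Dec (Up (wvf PV1) 10000 175000) :=
  up_vec (α := 1) (β := 2) chk_V1_WE (by norm_num) (by norm_num) (by norm_num)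
    (by norm_num) (Or.inl (by norm_num)) half_u5

theorem half_u4 : Dec (Up (wvf PV1) 10000 166000) := up_step inv_V1 half_s4 half_c4

theorem half_c3 : Dec (Up (wvf PVA) 10000 166000) := up_vec1 chk_VA_V1 half_u4

theorem half_u3 : Dec (Up (wvf PVA) 10000 161000) := up_step inv_VA half_s3 half_c3

theorem half_u2 : Dec (Up (wvf PVA) 10000 158000) := up_step inv_VA half_s2 half_u3

theorem half_u1 : Dec (Up (wvf PVA) 10000 154000) := up_step inv_VA half_s1 half_u2

theorem half_c0 : Dec (Up (wvf PVZ) 10000 508000) :=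
  up_vec (α := 1) (β := 2) chk_VZ_VA (by norm_num) (by norm_num) (by norm_num)
    (by norm_num) (Or.inl (by norm_num)) half_u1

/-- VZ, values from .46 to .476, if no value of VA is at most .46 -/
theorem half_s0 : Dec (Btw (wvf PVZ) 10000 504800 508000) :=
  strip_assume (P1 := PVA) (E := 10000) (A1 := 154000) rfl rfl AKZS_46_476_VZ.dec2 half_u1 (by decide +kernel)
    (by decide +kernel) (by norm_num) (by decide +kernel) (by decide +kernel)

theorem half_u0 : Dec (Up (wvf PVZ) 10000 504800) := up_step inv_VZ half_s0 half_c0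

/-- the sets in which all values are larger than .476 -/
theorem half_low : Dec (Low (wvf PVZ) 10000 504800) :=
  low_of_fin6 (C := AKU6.VZ476.C) (m := 1500) (x := 25) (by decide +kernel) (by norm_num)
    (by decide +kernel) AKU6.VZ476.rf AKU6.VZ476.fin6 AKU6.VZ476.og_pos

/-- **The lower bound** -/
theorem half_ge : 4 / 27 ≤ F (Real.pi / 2) :=
  F_ge_of_up half_u0 half_low

end Pool.Agent.AKX
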