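import Pool.Agent.AKG.LinkC

set_option autoImplicit false
set_option linter.unusedSectionVars false

/-!
# Rows at a triple, when all acute triples have small weight
-/

namespace Pool.Agent.AKX

open Finset Classical Pool.Agent.AKG Pool.Agent.AKU

section

variable {ι : Type*} {x y : ι → ℝ} [Fintype ι]

/-- every acute triple has weight at most `h` per point -/
def AllA (x y : ι → ℝ) (w : ℕ → ℤ) (h cc : ℤ) : Prop :=
  ∀ r, AcT x y r → Ph x y w r ≤ h * Fintype.card ι + cc

/-- neither a root nor one of the two points -/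
def Dz (r : Fin 3 → ι) (u v z : ι) : Prop := (∀ k, z ≠ r k) ∧ z ≠ u ∧ z ≠ v

theorem sum_Dz (r : Fin 3 → ι) (u v : ι) :
    (Fintype.card ι : ℤ) - 5 ≤ ∑ z, (if Dz r u v z then (1 : ℤ) else 0) := by
  have e1 : ∀ z : ι, (1 : ℤ) - (if z ∈ ({r 0, r 1, r 2, u, v} : Finset ι) then 1 else 0) ≤
      (if Dz r u v z then (1 : ℤ) else 0) := by
    intro z
    by_cases hz : z ∈ ({r 0, r 1, r 2, u, v} : Finset ι)
    · rw [if_pos hz]
      split_ifs <;> norm_num
    · rw [if_neg hz]
      simp only [mem_insert, mem_singleton, not_or] at hz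
      have d1 : Dz r u v z := by
        refine ⟨?_, hz.2.2.2.1, hz.2.2.2.2⟩
        rw [forall_fin3]
        exact ⟨hz.1, hz.2.1, hz.2.2.1⟩
      rw [if_pos d1]
      norm_num
  have e2 := sum_le_sum fun z (_ : z ∈ (univ : Finset ι)) => e1 z
  rw [sum_sub_distrib, sum_const, card_univ, nsmul_eq_mul, mul_one, sum_ite_mem, univ_inter,
    sum_const, nsmul_eq_mul, mul_one] at e2
  have e3 : ((({r 0, r 1, r 2, u, v} : Finset ι).card : ℕ) : ℤ) ≤ 5 := by
    exact_mod_cast card_le_five
  linarith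

/-- a constant minus a function, summed over the other points -/
theorem row_ge {r : Fin 3 → ι} {u v : ι} {a : ℤ} (ha : 0 ≤ a) {f g : ι → ℤ} (hf : ∀ z, 0 ≤ f z)
    (hg : ∀ z, Dz r u v z → g z ≤ f z) :
    a * (Fintype.card ι - 5) - ∑ z, f z ≤ ∑ z, (if Dz r u v z then a - g z else 0) := by
  have h1 := mul_le_mul_of_nonneg_left (sum_Dz r u v) ha
  have h2 : a * ∑ z, (if Dz r u v z then (1 : ℤ) else 0) - ∑ z, f z ≤
      ∑ z, (if Dz r u v z then a - g z else 0) := by
    rw [mul_sum, ← sum_sub_distrib]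
    refine sum_le_sum fun z _ => ?_
    by_cases hz : Dz r u v z
    · rw [if_pos hz, if_pos hz]
      have := hg z hz
      linarith
    · rw [if_neg hz, if_neg hz]
      have := hf z
      linarith
  linarith

/-- the row of an acute triple -/
theorem row_acute {w : ℕ → ℤ} {h cc : ℤ} (hA : AllA x y w h cc) (w0 : ∀ k, 0 ≤ w k) (h0 : 0 ≤ h)
    {r : Fin 3 → ι} {u v : ι} {q : Fin 3 → ι} (hq : AcT x y q)
    (hs : ∀ z, Dz r u v z → ∀ j, z ≠ q j) :
    -(5 * h + cc) ≤
      ∑ z, (if Dz r u v z then h - w (code x y (q 0) (q 1) (q 2) z) else 0) := by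
  have h1 := row_ge (r := r) (u := u) (v := v) h0
    (f := fun z => if ∀ k, z ≠ q k then w (code x y (q 0) (q 1) (q 2) z) else 0)
    (g := fun z => w (code x y (q 0) (q 1) (q 2) z))
    (fun z => by
      split_ifs
      · exact w0 _
      · exact le_refl _)
    (fun z hz => by rw [if_pos (hs z hz)])
  have h2 := hA q hq
  have e : Ph x y w q = ∑ z, (if ∀ k, z ≠ q k then w (code x y (q 0) (q 1) (q 2) z) else 0) := rfl
  rw [e] at h2
  linarith

/-- **The rows at a pair** for a triple -/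
theorem pair_sumB {w : ℕ → ℤ} {h cc : ℤ} (hA : AllA x y w h cc) (w0 : ∀ k, 0 ≤ w k) (h0 : 0 ≤ h)
    (hcc : 0 ≤ cc) {r : Fin 3 → ι} {u v : ι} (hu : ∀ k, u ≠ r k) (hv : ∀ k, v ≠ r k) (huv : u ≠ v)
    {nj : ℕ} {o mm : ℕ → ℕ} {F : ℕ → ι → ℤ} {c0 : ℤ} {E lm : ℕ → ℤ} {L : ℕ}
    (hmm : ∀ k : Fin 3, mm k ≠ 0 → st x y (r k) u v % 4 = 0)
    (hF : ∀ j < nj, -(c0 + E j) ≤ ∑ z, (if Dz r u v z then F j z else 0)) (hc0 : 0 ≤ c0)
    (ho : ∀ j < nj, o j ≤ L) (hm : ∀ k : Fin 3, mm k ≤ L)
    (hlm : ∀ j < nj, (o j : ℤ) * E j ≤ lm j * E j) :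
    -(nj * (L * c0) + ∑ j ∈ range nj, lm j * E j + 3 * (L * (5 * h + cc))) ≤
      ∑ z, (if Dz r u v z then (∑ j ∈ range nj, (o j : ℤ) * F j z) +
        ((mm 0 : ℤ) * (h - w (code x y (r 0) u v z)) + (mm 1 : ℤ) * (h - w (code x y (r 1) u v z)) +
          (mm 2 : ℤ) * (h - w (code x y (r 2) u v z))) else 0) := by
  have e1 : ∑ z, (if Dz r u v z then (∑ j ∈ range nj, (o j : ℤ) * F j z) +
        ((mm 0 : ℤ) * (h - w (code x y (r 0) u v z)) + (mm 1 : ℤ) * (h - w (code x y (r 1) u v z)) +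
          (mm 2 : ℤ) * (h - w (code x y (r 2) u v z))) else 0) =
      (∑ j ∈ range nj, (o j : ℤ) * ∑ z, (if Dz r u v z then F j z else 0)) +
      ((mm 0 : ℤ) * ∑ z, (if Dz r u v z then h - w (code x y (r 0) u v z) else 0) +
      (mm 1 : ℤ) * ∑ z, (if Dz r u v z then h - w (code x y (r 1) u v z) else 0) +
      (mm 2 : ℤ) * ∑ z, (if Dz r u v z then h - w (code x y (r 2) u v z) else 0)) := by
    have e2 : ∑ j ∈ range nj, (o j : ℤ) * ∑ z, (if Dz r u v z then F j z else 0) =
        ∑ z, (if Dz r u v z then ∑ j ∈ range nj, (o j : ℤ) * F j z else 0) := by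
      simp only [mul_sum]
      rw [sum_comm]
      refine sum_congr rfl fun z _ => ?_
      by_cases hz : Dz r u v z
      · simp only [if_pos hz]
      · simp only [if_neg hz, mul_zero, sum_const_zero]
    rw [e2]
    simp only [mul_sum, ← sum_add_distrib]
    refine sum_congr rfl fun z _ => ?_
    by_cases hz : Dz r u v z
    · simp only [if_pos hz]
    · simp only [if_neg hz, mul_zero, add_zero]
  rw [e1]
  have hL0 : (0 : ℤ) ≤ L := Int.natCast_nonneg _
  have k1 : -(nj * (L * c0) + ∑ j ∈ range nj, lm j * E j) ≤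
      ∑ j ∈ range nj, (o j : ℤ) * ∑ z, (if Dz r u v z then F j z else 0) := by
    have k2 : ∀ j ∈ range nj, -(L * c0 + lm j * E j) ≤
        (o j : ℤ) * ∑ z, (if Dz r u v z then F j z else 0) := by
      intro j hj
      have j1 := mem_range.1 hj
      have k3 := mul_le_mul_of_nonneg_left (hF j j1) (Int.natCast_nonneg (o j))
      have k4 : (o j : ℤ) * c0 ≤ L * c0 :=
        mul_le_mul_of_nonneg_right (by exact_mod_cast ho j j1) hc0
      have k5 := hlm j j1
      have k6 : (o j : ℤ) * -(c0 + E j) = -((o j : ℤ) * c0 + (o j : ℤ) * E j) := by ring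
      rw [k6] at k3
      linarith
    have k7 := sum_le_sum k2
    refine le_trans (le_of_eq ?_) k7
    rw [sum_neg_distrib, sum_add_distrib, sum_const, card_range, nsmul_eq_mul]
  have key : ∀ k : Fin 3, -((L : ℤ) * (5 * h + cc)) ≤
      (mm k : ℤ) * ∑ z, (if Dz r u v z then h - w (code x y (r k) u v z) else 0) := by
    intro k
    by_cases hk : mm k = 0
    · rw [hk, Nat.cast_zero, zero_mul]
      have : 0 ≤ (L : ℤ) * (5 * h + cc) := by positivity
      linarith
    · have hac : AcT x y ![r k, u, v] :=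
        ⟨(inj_iff _).2 ⟨(hu k).symm, (hv k).symm, huv⟩, hmm k hk⟩
      have h2 := row_acute hA w0 h0 (r := r) (u := u) (v := v) hac (fun z hz => by
        rw [forall_fin3]
        exact ⟨hz.1 k, hz.2.1, hz.2.2⟩)
      have h3 := mul_le_mul_of_nonneg_left h2 (Int.natCast_nonneg (mm k))
      have h4 : (mm k : ℤ) * (5 * h + cc) ≤ L * (5 * h + cc) :=
        mul_le_mul_of_nonneg_right (by exact_mod_cast hm k) (by positivity)
      have h5 : (mm k : ℤ) * -(5 * h + cc) = -((mm k : ℤ) * (5 * h + cc)) := by ring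
      rw [h5] at h3
      exact le_trans (neg_le_neg h4) h3
  have K0 := key 0
  have K1 := key 1
  have K2 := key 2
  simp only [Fin.val_zero, Fin.val_one, Fin.val_two] at K0 K1 K2
  linarith

/-- **The rows of one root**: the triple with `u` in place of the root `k` is acute -/
theorem exchB (hG : GN x y) {w : ℕ → ℤ} {h cc : ℤ} (hA : AllA x y w h cc) (w0 : ∀ k, 0 ≤ w k)
    (h0 : 0 ≤ h) {r : Fin 3 → ι} (hi : Function.Injective r) {u : ι} (hu : ∀ k, u ≠ r k)
    (k : Fin 3) (hk : xst k (tau x y (r 0) (r 1) (r 2) u) % 4 = 0) :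
    ∑ v, (if (∀ k, v ≠ r k) ∧ u ≠ v then
      w (xch k (tau x y (r 0) (r 1) (r 2) u) (tau x y (r 0) (r 1) (r 2) v)
        (cixA x y (r 0) (r 1) (r 2) u v)) - h else 0) ≤ 4 * h + cc := by
  set r' : Fin 3 → ι := Function.update r k u with hr'
  have hinj : Function.Injective r' := by
    intro i j hij
    by_cases hi' : i = k <;> by_cases hj : j = k
    · rw [hi', hj]
    · rw [hi', hr', Function.update_self, Function.update_of_ne hj] at hij
      exact absurd hij (hu j)
    · rw [hj, hr', Function.update_self, Function.update_of_ne hi'] at hij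
      exact absurd hij.symm (hu i)
    · rw [hr', Function.update_of_ne hi', Function.update_of_ne hj] at hij
      exact hi hij
  have hac : AcT x y r' := by
    refine ⟨hinj, ?_⟩
    rw [hG.xst_eq hi hu k] at hk
    exact hk
  have e1 : ∀ v, ((∀ j, v ≠ r j) ∧ u ≠ v) → (∀ j, v ≠ r' j) := by
    rintro v ⟨g1, g2⟩ j
    by_cases hj : j = k
    · rw [hj, hr', Function.update_self]
      exact g2.symm
    · rw [hr', Function.update_of_ne hj]
      exact g1 j
  -- the number of the other points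
  have e2 : (Fintype.card ι : ℤ) - 4 ≤ ∑ v, (if (∀ k, v ≠ r k) ∧ u ≠ v then (1 : ℤ) else 0) := by
    have e1 : ∀ z : ι, (1 : ℤ) - (if z ∈ ({r 0, r 1, r 2, u} : Finset ι) then 1 else 0) ≤
        (if (∀ k, z ≠ r k) ∧ u ≠ z then (1 : ℤ) else 0) := by
      intro z
      by_cases hz : z ∈ ({r 0, r 1, r 2, u} : Finset ι)
      · rw [if_pos hz]
        split_ifs <;> norm_num
      · rw [if_neg hz]
        simp only [mem_insert, mem_singleton, not_or] at hz
        have d1 : (∀ k, z ≠ r k) ∧ u ≠ z := by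
          refine ⟨?_, fun h => hz.2.2.2 h.symm⟩
          rw [forall_fin3]
          exact ⟨hz.1, hz.2.1, hz.2.2.1⟩
        rw [if_pos d1]
        norm_num
    have e2 := sum_le_sum fun z (_ : z ∈ (univ : Finset ι)) => e1 z
    rw [sum_sub_distrib, sum_const, card_univ, nsmul_eq_mul, mul_one, sum_ite_mem, univ_inter,
      sum_const, nsmul_eq_mul, mul_one] at e2
    have e3 : ((({r 0, r 1, r 2, u} : Finset ι).card : ℕ) : ℤ) ≤ 4 := by
      exact_mod_cast card_le_four
    linarith
  have e3 : ∑ v, (if (∀ k, v ≠ r k) ∧ u ≠ v then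
      w (xch k (tau x y (r 0) (r 1) (r 2) u) (tau x y (r 0) (r 1) (r 2) v)
        (cixA x y (r 0) (r 1) (r 2) u v)) - h else 0) ≤ Ph x y w r' -
      h * ∑ v, (if (∀ k, v ≠ r k) ∧ u ≠ v then (1 : ℤ) else 0) := by
    unfold Ph
    rw [mul_sum, ← sum_sub_distrib]
    refine sum_le_sum fun v _ => ?_
    by_cases g : (∀ j, v ≠ r j) ∧ u ≠ v
    · rw [if_pos g, if_pos g, if_pos (e1 v g), hG.xch_eq hi hu g.1 g.2 k]
      linarith
    · rw [if_neg g, if_neg g]
      split_ifs
      · have := w0 (code x y (r' 0) (r' 1) (r' 2) v)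
        linarith
      · linarith
  have e4 := hA r' hac
  have e5 := mul_le_mul_of_nonneg_left e2 h0
  linarith

/-- a point in the diametral disk of `p q` -/
def inD (x y : ι → ℝ) (p q z : ι) : Prop := st x y p q z % 4 = 3

/-- a point outside the three diametral disks -/
def unC (x y : ι → ℝ) (r : Fin 3 → ι) (z : ι) : Prop :=
  (∀ k, z ≠ r k) ∧ ¬ inD x y (r 0) (r 1) z ∧ ¬ inD x y (r 0) (r 2) z ∧ ¬ inD x y (r 1) (r 2) z

/-- number of points in a diametral disk -/
noncomputable def mD (x y : ι → ℝ) (p q : ι) : ℕ := (univ.filter fun z => inD x y p q z).card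

/-- number of points outside the three disks -/
noncomputable def nU (x y : ι → ℝ) (r : Fin 3 → ι) : ℕ := (univ.filter fun z => unC x y r z).card

/-- a row: constant and coefficients of the three disks and of the uncovered points -/
structure Sp where
  a : ℕ
  b0 : ℕ
  b1 : ℕ
  b2 : ℕ
  bu : ℕ

/-- value of the function of a row at a type -/
def Sp.val (s : Sp) (t : ℕ) : ℕ :=
  (if dg2 t % 4 = 3 then s.b0 else 0) + (if dg1 t % 4 = 3 then s.b1 else 0) +
    (if dg0 t % 4 = 3 then s.b2 else 0) +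
      (if dg2 t % 4 ≠ 3 ∧ dg1 t % 4 ≠ 3 ∧ dg0 t % 4 ≠ 3 then s.bu else 0)

/-- the excess of a row at a triple -/
noncomputable def Sp.ex (s : Sp) (x y : ι → ℝ) (r : Fin 3 → ι) : ℤ :=
  (s.b0 : ℤ) * mD x y (r 0) (r 1) + s.b1 * mD x y (r 0) (r 2) + s.b2 * mD x y (r 1) (r 2) +
    s.bu * nU x y r - s.a * Fintype.card ι

theorem sum_ind (P : ι → Prop) (b : ℕ) :
    ∑ z, (if P z then (b : ℤ) else 0) = (b : ℤ) * ((univ.filter fun z => P z).card : ℕ) := by
  rw [← sum_filter, sum_const, nsmul_eq_mul]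
  ring

/-- **the row of the disks and of the uncovered points** -/
theorem row_spec (s : Sp) {r : Fin 3 → ι} {u v : ι} {g : ι → ℤ}
    (hg : ∀ z, Dz r u v z → g z ≤ s.val (tau x y (r 0) (r 1) (r 2) z)) :
    -(5 * (s.a : ℤ) + s.ex x y r) ≤ ∑ z, (if Dz r u v z then (s.a : ℤ) - g z else 0) := by
  have h1 := row_ge (r := r) (u := u) (v := v) (a := s.a) (Int.natCast_nonneg _)
    (f := fun z => (if inD x y (r 0) (r 1) z then (s.b0 : ℤ) else 0) +
      (if inD x y (r 0) (r 2) z then (s.b1 : ℤ) else 0) +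
      (if inD x y (r 1) (r 2) z then (s.b2 : ℤ) else 0) +
      (if unC x y r z then (s.bu : ℤ) else 0)) (g := g)
    (fun z => by
      have e : ∀ (P : Prop) (b : ℕ), 0 ≤ (if P then (b : ℤ) else 0) := by
        intro P b
        split_ifs
        · exact Int.natCast_nonneg _
        · exact le_refl _
      have e1 := e (inD x y (r 0) (r 1) z) s.b0
      have e2 := e (inD x y (r 0) (r 2) z) s.b1
      have e3 := e (inD x y (r 1) (r 2) z) s.b2
      have e4 := e (unC x y r z) s.bu
      linarith)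
    (fun z hz => by
      refine (hg z hz).trans (le_of_eq ?_)
      unfold Sp.val unC inD
      rw [dg0_tau, dg1_tau, dg2_tau]
      have hz' : ∀ k, z ≠ r k := hz.1
      push_cast
      by_cases a1 : st x y (r 0) (r 1) z % 4 = 3 <;> by_cases a2 : st x y (r 0) (r 2) z % 4 = 3 <;>
        by_cases a3 : st x y (r 1) (r 2) z % 4 = 3 <;> simp [a1, a2, a3, hz'])
  rw [sum_add_distrib, sum_add_distrib, sum_add_distrib, sum_ind, sum_ind, sum_ind, sum_ind] at h1
  unfold Sp.ex mD nU
  linarith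

end

end Pool.Agent.AKX
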