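import Pool.Agent.AKX.Fin
import Pool.Agent.AKX.RowB

set_option autoImplicit false

/-!
# A certificate for a triple with small surplus, when all acute triples have small weight
-/

namespace Pool.Agent.AKX

open Finset Classical Pool.Agent.AKG Pool.Agent.AKO Pool.Agent.AKU Pool.Agent.MP_0af329_co
  Pool.Agent.AK

/-- conditions on the rows at pairs: the row `0` is the margin, the row `1` belongs to the weight
of the roots, the other rows are rows of the disks and of the uncovered points -/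
structure OwnB (T : Tb) (tcs : List ℕ) (h m : ℕ) (sp : ℕ → Sp) (lm : ℕ → ℕ) : Prop where
  nj : 2 ≤ T.nj
  p0 : ∀ r < T.nt, T.fp 0 r = 1
  m0 : ∀ r < T.nt, T.fm 0 r = 0
  o0 : ∀ p < T.nt, ∀ q < T.nt, ∀ s < 512, T.vp p q s = true → m ≤ T.oo 0 p q s
  p1 : ∀ r < T.nt, T.fp 1 r = h
  m1 : ∀ r < T.nt, T.fm 1 r = T.wy r
  pj : ∀ j < T.nj, 2 ≤ j → ∀ r < T.nt, T.fp j r = (sp j).a
  mj : ∀ j < T.nj, 2 ≤ j → ∀ r < T.nt, T.fm j r ≤ (sp j).val (tcs.getD r 0)
  oj : ∀ j < T.nj, 2 ≤ j → ∀ p < T.nt, ∀ q < T.nt, ∀ s < 512, T.vp p q s = true →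
    T.oo j p q s ≤ lm j
  gm : ∀ r < T.nt, T.gm r = h

/-- the rows of one root -/
structure LinkEB (T : Tb) (tcs : List ℕ) (h : ℕ) : Prop where
  nk : T.nk ≤ 3
  lam : ∀ k : Fin 3, ∀ p < tcs.length, xst k (tcs.getD p 0) % 4 ≠ 0 → ∀ j, T.lam k p j = 0
  ev : ∀ k : Fin 3, ∀ p < tcs.length, ∀ q < tcs.length, ∀ s < 512,
    pairT (tcs.getD p 0) (tcs.getD q 0) s = true → xst k (tcs.getD p 0) % 4 = 0 →
    T.Ev k p (T.fl p q s) = (T.wv (xch k (tcs.getD p 0) (tcs.getD q 0) s) : ℤ) - h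

/-- the cost of a triple -/
noncomputable def cost {ι : Type*} [Fintype ι] (sp : ℕ → Sp) (lm : ℕ → ℕ) (nj : ℕ) (x y : ι → ℝ)
    (r : Fin 3 → ι) : ℤ :=
  ∑ j ∈ range nj, if 2 ≤ j then (lm j : ℤ) * max 0 ((sp j).ex x y r) else 0

/-- the entries are small -/
theorem lkB_lt (P k : ℕ) : lk P k < 18446744073709551616 := Nat.mod_lt _ (by norm_num)

theorem oo_lt (T : Tb) (j p q s : ℕ) : T.oo j p q s ≤ 18446744073709551616 := (lkB_lt _ _).le
theorem mm_lt (T : Tb) (k p q s : ℕ) : T.mm k p q s ≤ 18446744073709551616 := (lkB_lt _ _).le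

variable {T : Tb} {tcs : List ℕ} {h m : ℕ} {sp : ℕ → Sp} {lm : ℕ → ℕ}

/-- **The rows at pairs** for a triple with small cost -/
theorem pair_rowsB (hO : OwnB T tcs h m sp lm) (hL : LinkT T tcs) (cc c1 : ℕ) : ∃ s1 : ℕ,
    ∀ (ι : Type) [Fintype ι] (x y : ι → ℝ), GN x y → ∀ r : Fin 3 → ι,
      Function.Injective r → st x y (r 0) (r 1) (r 2) = 4 →
      AllA x y (fun K => (T.wv K : ℤ)) h cc →
      cost sp lm T.nj x y r ≤ m * Fintype.card ι + c1 →
      ∀ u ∈ Free r, ∀ v ∈ Free r, u ≠ v →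
        -(s1 : ℤ) ≤ ∑ z, pS r (tixA tcs x y (r 0) (r 1) (r 2)) (cixA x y (r 0) (r 1) (r 2))
          (st x y) T u v z := by
  set L : ℕ := 18446744073709551616 with hLdef
  set c0 : ℕ := 5 + (5 * h + cc) + ∑ j ∈ range T.nj, 5 * (sp j).a with hc0
  refine ⟨T.nj * (L * c0) + c1 + 3 * (L * (5 * h + cc)), ?_⟩
  intro ι _ x y hG r hi h4 hA hcost u hu v hv huv
  set w : ℕ → ℤ := fun K => (T.wv K : ℤ) with hw
  set τ := tixA tcs x y (r 0) (r 1) (r 2) with hτ
  set c := cixA x y (r 0) (r 1) (r 2) with hc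
  have hCf := cfX hG hL hi h4
  rw [← hτ, ← hc] at hCf
  have w0 : ∀ k, 0 ≤ w k := fun k => Int.natCast_nonneg _
  have tu := hCf.ty u hu
  have tv := hCf.ty v hv
  have tc := hCf.lt u hu v hv huv
  have tvp := hCf.vp u hu v hv huv
  -- the weights of the types
  have hcode : ∀ z ∈ Free r, tcs.getD (τ z) 0 = tau x y (r 0) (r 1) (r 2) z := fun z hz =>
    getD_tixA hG hL.types hi h4 hz 0
  have hwy : ∀ z ∈ Free r, (T.wy (τ z) : ℤ) = w (code x y (r 0) (r 1) (r 2) z) := by
    intro z hz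
    have h2 := hL.wy _ (tixA_lt hG hL.types hi h4 hz)
    rw [← hτ, hcode z hz] at h2
    rw [h2, hw, code_tau h4]
  have hm := hL.m2 (τ u) (by rw [← hL.nt]; exact tu) (τ v) (by rw [← hL.nt]; exact tv) _ tc tvp
  have d0 : dg0 (c u v) = st x y (r 0) u v := dg0_cixA ..
  have d1 : dg1 (c u v) = st x y (r 1) u v := dg1_cixA ..
  have d2 : dg2 (c u v) = st x y (r 2) u v := dg2_cixA ..
  rw [d0, d1, d2] at hm
  -- the sum
  have hsplit : ∑ z, pS r τ c (st x y) T u v z =
      ∑ z, (if Dz r u v z then (∑ j ∈ range T.nj, ((T.oo j (τ u) (τ v) (c u v) : ℕ) : ℤ) *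
          T.FJ j (τ z)) +
        (((T.mm 0 (τ u) (τ v) (c u v) : ℕ) : ℤ) * ((h : ℤ) - w (code x y (r 0) u v z)) +
        ((T.mm 1 (τ u) (τ v) (c u v) : ℕ) : ℤ) * ((h : ℤ) - w (code x y (r 1) u v z)) +
          ((T.mm 2 (τ u) (τ v) (c u v) : ℕ) : ℤ) * ((h : ℤ) - w (code x y (r 2) u v z))) else 0) := by
    refine sum_congr rfl fun z _ => ?_
    by_cases hz : Dz r u v z
    · have hz' : z ∈ Free r ∧ z ≠ u ∧ z ≠ v := hz
      unfold pS
      rw [if_pos hz', if_pos hz]
      unfold Tb.PF Tb.PX Tb.PP Tb.GO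
      obtain ⟨k0, k1, k2⟩ := code_cix (x := x) (y := y) (r 0) (r 1) (r 2) u v z
      rw [hc, k0, k1, k2, hO.gm _ (hCf.ty z hz.1)]
    · have hz' : ¬ (z ∈ Free r ∧ z ≠ u ∧ z ≠ v) := hz
      unfold pS
      rw [if_neg hz', if_neg hz]
  rw [hsplit]
  set n : ℤ := (Fintype.card ι : ℤ) with hn
  have hn0 : 0 ≤ n := Int.natCast_nonneg _
  set E : ℕ → ℤ := fun j => if j = 0 then -n else if j = 1 then 0 else
    max 0 ((sp j).ex x y r) with hE
  set lm' : ℕ → ℤ := fun j => if j = 0 then (m : ℤ) else (lm j : ℤ) with hlm'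
  have hc05 : (5 : ℤ) + (5 * h + cc) ≤ c0 := by
    have : 5 + (5 * h + cc) ≤ c0 := by rw [hc0]; exact Nat.le_add_right _ _
    exact_mod_cast this
  have hh0 : (0 : ℤ) ≤ h := Int.natCast_nonneg _
  have hcc0 : (0 : ℤ) ≤ cc := Int.natCast_nonneg _
  have key := pair_sumB (h := (h : ℤ)) (cc := (cc : ℤ)) hA w0 hh0 hcc0 hu hv huv
    (nj := T.nj) (o := fun j => T.oo j (τ u) (τ v) (c u v))
    (mm := fun k => T.mm k (τ u) (τ v) (c u v)) (F := fun j z => T.FJ j (τ z)) (c0 := (c0 : ℤ))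
    (E := E) (lm := lm') (L := L)
    (fun k hk => by
      by_contra h0
      revert hk h0
      fin_cases k
      · exact fun hk h0 => hk (hm.1 h0)
      · exact fun hk h0 => hk (hm.2.1 h0)
      · exact fun hk h0 => hk (hm.2.2 h0))
    (fun j hj => by
      rcases Nat.lt_or_ge j 2 with hj2 | hj2
      · rcases Nat.eq_zero_or_pos j with h0 | h0
        · subst h0
          have e1 : ∑ z, (if Dz r u v z then T.FJ 0 (τ z) else 0) =
              ∑ z, (if Dz r u v z then (1 : ℤ) else 0) := by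
            refine sum_congr rfl fun z _ => ?_
            by_cases hz : Dz r u v z
            · rw [if_pos hz, if_pos hz]
              unfold Tb.FJ
              rw [hO.p0 _ (hCf.ty z hz.1), hO.m0 _ (hCf.ty z hz.1)]
              norm_num
            · rw [if_neg hz, if_neg hz]
          rw [e1]
          have e2 := sum_Dz r u v
          have e3 : E 0 = -n := by rw [hE]; rfl
          rw [e3]
          linarith
        · have h1 : j = 1 := by omega
          subst h1
          have e1 : ∑ z, (if Dz r u v z then T.FJ 1 (τ z) else 0) =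
              ∑ z, (if Dz r u v z then (h : ℤ) - w (code x y (r 0) (r 1) (r 2) z) else 0) := by
            refine sum_congr rfl fun z _ => ?_
            by_cases hz : Dz r u v z
            · rw [if_pos hz, if_pos hz]
              unfold Tb.FJ
              rw [hO.p1 _ (hCf.ty z hz.1), hO.m1 _ (hCf.ty z hz.1), hwy z hz.1]
            · rw [if_neg hz, if_neg hz]
          rw [e1]
          have hac : AcT x y r := ⟨hi, by rw [h4]⟩
          have e2 := row_acute (r := r) (u := u) (v := v) hA w0 hh0 hac (fun z hz => hz.1)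
          have e3 : E 1 = 0 := by rw [hE]; rfl
          rw [e3]
          linarith
      · have e1 : ∑ z, (if Dz r u v z then T.FJ j (τ z) else 0) =
            ∑ z, (if Dz r u v z then (((sp j).a : ℕ) : ℤ) - T.fm j (τ z) else 0) := by
          refine sum_congr rfl fun z _ => ?_
          by_cases hz : Dz r u v z
          · rw [if_pos hz, if_pos hz]
            unfold Tb.FJ
            rw [hO.pj j hj hj2 _ (hCf.ty z hz.1)]
          · rw [if_neg hz, if_neg hz]
        rw [e1]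
        have e2 := row_spec (x := x) (y := y) (sp j) (r := r) (u := u) (v := v)
          (g := fun z => ((T.fm j (τ z) : ℕ) : ℤ)) (fun z hz => by
            have := hO.mj j hj hj2 _ (hCf.ty z hz.1)
            rw [hcode z hz.1] at this
            exact_mod_cast this)
        have e3 : E j = max 0 ((sp j).ex x y r) := by
          rw [hE]
          dsimp only
          rw [if_neg (by omega), if_neg (by omega)]
        have e4 : (5 : ℤ) * (sp j).a ≤ c0 := by
          have h5 := single_le_sum (f := fun j => 5 * (sp j).a) (fun _ _ => Nat.zero_le _)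
            (mem_range.2 hj)
          have : 5 * (sp j).a ≤ c0 := by rw [hc0]; omega
          exact_mod_cast this
        have e5 := le_max_right 0 ((sp j).ex x y r)
        rw [e3]
        linarith)
    (Int.natCast_nonneg _) (fun j _ => oo_lt T j _ _ _) (fun k => mm_lt T k _ _ _)
    (fun j hj => by
      rcases Nat.lt_or_ge j 2 with hj2 | hj2
      · rcases Nat.eq_zero_or_pos j with h0 | h0
        · subst h0
          have e3 : E 0 = -n := by rw [hE]; rfl
          have e4 : lm' 0 = m := by rw [hlm']; rfl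
          rw [e3, e4]
          have e5 : (m : ℤ) ≤ ((T.oo 0 (τ u) (τ v) (c u v) : ℕ) : ℤ) := by
            exact_mod_cast hO.o0 _ tu _ tv _ tc tvp
          have e6 := mul_le_mul_of_nonneg_right e5 hn0
          linarith
        · have h1 : j = 1 := by omega
          subst h1
          have e3 : E 1 = 0 := by rw [hE]; rfl
          rw [e3, mul_zero, mul_zero]
      · have e3 : E j = max 0 ((sp j).ex x y r) := by
          rw [hE]
          dsimp only
          rw [if_neg (by omega), if_neg (by omega)]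
        have e4 : lm' j = lm j := by
          rw [hlm']
          dsimp only
          rw [if_neg (by omega)]
        rw [e3, e4]
        have e5 : ((T.oo j (τ u) (τ v) (c u v) : ℕ) : ℤ) ≤ (lm j : ℤ) := by
          exact_mod_cast hO.oj j hj hj2 _ tu _ tv _ tc tvp
        exact mul_le_mul_of_nonneg_right e5 (le_max_left _ _))
  have hsum : ∑ j ∈ range T.nj, lm' j * E j ≤ c1 := by
    have e1 : ∀ j ∈ range T.nj, lm' j * E j = (if j = 0 then -((m : ℤ) * n) else 0) +
        (if 2 ≤ j then (lm j : ℤ) * max 0 ((sp j).ex x y r) else 0) := by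
      intro j _
      rcases Nat.lt_or_ge j 2 with hj2 | hj2
      · rcases Nat.eq_zero_or_pos j with h0 | h0
        · subst h0
          rw [hE, hlm']
          simp
        · have h1 : j = 1 := by omega
          subst h1
          rw [hE, hlm']
          simp
      · rw [hE, hlm']
        dsimp only
        rw [if_neg (by omega), if_neg (by omega), if_neg (by omega), if_neg (by omega), if_pos hj2,
          zero_add]
    rw [sum_congr rfl e1, sum_add_distrib, sum_ite_eq' (range T.nj) 0, if_pos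
      (mem_range.2 (by have := hO.nj; omega))]
    unfold cost at hcost
    linarith
  refine le_trans ?_ key
  push_cast
  linarith

/-- **The rows of one root** -/
theorem one_rowsB (hL : LinkT T tcs) (hE : LinkEB T tcs h) {ι : Type*} [Fintype ι] {x y : ι → ℝ}
    (hG : GN x y) {cc : ℕ} (hA : AllA x y (fun K => (T.wv K : ℤ)) h cc) {r : Fin 3 → ι}
    (hi : Function.Injective r) (h4 : st x y (r 0) (r 1) (r 2) = 4) :
    ∀ u ∈ Free r, ∀ k < T.nk, (∃ j, T.lam k (tixA tcs x y (r 0) (r 1) (r 2) u) j ≠ 0) →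
      ∑ v, exS r (tixA tcs x y (r 0) (r 1) (r 2)) (cixA x y (r 0) (r 1) (r 2)) T k u v ≤
        ((4 * h + cc : ℕ) : ℤ) := by
  intro u hu k hk hne
  have hk3 : k < 3 := lt_of_lt_of_le hk hE.nk
  obtain ⟨j, hj⟩ := hne
  have e1 : tcs.getD (tixA tcs x y (r 0) (r 1) (r 2) u) 0 =
      tau x y (r 0) (r 1) (r 2) u := getD_tixA hG hL.types hi h4 hu 0
  have hp := tixA_lt hG hL.types hi h4 hu
  have hx : xst ⟨k, hk3⟩ (tau x y (r 0) (r 1) (r 2) u) % 4 = 0 := by
    by_contra h0
    rw [← e1] at h0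
    exact hj (hE.lam ⟨k, hk3⟩ _ hp h0 j)
  have h1 := exchB hG hA (fun k => Int.natCast_nonneg _) (Int.natCast_nonneg _) hi hu ⟨k, hk3⟩ hx
  push_cast
  refine le_trans (le_of_eq ?_) h1
  refine sum_congr rfl fun v _ => ?_
  unfold exS fg
  by_cases g : (∀ j, v ≠ r j) ∧ u ≠ v
  · have g' : v ∈ Free r ∧ v ≠ u := ⟨g.1, g.2.symm⟩
    rw [if_pos g, if_pos g']
    have e2 : tcs.getD (tixA tcs x y (r 0) (r 1) (r 2) v) 0 =
        tau x y (r 0) (r 1) (r 2) v := getD_tixA hG hL.types hi h4 g.1 0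
    have hq := tixA_lt hG hL.types hi h4 g.1
    have h2 := hE.ev ⟨k, hk3⟩ _ hp _ hq
      (cixA x y (r 0) (r 1) (r 2) u v) (cixA_lt ..)
      (by rw [e1, e2]; exact pairT_ok hG hi hu g.1 g.2) (by rw [e1]; exact hx)
    rw [e1, e2] at h2
    exact h2
  · have g' : ¬ (v ∈ Free r ∧ v ≠ u) := fun h => g ⟨h.1, h.2.symm⟩
    rw [if_neg g, if_neg g']

/-- **A certificate decides the sets in which all acute triples have small weight**, if there is a
triple of small cost -/
theorem decB {cc c1 : ℕ} (hN : ∀ s1, NB T (4 * h + cc) s1) (hO : OwnB T tcs h m sp lm)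
    (hL : LinkT T tcs) (hE : LinkEB T tcs h)
    (hT : 3 * dens (Set.Ici (Real.pi / 2)) ≤ 4 / 9 → ∃ η0 : ℝ, 0 < η0 ∧ ∃ n0 : ℕ,
      ∀ (S : Finset Pt) (η : ℝ), Near2 S η → 0 < η → η ≤ η0 → n0 ≤ Fintype.card S →
        ∃ r : Fin 3 → S, Function.Injective r ∧ st (X S) (Y S) (r 0) (r 1) (r 2) = 4 ∧
          cost sp lm T.nj (X S) (Y S) r ≤ m * Fintype.card S + c1) :
    Dec fun S => AllA (X S) (Y S) (fun K => (T.wv K : ℤ)) h cc := by
  by_cases hlt : 3 * dens (Set.Ici (Real.pi / 2)) ≤ 4 / 9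
  · obtain ⟨η0, h0, n0, hex⟩ := hT hlt
    obtain ⟨s1, hp⟩ := pair_rowsB hO hL cc c1
    obtain ⟨M, C', hM, hC', hb⟩ := hN s1
    refine dec_small h0 ⟨M, C', n0, hM, hC', ?_⟩
    intro S η hη hη0 hS hn _ hA
    obtain ⟨r, hi, h4, hcost⟩ := hex S η hS hη hη0 hn
    have hg := gn_of hS.gen hS.nr
    refine hb S η hη.le hS r (tixA tcs (X S) (Y S) (r 0) (r 1) (r 2))
      (cixA (X S) (Y S) (r 0) (r 1) (r 2)) (st (X S) (Y S)) (cfX hg hL hi h4) ?_ ?_ ?_ ?_ hlt
    · intro u _ v _ z _ h1 h2 h3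
      exact Nf_na h1 h2 h3
    · intro u hu v hv huv
      rw [dg0_cixA, dg1_cixA, dg2_cixA]
      exact ⟨Nf_na (hu 0).symm huv (hv 0).symm, Nf_na (hu 1).symm huv (hv 1).symm,
        Nf_na (hu 2).symm huv (hv 2).symm⟩
    · intro u hu k hk hne
      exact one_rowsB hL hE hg hA hi h4 u hu k hk hne
    · intro u hu v hv huv
      exact hp S (X S) (Y S) hg r hi h4 hA hcost u hu v hv huv
  · exact ⟨0, 0, 0, le_refl _, le_refl _, fun S η _ _ _ _ e _ => absurd e hlt⟩

/-- the form used with the strips -/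
theorem decB' {w : ℕ → ℕ} {e h0 : ℕ} (he : 0 < e) (hh : h0 ≤ e * h)
    (hd : Dec fun S => AllA (X S) (Y S) (fun K => (w K : ℤ)) h 0) :
    Dec fun S => ∀ r : Fin 3 → S, AcT (X S) (Y S) r →
      e * Ph (X S) (Y S) (fun K => (w K : ℤ)) r ≤ (h0 : ℤ) * Fintype.card S := by
  refine dec_mono ?_ hd
  intro S hS r hr
  have h1 := hS r hr
  have he' : (0 : ℤ) < e := by exact_mod_cast he
  have hn : (0 : ℤ) ≤ (Fintype.card S : ℤ) := Int.natCast_nonneg _
  have h2 : (h0 : ℤ) * Fintype.card S ≤ (e * h : ℕ) * Fintype.card S :=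
    mul_le_mul_of_nonneg_right (by exact_mod_cast hh) hn
  have h3 : (e : ℤ) * Ph (X S) (Y S) (fun K => (w K : ℤ)) r ≤
      e * ((h : ℤ) * Fintype.card S + 0) := le_trans h1 (by push_cast at h2; linarith)
  exact le_of_mul_le_mul_left h3 he'

end Pool.Agent.AKX
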