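import Pool.Agent.AKX.Rec
import Pool.Agent.AKU.PsdK

set_option autoImplicit false

/-!
# Positive semidefinite integer matrices: packed rows
-/

namespace Pool.Agent.AKX

open Finset Pool.Agent.AKU

/-! ### quadratic forms -/

/-- rows that are integer combinations of the first `m` rows -/
theorem pull2 (n m : ℕ) (hmn : m ≤ n) (Q v : ℕ → ℕ → ℤ) (hsym : ∀ i < n, ∀ j < n, Q i j = Q j i)
    (hrow : ∀ i < n, ∀ j < n, Q i j = ∑ a ∈ range m, v i a * Q a j)
    (hX : ∀ z : ℕ → ℤ, 0 ≤ ∑ a ∈ range m, ∑ b ∈ range m, Q a b * (z a * z b)) (z : ℕ → ℤ) :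
    0 ≤ ∑ i ∈ range n, ∑ j ∈ range n, Q i j * (z i * z j) := by
  have hM : ∀ i < n, ∀ j < n, Q i j = ∑ a ∈ range m, ∑ b ∈ range m, Q a b * (v i a * v j b) := by
    intro i hi j hj
    rw [hrow i hi j hj]
    refine sum_congr rfl fun a ha => ?_
    have ha' : a < n := lt_of_lt_of_le (mem_range.1 ha) hmn
    rw [hsym _ ha' j hj, hrow j hj _ ha', mul_sum]
    refine sum_congr rfl fun b hb => ?_
    have hb' : b < n := lt_of_lt_of_le (mem_range.1 hb) hmn
    rw [hsym _ hb' _ ha']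
    ring
  refine le_trans (hX fun a => ∑ i ∈ range n, v i a * z i) (le_of_eq ?_)
  have e1 : ∀ a b, Q a b * ((∑ i ∈ range n, v i a * z i) * (∑ j ∈ range n, v j b * z j)) =
      ∑ i ∈ range n, ∑ j ∈ range n, Q a b * ((v i a * z i) * (v j b * z j)) := by
    intro a b
    rw [sum_mul_sum, mul_sum]
    exact sum_congr rfl fun i _ => by rw [mul_sum]
  simp only [e1]
  have e2 : ∀ i ∈ range n, ∀ j ∈ range n, Q i j * (z i * z j) =
      ∑ a ∈ range m, ∑ b ∈ range m, Q a b * ((v i a * z i) * (v j b * z j)) := by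
    intro i hi j hj
    rw [hM i (mem_range.1 hi) j (mem_range.1 hj), sum_mul]
    refine sum_congr rfl fun a _ => ?_
    rw [sum_mul]
    exact sum_congr rfl fun b _ => by ring
  rw [sum_congr rfl fun i hi => sum_congr rfl fun j hj => e2 i hi j hj]
  calc ∑ a ∈ range m, ∑ b ∈ range m, ∑ i ∈ range n, ∑ j ∈ range n,
        Q a b * ((v i a * z i) * (v j b * z j))
      = ∑ a ∈ range m, ∑ i ∈ range n, ∑ b ∈ range m, ∑ j ∈ range n,
        Q a b * ((v i a * z i) * (v j b * z j)) := sum_congr rfl fun a _ => sum_comm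
    _ = ∑ i ∈ range n, ∑ a ∈ range m, ∑ b ∈ range m, ∑ j ∈ range n,
        Q a b * ((v i a * z i) * (v j b * z j)) := sum_comm
    _ = ∑ i ∈ range n, ∑ a ∈ range m, ∑ j ∈ range n, ∑ b ∈ range m,
        Q a b * ((v i a * z i) * (v j b * z j)) :=
        sum_congr rfl fun i _ => sum_congr rfl fun a _ => sum_comm
    _ = _ := sum_congr rfl fun i _ => sum_comm

/-- from vectors to functions -/
theorem psd_fun {ι : Type*} [Fintype ι] (n : ℕ) (Q : ℕ → ℕ → ℤ)
    (h : ∀ z : ℕ → ℤ, 0 ≤ ∑ i ∈ range n, ∑ j ∈ range n, Q i j * (z i * z j)) (f : ι → ℕ) :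
    0 ≤ ∑ y, ∑ y', (if f y < n ∧ f y' < n then Q (f y) (f y') else 0) := by
  classical
  have h1 := h fun i => ∑ y, if f y = i then (1 : ℤ) else 0
  refine le_trans h1 (le_of_eq ?_)
  have e1 : ∀ i j, Q i j * ((∑ y, if f y = i then (1 : ℤ) else 0) *
      (∑ y, if f y = j then (1 : ℤ) else 0)) =
      ∑ y, ∑ y', if f y = i then (if f y' = j then Q i j else 0) else 0 := by
    intro i j
    rw [sum_mul_sum, mul_sum]
    refine sum_congr rfl fun y _ => ?_
    rw [mul_sum]
    refine sum_congr rfl fun y' _ => ?_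
    split_ifs <;> ring
  simp only [e1]
  calc ∑ i ∈ range n, ∑ j ∈ range n, ∑ y, ∑ y', (if f y = i then (if f y' = j then Q i j else 0)
        else 0)
      = ∑ i ∈ range n, ∑ y, ∑ j ∈ range n, ∑ y', (if f y = i then (if f y' = j then Q i j else 0)
        else 0) := sum_congr rfl fun i _ => sum_comm
    _ = ∑ y, ∑ i ∈ range n, ∑ j ∈ range n, ∑ y', (if f y = i then (if f y' = j then Q i j else 0)
        else 0) := sum_comm
    _ = ∑ y, ∑ i ∈ range n, ∑ y', ∑ j ∈ range n, (if f y = i then (if f y' = j then Q i j else 0)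
        else 0) := sum_congr rfl fun y _ => sum_congr rfl fun i _ => sum_comm
    _ = ∑ y, ∑ y', ∑ i ∈ range n, ∑ j ∈ range n, (if f y = i then (if f y' = j then Q i j else 0)
        else 0) := sum_congr rfl fun y _ => sum_comm
    _ = _ := by
        refine sum_congr rfl fun y _ => sum_congr rfl fun y' _ => ?_
        by_cases h2 : f y < n
        · by_cases h3 : f y' < n
          · rw [if_pos ⟨h2, h3⟩, sum_eq_single_of_mem (f y) (mem_range.2 h2),
              sum_eq_single_of_mem (f y') (mem_range.2 h3)]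
            · simp
            · intro j _ hj
              rw [if_pos rfl, if_neg (Ne.symm hj)]
            · intro i _ hi
              refine sum_eq_zero fun j _ => ?_
              rw [if_neg (Ne.symm hi)]
          · rw [if_neg (fun h => h3 h.2)]
            refine sum_eq_zero fun i _ => sum_eq_zero fun j hj => ?_
            have hj' := mem_range.1 hj
            split_ifs with a1 a2
            · omega
            · rfl
            · rfl
        · rw [if_neg (fun h => h2 h.1)]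
          refine sum_eq_zero fun i hi => sum_eq_zero fun j _ => ?_
          have hi' := mem_range.1 hi
          split_ifs with a1 a2
          · omega
          · rfl
          · rfl

/-- `N X = s L Lᵀ + R` with `R` diagonally dominant -/
theorem chol2 (n K : ℕ) (X : ℕ → ℕ → ℤ) (L : ℕ → ℕ → ℤ) (N s : ℤ) (hN : 0 < N) (h0 : 0 ≤ s)
    (hs : ∀ a < n, ∀ b < n, X a b = X b a)
    (hd : ∀ a < n, ∑ b ∈ range n, |N * X a b - s * ∑ k ∈ range K, L a k * L b k| ≤
      2 * (N * X a a - s * ∑ k ∈ range K, L a k * L a k)) (z : ℕ → ℤ) :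
    0 ≤ ∑ a ∈ range n, ∑ b ∈ range n, X a b * (z a * z b) := by
  have h1 := dom_nonneg n (fun a b => N * X a b - s * ∑ k ∈ range K, L a k * L b k) (by
    intro a ha b hb
    beta_reduce
    rw [hs a ha b hb]
    congr 2
    exact sum_congr rfl fun k _ => mul_comm _ _) hd z
  have h2 := mul_nonneg h0 (gram_nonneg n K L z)
  have h3 : N * ∑ a ∈ range n, ∑ b ∈ range n, X a b * (z a * z b) =
      ∑ a ∈ range n, ∑ b ∈ range n,
        (N * X a b - s * ∑ k ∈ range K, L a k * L b k) * (z a * z b) +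
      s * ∑ a ∈ range n, ∑ b ∈ range n, (∑ k ∈ range K, L a k * L b k) * (z a * z b) := by
    rw [mul_sum, mul_sum, ← sum_add_distrib]
    refine sum_congr rfl fun a _ => ?_
    rw [mul_sum, mul_sum, ← sum_add_distrib]
    refine sum_congr rfl fun b _ => ?_
    ring
  have h4 : 0 ≤ N * ∑ a ∈ range n, ∑ b ∈ range n, X a b * (z a * z b) := by
    rw [h3]; exact add_nonneg h1 h2
  exact nonneg_of_mul_nonneg_right h4 hN

/-! ### digits -/

theorem digs_lt {B : ℕ} (hB : 1 ≤ B) (m : ℕ) (x : ℕ → ℕ) (hx : ∀ b < m, x b < B) :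
    ∑ k ∈ range m, x k * B ^ k < B ^ m := by
  induction m with
  | zero => simp
  | succ m ih =>
    rw [sum_range_succ]
    have h1 := ih fun b hb => hx b (by omega)
    have h2 := hx m (by omega)
    have h3 : (x m + 1) * B ^ m ≤ B * B ^ m := Nat.mul_le_mul_right _ h2
    rw [pow_succ]
    nlinarith

/-- the digits of a sum with small coefficients -/
theorem digs {B : ℕ} (hB : 1 ≤ B) (m : ℕ) (x : ℕ → ℕ) (hx : ∀ b < m, x b < B) (b : ℕ)
    (hb : b < m) : (∑ k ∈ range m, x k * B ^ k) / B ^ b % B = x b := by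
  obtain ⟨c, rfl⟩ : ∃ c, m = b + (1 + c) := ⟨m - b - 1, by omega⟩
  rw [sum_range_add, sum_range_add]
  have h1 := digs_lt hB b x (fun k hk => hx k (by omega))
  have h2 := hx b (by omega)
  have hBb : 0 < B ^ b := Nat.pow_pos (by omega)
  have e : ∑ k ∈ range b, x k * B ^ k + (∑ k ∈ range 1, x (b + k) * B ^ (b + k) +
      ∑ k ∈ range c, x (b + (1 + k)) * B ^ (b + (1 + k))) =
      ∑ k ∈ range b, x k * B ^ k + B ^ b * (x b + B * ∑ k ∈ range c, x (b + (1 + k)) * B ^ k) := by
    rw [sum_range_one, add_zero, mul_add, mul_sum, mul_sum]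
    congr 1
    congr 1
    · ring
    · refine sum_congr rfl fun k _ => ?_
      rw [pow_add, pow_add, pow_one]
      ring
  rw [e, Nat.add_mul_div_left _ _ hBb, Nat.div_eq_of_lt h1, zero_add, Nat.add_mul_mod_self_left,
    Nat.mod_eq_of_lt h2]

theorem digs_inj {B : ℕ} (hB : 1 ≤ B) (m : ℕ) (x y : ℕ → ℕ) (hx : ∀ b < m, x b < B)
    (hy : ∀ b < m, y b < B) (h : ∑ k ∈ range m, x k * B ^ k = ∑ k ∈ range m, y k * B ^ k) (b : ℕ)
    (hb : b < m) : x b = y b := by
  rw [← digs hB m x hx b hb, h, digs hB m y hy b hb]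

/-- the base `2 ^ 192` -/
def BB : Nat := 6277101735386680763835789423207666416102355444464034512896

/-- `2 ^ 190` -/
def DD : Nat := 1569275433846670190958947355801916604025588861116008628224

theorem BB_eq : BB = 2 ^ 192 := by norm_num [BB]

theorem BB_pos : 1 ≤ BB := by decide

/-- digit with `u` bits -/
def dgu (u P k : Nat) : Nat := Nat.mod (Nat.shiftRight P (Nat.mul u k)) (Nat.shiftLeft 1 u)

theorem dgu_lt (u P k : Nat) : dgu u P k < 2 ^ u := by
  have h : dgu u P k = (P >>> (u * k)) % (1 <<< u) := rfl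
  rw [h, Nat.shiftLeft_eq, one_mul]
  exact Nat.mod_lt _ (by positivity)

theorem lb_eq (sb P k : Nat) : lb sb (Nat.shiftLeft 1 sb) P k = dgu sb P k := rfl

theorem lk_eq (P k : Nat) : lk P k = dgu 64 P k := by
  have h : lk P k = (P >>> (64 * k)) % 18446744073709551616 := rfl
  have h' : dgu 64 P k = (P >>> (64 * k)) % (1 <<< 64) := rfl
  rw [h, h', Nat.shiftLeft_eq]

theorem lk_lt (P k : Nat) : lk P k < 2 ^ 64 := by
  rw [lk_eq]
  exact dgu_lt ..

/-- digit in base `BB` -/
def dB (X k : Nat) : Nat :=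
  Nat.mod (Nat.shiftRight X (Nat.mul 192 k)) 6277101735386680763835789423207666416102355444464034512896

theorem dB_eq (X k : Nat) : dB X k = X / BB ^ k % BB := by
  have h : dB X k = (X >>> (192 * k)) % BB := rfl
  rw [h, Nat.shiftRight_eq_div_pow, BB_eq, ← pow_mul]

/-- the digits spread to base `BB`, slow form -/
noncomputable def sprS (u K P : Nat) : Nat :=
  Nat.rec (motive := fun _ => Nat) 0
    (fun k ih => Nat.add ih (Nat.shiftLeft (dgu u P k) (Nat.mul 192 k))) K

theorem sprS_eq (u K P : Nat) : sprS u K P = ∑ k ∈ range K, dgu u P k * BB ^ k := by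
  induction K with
  | zero => simp [sprS]
  | succ K ih =>
    have e : sprS u (K + 1) P = sprS u K P + (dgu u P K) <<< (192 * K) := rfl
    rw [e, ih, sum_range_succ, Nat.shiftLeft_eq, pow_mul, ← BB_eq]

/-- `n` copies of `m` at distance `w` -/
noncomputable def cps (w m n : Nat) : Nat :=
  Nat.rec (motive := fun _ => Nat) 0 (fun k ih => Nat.add ih (Nat.shiftLeft m (Nat.mul w k))) n

theorem cps_succ (w m n : Nat) : cps w m (n + 1) = cps w m n + 2 ^ (w * n) * m := by
  have e : cps w m (n + 1) = cps w m n + m <<< (w * n) := rfl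
  rw [e, Nat.shiftLeft_eq, mul_comm m]

theorem cps_lt {w m : Nat} (h : m < 2 ^ w) (n : Nat) : cps w m n < 2 ^ (w * n) := by
  induction n with
  | zero => simp [cps]
  | succ n ih =>
    rw [cps_succ, Nat.mul_succ, pow_add]
    have : 2 ^ (w * n) * m + 2 ^ (w * n) ≤ 2 ^ (w * n) * 2 ^ w := by
      rw [← Nat.mul_succ]
      exact Nat.mul_le_mul_left _ h
    omega

theorem land_add {k A M : Nat} (hA : A < 2 ^ k) (hM : M < 2 ^ k) (x m : Nat) :
    (A + 2 ^ k * x) &&& (M + 2 ^ k * m) = (A &&& M) + 2 ^ k * (x &&& m) := by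
  rw [add_comm A, add_comm M, add_comm (A &&& M)]
  apply Nat.eq_of_testBit_eq
  intro i
  rw [Nat.testBit_and, Nat.testBit_two_pow_mul_add _ hA, Nat.testBit_two_pow_mul_add _ hM,
    Nat.testBit_two_pow_mul_add _ (Nat.and_lt_two_pow _ hM)]
  split
  · rw [Nat.testBit_and]
  · rw [Nat.testBit_and]

/-- one step: blocks of `2 v` bits at distance `2 w` become blocks of `v` bits at distance `w` -/
noncomputable def stg (v w n X : Nat) : Nat :=
  Nat.add (Nat.land X (cps (Nat.mul 2 w) (Nat.sub (Nat.shiftLeft 1 v) 1) n))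
    (Nat.shiftLeft (Nat.land X (cps (Nat.mul 2 w)
      (Nat.shiftLeft (Nat.sub (Nat.shiftLeft 1 v) 1) v) n)) (Nat.sub w v))

theorem sum_dig_lt {w : Nat} {g : Nat → Nat} (hg : ∀ b, g b < 2 ^ w) (n : Nat) :
    ∑ b ∈ range n, 2 ^ (w * b) * g b < 2 ^ (w * n) := by
  induction n with
  | zero => simp
  | succ n ih =>
    rw [sum_range_succ, Nat.mul_succ, pow_add]
    have : 2 ^ (w * n) * g n + 2 ^ (w * n) ≤ 2 ^ (w * n) * 2 ^ w := by
      rw [← Nat.mul_succ]
      exact Nat.mul_le_mul_left _ (hg n)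
    omega

theorem land_lo (x v : Nat) : x &&& (2 ^ v - 1) = x % 2 ^ v := Nat.and_two_pow_sub_one_eq_mod x v

theorem land_hi {x v : Nat} (hx : x < 2 ^ (2 * v)) :
    x &&& ((2 ^ v - 1) <<< v) = 2 ^ v * (x / 2 ^ v) := by
  have h : x = x % 2 ^ v + 2 ^ v * (x / 2 ^ v) := (Nat.mod_add_div x (2 ^ v)).symm
  have h1 : (2 ^ v - 1) <<< v = 0 + 2 ^ v * (2 ^ v - 1) := by
    rw [Nat.shiftLeft_eq, zero_add, mul_comm]
  have hp : 0 < 2 ^ v := by positivity
  conv_lhs => rw [h]
  rw [h1, land_add (Nat.mod_lt _ hp) hp, Nat.and_zero, zero_add, land_lo, Nat.mod_eq_of_lt]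
  rw [Nat.div_lt_iff_lt_mul hp, ← pow_add, ← two_mul]
  exact hx

theorem stg_eq {v w : Nat} (hvw : v ≤ w) {g : Nat → Nat} (hg : ∀ b, g b < 2 ^ (2 * v)) (n : Nat) :
    stg v w n (∑ b ∈ range n, 2 ^ (2 * w * b) * g b) =
      ∑ b ∈ range n, 2 ^ (2 * w * b) * (g b % 2 ^ v + 2 ^ w * (g b / 2 ^ v)) := by
  have e : ∀ X, stg v w n X = (X &&& cps (2 * w) (1 <<< v - 1) n) +
    (X &&& cps (2 * w) ((1 <<< v - 1) <<< v) n) <<< (w - v) := fun X => rfl
  have h1 : 1 <<< v = 2 ^ v := Nat.one_shiftLeft v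
  have hgw : ∀ b, g b < 2 ^ (2 * w) := fun b => lt_of_lt_of_le (hg b)
    (Nat.pow_le_pow_right (by norm_num) (by omega))
  have hp : 0 < 2 ^ v := by positivity
  have hvv : 2 ^ v ≤ 2 ^ (2 * w) := Nat.pow_le_pow_right (by norm_num) (by omega)
  have hm1 : 2 ^ v - 1 < 2 ^ (2 * w) := by omega
  have hm2 : (2 ^ v - 1) <<< v < 2 ^ (2 * w) := by
    rw [Nat.shiftLeft_eq]
    calc (2 ^ v - 1) * 2 ^ v < 2 ^ v * 2 ^ v := Nat.mul_lt_mul_of_pos_right (by omega) hp
      _ = 2 ^ (2 * v) := by rw [← pow_add, two_mul]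
      _ ≤ 2 ^ (2 * w) := Nat.pow_le_pow_right (by norm_num) (by omega)
  have l1 : ∀ n, (∑ b ∈ range n, 2 ^ (2 * w * b) * g b) &&& cps (2 * w) (2 ^ v - 1) n =
      ∑ b ∈ range n, 2 ^ (2 * w * b) * (g b % 2 ^ v) := by
    intro n
    induction n with
    | zero => simp [cps]
    | succ n ih =>
      rw [sum_range_succ, cps_succ, land_add (sum_dig_lt hgw n) (cps_lt hm1 n), ih, land_lo,
        sum_range_succ]
  have l2 : ∀ n, (∑ b ∈ range n, 2 ^ (2 * w * b) * g b) &&& cps (2 * w) ((2 ^ v - 1) <<< v) n =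
      ∑ b ∈ range n, 2 ^ (2 * w * b) * (2 ^ v * (g b / 2 ^ v)) := by
    intro n
    induction n with
    | zero => simp [cps]
    | succ n ih =>
      rw [sum_range_succ, cps_succ, land_add (sum_dig_lt hgw n) (cps_lt hm2 n), ih,
        land_hi (hg n), sum_range_succ]
  rw [e, h1, l1, l2, Nat.shiftLeft_eq, sum_mul, ← sum_add_distrib]
  refine sum_congr rfl fun b _ => ?_
  have : 2 ^ w = 2 ^ v * 2 ^ (w - v) := by rw [← pow_add]; congr 1; omega
  rw [this]
  ring

/-- digit of a number, as a quotient -/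
theorem dgu_eq (u P k : Nat) : dgu u P k = P / 2 ^ (u * k) % 2 ^ u := by
  have h : dgu u P k = (P >>> (u * k)) % (1 <<< u) := rfl
  rw [h, Nat.shiftRight_eq_div_pow, Nat.shiftLeft_eq, one_mul]

theorem dgu_lo (v P b : Nat) : dgu (2 * v) P b % 2 ^ v = dgu v P (2 * b) := by
  rw [dgu_eq, dgu_eq, Nat.mod_mod_of_dvd _ (pow_dvd_pow 2 (by omega))]
  congr 3
  ring

theorem dgu_hi (v P b : Nat) : dgu (2 * v) P b / 2 ^ v = dgu v P (2 * b + 1) := by
  rw [dgu_eq, dgu_eq, two_mul v, pow_add 2 v v, Nat.mod_mul_right_div_self, Nat.div_div_eq_div_mul,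
    ← pow_add]
  congr 3
  ring

theorem stg_dig {v w : Nat} (hvw : v ≤ w) (P n : Nat) :
    stg v w n (∑ b ∈ range n, 2 ^ (2 * w * b) * dgu (2 * v) P b) =
      ∑ b ∈ range (2 * n), 2 ^ (w * b) * dgu v P b := by
  rw [stg_eq hvw (fun b => by rw [dgu_eq]; exact Nat.mod_lt _ (by positivity))]
  induction n with
  | zero => simp
  | succ n ih =>
    have h2 : 2 * (n + 1) = 2 * n + 1 + 1 := by ring
    rw [sum_range_succ, ih, h2, sum_range_succ, sum_range_succ, dgu_lo, dgu_hi, add_assoc]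
    congr 1
    have a1 : 2 * w * n = w * (2 * n) := by ring
    have a2 : w * (2 * n + 1) = w * (2 * n) + w := by ring
    rw [a1, a2, pow_add]
    ring

/-- all the steps -/
noncomputable def spj (u d j : Nat) : Nat → Nat :=
  Nat.rec (motive := fun _ => Nat → Nat) (fun X => X)
    (fun j ih X => ih (stg (Nat.mul u (Nat.shiftLeft 1 j)) (Nat.mul 192 (Nat.shiftLeft 1 j))
      (Nat.shiftLeft 1 (Nat.sub d (Nat.add j 1))) X)) j

theorem spj_eq {u : Nat} (hu : u ≤ 192) (d P j : Nat) (hj : j ≤ d) :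
    spj u d j (∑ b ∈ range (2 ^ (d - j)), 2 ^ (192 * 2 ^ j * b) * dgu (u * 2 ^ j) P b) =
      ∑ b ∈ range (2 ^ d), 2 ^ (192 * b) * dgu u P b := by
  induction j with
  | zero => simp [spj]
  | succ j ih =>
    have e : ∀ X, spj u d (j + 1) X = spj u d j (stg (u * (1 <<< j)) (192 * (1 <<< j))
      (1 <<< (d - (j + 1))) X) := fun X => rfl
    rw [e, Nat.one_shiftLeft, Nat.one_shiftLeft]
    have h1 : (∑ b ∈ range (2 ^ (d - (j + 1))), 2 ^ (192 * 2 ^ (j + 1) * b) *
        dgu (u * 2 ^ (j + 1)) P b) = ∑ b ∈ range (2 ^ (d - (j + 1))),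
        2 ^ (2 * (192 * 2 ^ j) * b) * dgu (2 * (u * 2 ^ j)) P b := by
      refine sum_congr rfl fun b _ => ?_
      have a1 : 192 * 2 ^ (j + 1) = 2 * (192 * 2 ^ j) := by ring
      have a2 : u * 2 ^ (j + 1) = 2 * (u * 2 ^ j) := by ring
      rw [a1, a2]
    rw [h1, stg_dig (Nat.mul_le_mul_right _ hu)]
    have h2 : 2 * 2 ^ (d - (j + 1)) = 2 ^ (d - j) := by
      rw [← pow_succ']
      congr 1
      omega
    rw [h2]
    exact ih (by omega)

/-- the digits spread to base `BB` -/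
noncomputable def spr (u K P : Nat) : Nat :=
  cond (Nat.ble u 192) (spj u (Nat.add (Nat.log2 K) 1) (Nat.add (Nat.log2 K) 1)
    (Nat.mod P (Nat.shiftLeft 1 (Nat.mul u K)))) (sprS u K P)

theorem spr_eq (u K P : Nat) : spr u K P = ∑ k ∈ range K, dgu u P k * BB ^ k := by
  unfold spr
  cases hb : Nat.ble u 192 with
  | false => exact sprS_eq u K P
  | true =>
    have hu : u ≤ 192 := Nat.le_of_ble_eq_true hb
    set d := Nat.log2 K + 1 with hd
    have hK : K < 2 ^ d := Nat.lt_log2_self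
    set R := P % 2 ^ (u * K) with hR
    have e : Nat.mod P (Nat.shiftLeft 1 (Nat.mul u K)) = R := by
      have : Nat.mod P (Nat.shiftLeft 1 (Nat.mul u K)) = P % (1 <<< (u * K)) := rfl
      rw [this, Nat.one_shiftLeft]
    have hlt : R < 2 ^ (u * 2 ^ d) := lt_of_lt_of_le (Nat.mod_lt _ (by positivity))
      (Nat.pow_le_pow_right (by norm_num) (Nat.mul_le_mul_left _ hK.le))
    have h0 : R = ∑ b ∈ range (2 ^ (d - d)), 2 ^ (192 * 2 ^ d * b) * dgu (u * 2 ^ d) R b := by
      simp [dgu_eq, Nat.mod_eq_of_lt hlt]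
    change spj u d d (Nat.mod P (Nat.shiftLeft 1 (Nat.mul u K))) = _
    rw [e]
    conv_lhs => rw [h0]
    rw [spj_eq hu d R d le_rfl]
    have hs : range K ⊆ range (2 ^ d) := by
      intro x hx
      exact mem_range.2 (lt_trans (mem_range.1 hx) hK)
    rw [← sum_subset hs]
    · refine sum_congr rfl fun k hk => ?_
      have hk' := mem_range.1 hk
      rw [BB_eq, ← pow_mul, mul_comm]
      congr 1
      rw [dgu_eq, dgu_eq, hR]
      have h3 : 2 ^ (u * K) = 2 ^ (u * k) * 2 ^ (u * (K - k)) := by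
        rw [← pow_add]
        congr 1
        rw [← mul_add]
        congr 1
        omega
      rw [h3, Nat.mod_mul_right_div_self, Nat.mod_mod_of_dvd]
      refine pow_dvd_pow 2 ?_
      have : 1 ≤ K - k := by omega
      nlinarith
    · intro k _ hk
      have hk' : K ≤ k := by
        by_contra h
        exact hk (mem_range.2 (by omega))
      rw [dgu_eq, Nat.div_eq_of_lt, Nat.zero_mod, mul_zero]
      exact lt_of_lt_of_le (Nat.mod_lt _ (by positivity))
        (Nat.pow_le_pow_right (by norm_num) (Nat.mul_le_mul_left _ hk'))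

/-- all digits one -/
noncomputable def rep (K : Nat) : Nat :=
  Nat.rec (motive := fun _ => Nat) 0
    (fun k ih => Nat.add ih (Nat.shiftLeft 1 (Nat.mul 192 k))) K

theorem rep_eq (K : Nat) : rep K = ∑ k ∈ range K, BB ^ k := by
  induction K with
  | zero => simp [rep]
  | succ K ih =>
    have e : rep (K + 1) = rep K + 1 <<< (192 * K) := rfl
    rw [e, ih, sum_range_succ, Nat.shiftLeft_eq, one_mul, pow_mul, ← BB_eq]

end Pool.Agent.AKX
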