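import Pool.Agent.AKX.Sym
import Pool.Agent.AKU.Rec

set_option autoImplicit false

/-!
# Rooted certificates with rows at pairs: the checks of the records and of the symmetries
-/

namespace Pool.Agent.AKX

open Finset Pool.Agent.AKU

noncomputable def memS (l : List Rx) (s : Nat) : Bool :=
  List.rec (motive := fun _ => Bool) false
    (fun x _ ih => Bool.rec (motive := fun _ => Bool) ih true (Nat.beq x.s s)) l

theorem memS_iff {l : List Rx} {s : Nat} (h : memS l s = true) : ∃ x ∈ l, x.s = s := by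
  induction l with
  | nil => simp [memS] at h
  | cons x l ih =>
    have e : memS (x :: l) s = Bool.rec (motive := fun _ => Bool) (memS l s) true (Nat.beq x.s s) :=
      rfl
    rw [e] at h
    cases hb : Nat.beq x.s s
    · rw [hb] at h
      obtain ⟨y, hy, h'⟩ := ih h
      exact ⟨y, List.mem_cons_of_mem _ hy, h'⟩
    · exact ⟨x, List.mem_cons_self, Nat.eq_of_beq_eq_true hb⟩

/-- the tests of a pair of free points of states `P`, `Q` -/
def pairB (TAB P Q s : Nat) : Bool :=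
  tb TAB (512 * dg2 P + 64 * dg2 Q + 8 * dg0 s + dg1 s) &&
  tb TAB (512 * dg1 P + 64 * dg1 Q + 8 * dg0 s + dg2 s) &&
  tb TAB (512 * dg0 P + 64 * dg0 Q + 8 * dg1 s + dg2 s)

/-- all possible codes of the pair are in the list -/
noncomputable def cmp (TAB P Q : Nat) (l : List Rx) : Bool :=
  allN 8 fun a => allN 8 fun b => Bool.rec (motive := fun _ => Bool) true
    (allN 8 fun c => Bool.rec (motive := fun _ => Bool) true
      (memS l (Nat.add a (Nat.add (Nat.mul 8 b) (Nat.mul 64 c))))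
      (tb TAB (512 * dg1 P + 64 * dg1 Q + 8 * a + c) &&
        tb TAB (512 * dg0 P + 64 * dg0 Q + 8 * b + c)))
    (tb TAB (512 * dg2 P + 64 * dg2 Q + 8 * a + b))

theorem cmp_sound {TAB P Q : Nat} {l : List Rx} (h : cmp TAB P Q l = true) {s : Nat} (hs : s < 512)
    (hv : pairB TAB P Q s = true) : ∃ x ∈ l, x.s = s := by
  obtain ⟨a8, b8, c8⟩ := dg_lt s
  have h1 := allN_iff.1 (allN_iff.1 h _ a8) _ b8
  unfold pairB at hv
  simp only [Bool.and_eq_true] at hv
  obtain ⟨⟨v0, v1⟩, v2⟩ := hv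
  rw [v0] at h1
  have h2 := allN_iff.1 h1 _ c8
  have v12 : (tb TAB (512 * dg1 P + 64 * dg1 Q + 8 * dg0 s + dg2 s) &&
        tb TAB (512 * dg0 P + 64 * dg0 Q + 8 * dg1 s + dg2 s)) = true := by
    rw [v1, v2]; rfl
  rw [v12] at h2
  obtain ⟨x, hx, e⟩ := memS_iff h2
  refine ⟨x, hx, ?_⟩
  rw [e]
  show dg0 s + (8 * dg1 s + 64 * dg2 s) = s
  unfold dg0 dg1 dg2
  rw [Nat.shiftRight_eq_div_pow, Nat.shiftRight_eq_div_pow]
  omega

/-- a sum -/
noncomputable def sN (n : Nat) (f : Nat → Nat) : Nat :=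
  Nat.rec (motive := fun _ => Nat) 0 (fun k ih => Nat.add ih (f k)) n

theorem sN_eq (n : Nat) (f : Nat → Nat) : sN n f = ∑ j ∈ range n, f j := by
  induction n with
  | zero => rfl
  | succ n ih =>
    rw [sum_range_succ, ← ih]
    rfl

variable (T : Tb)

/-- the packed constants and the slope are right, for all third points -/
noncomputable def okR (offa offb p : Nat) (x : Rx) : Bool :=
  allN T.nt fun r => Nat.beq
    (Nat.add (Nat.add (lk x.al (T.dl r)) (Nat.mul x.be (T.wy r)))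
      (sN T.nj fun j => Nat.mul (lk (T.ov j p) x.f) (T.fm j r)))
    (Nat.add (Nat.add (Nat.add offa (Nat.mul offb (T.wy r)))
      (sN T.nj fun j => Nat.mul (lk (T.ov j p) x.f) (T.fp j r)))
      (Nat.mul (Nat.add (Nat.add x.m0 x.m1) x.m2) (T.gm r)))

noncomputable def okX (offa offb p q : Nat) (x : Rx) : Bool :=
  ((((((Nat.beq x.a (dg0 x.s) && Nat.beq x.b (dg1 x.s)) && Nat.beq x.c (dg2 x.s)) &&
    (Nat.beq x.n (pat x.s) && Nat.beq x.f (T.fl p q x.s))) && (Nat.beq x.g (T.fl q p (rv3 x.s)) &&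
    Nat.ble (x.f + 1) (T.nb p))) && ((Nat.ble (x.g + 1) (T.nb q) &&
    Nat.beq x.u (nthL (T.blk p) x.f)) && Nat.beq x.w (nthL (T.blk q) x.g))) &&
  ((((Nat.beq x.m0 (lk (T.mv 0 p) x.f) && Nat.beq x.m1 (lk (T.mv 1 p) x.f)) &&
    Nat.beq x.m2 (lk (T.mv 2 p) x.f)) && ((Nat.beq x.m0 (lk (T.mv 0 q) x.g) &&
    Nat.beq x.m1 (lk (T.mv 1 q) x.g)) && Nat.beq x.m2 (lk (T.mv 2 q) x.g))) &&
  ((allN T.nj fun j => Nat.beq (lk (T.ov j p) x.f) (lk (T.ov j q) x.g)) &&
    okR T offa offb p x))) &&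
  ((Nat.ble (x.m0 + 1) 281474976710656 && Nat.ble (x.m1 + 1) 281474976710656) &&
    Nat.ble (x.m2 + 1) 281474976710656)

noncomputable def okXw (p q : Nat) (x : Rx) : Bool :=
  (Nat.beq x.f (T.fl p q x.s) && Nat.ble (x.f + 1) (T.nb p))

/-- the records of the pairs `(p, q)` are right; `tc` are the codes of the types -/
noncomputable def chkRec (tc : Nat → Nat) (offa offb p : Nat) : Bool :=
  allN T.nt fun q => (cmp T.TAB (tc p) (tc q) (T.E p q)) && Bool.rec (motive := fun _ => Bool)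
    (allL (T.E p q) (okXw T p q)) (allL (T.E p q) (okX T offa offb p q)) (Nat.ble p q)

/-- the packed root terms are right -/
noncomputable def chkW (offw : Nat) (wn : Nat → Nat) : Bool :=
  allN T.nt fun p => allN 8 fun n =>
    Nat.beq (lk (wn p) n + 4 * (T.nu 0 p + T.nu 1 p + T.nu 2 p) +
      9 * T.offn * (n % 2 + n / 2 % 2 + n / 4))
      (offw + 12 * T.offn + 9 * (T.nu 0 p * (n % 2) + T.nu 1 p * (n / 2 % 2) +
        T.nu 2 p * (n / 4)))

/-- the table of the weights is right -/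
noncomputable def chkWt : Bool :=
  allN 4096 fun K => Nat.ble (T.wv K + 1) 4096 && Bool.rec (motive := fun _ => Bool) true
    (Nat.beq (Nat.land (Nat.shiftRight T.wt (Nat.mul 192 K)) MK)
      (T.wv K + (T.wv (p23 K) * XX + T.wv (p31 K) * XX ^ 2)) && Nat.beq (T.wv (q23 K)) (T.wv K))
    (tb T.TAB K)

variable {T}

theorem rv3_rv3 {s : Nat} (hs : s < 512) : rv3 (rv3 s) = s := by
  have h : (allN 512 fun s => Nat.beq (rv3 (rv3 s)) s) = true := by decide +kernel
  exact Nat.eq_of_beq_eq_true (allN_iff.1 h s hs)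

theorem rv3_lt (s : Nat) : rv3 s < 512 := by
  have h0 := rvd_lt (dg0 s)
  have h1 := rvd_lt (dg1 s)
  have h2 := rvd_lt (dg2 s)
  unfold rv3
  omega

/-- everything about the records -/
theorem rec_sound {tc : Nat → Nat} {offa offb : Nat}
    (hvp : ∀ p q s, T.vp p q s = pairB T.TAB (tc p) (tc q) s)
    (h : ∀ p < T.nt, chkRec T tc offa offb p = true) {p q : Nat} (hp : p < T.nt) (hq : q < T.nt)
    {s : Nat} (hs : s < 512) (hv : T.vp p q s = true) : ∃ x ∈ T.E p q, x.s = s ∧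
      x.f = T.fl p q s ∧ x.f < T.nb p ∧ (p ≤ q → okX T offa offb p q x = true) := by
  have h0 := allN_iff.1 (h p hp) q hq
  rw [Bool.and_eq_true] at h0
  obtain ⟨h1, h2⟩ := h0
  rw [hvp] at hv
  obtain ⟨x, hx, rfl⟩ := cmp_sound h1 hs hv
  refine ⟨x, hx, rfl, ?_⟩
  cases hb : Nat.ble p q
  · rw [hb] at h2
    have h3 := allL_iff.1 h2 x hx
    simp only [okXw, Bool.and_eq_true, Nat.beq_eq, Nat.ble_eq] at h3
    refine ⟨h3.1, h3.2, fun hle => ?_⟩
    rw [Nat.ble_eq_true_of_le hle] at hb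
    exact absurd hb (by simp)
  · rw [hb] at h2
    have h3 := allL_iff.1 h2 x hx
    have h4 := h3
    simp only [okX, Bool.and_eq_true, Nat.beq_eq, Nat.ble_eq] at h4
    exact ⟨h4.1.1.1.1.2.2, h4.1.1.1.2.2, fun _ => h3⟩

theorem okR_sound {offa offb p q s : Nat} {x : Rx} (h : okR T offa offb p x = true)
    (hf : x.f = T.fl p q s) {r : Nat} (hr : r < T.nt) :
    (lk x.al (T.dl r) : ℤ) + x.be * T.wy r = offa + offb * T.wy r + T.GO p q s r +
      (x.m0 + x.m1 + x.m2) * T.gm r := by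
  have h1 : (lk x.al (T.dl r) + x.be * T.wy r) +
      (sN T.nj fun j => Nat.mul (lk (T.ov j p) x.f) (T.fm j r)) =
    ((offa + offb * T.wy r) + (sN T.nj fun j => Nat.mul (lk (T.ov j p) x.f) (T.fp j r))) +
      (x.m0 + x.m1 + x.m2) * T.gm r := Nat.eq_of_beq_eq_true (allN_iff.1 h r hr)
  rw [sN_eq, sN_eq] at h1
  have h2 : ((lk x.al (T.dl r) : ℤ) + x.be * T.wy r) +
      ∑ j ∈ range T.nj, (T.oo j p q s : ℤ) * T.fm j r =
    ((offa + offb * T.wy r) + ∑ j ∈ range T.nj, (T.oo j p q s : ℤ) * T.fp j r) +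
      (x.m0 + x.m1 + x.m2) * T.gm r := by
    unfold Tb.oo
    rw [← hf]
    exact_mod_cast h1
  have e : T.GO p q s r = ∑ j ∈ range T.nj, (T.oo j p q s : ℤ) * T.fp j r -
      ∑ j ∈ range T.nj, (T.oo j p q s : ℤ) * T.fm j r := by
    unfold Tb.GO Tb.FJ
    rw [← sum_sub_distrib]
    exact sum_congr rfl fun j _ => by ring
  rw [e]
  linarith

theorem ok_of_chkRec {tc : Nat → Nat} {offa offb : Nat}
    (hvp : ∀ p q s, T.vp p q s = pairB T.TAB (tc p) (tc q) s)
    (h : ∀ p < T.nt, chkRec T tc offa offb p = true) (offw : Nat) (wn : Nat → Nat)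
    (hw : chkW T offw wn = true) (ht : chkWt T = true) : T.Ok offw offa offb wn where
  mem p q hpq hq s hs hv := by
    obtain ⟨x, hx, rfl, -, -, h3⟩ := rec_sound hvp h (by omega) hq hs hv
    have h4 := h3 hpq
    simp only [okX, Bool.and_eq_true, Nat.beq_eq, Nat.ble_eq] at h4
    obtain ⟨⟨⟨⟨⟨⟨⟨a1, a2⟩, a3⟩, a4, a5⟩, a6, a7⟩, ⟨a8, a9⟩, a10⟩,
      ⟨⟨⟨b0, b1⟩, b2⟩, -⟩, -, b3⟩, ⟨c0, c1⟩, c2⟩ := h4
    refine ⟨x, hx, ⟨a1, a2, a3, a4, a5, a6, a7, a8, a9, a10⟩, ?_⟩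
    have hr := fun r (hr : r < T.nt) => okR_sound b3 a5 (T := T) hr
    unfold Tb.mm
    rw [← a5]
    exact ⟨b0, b1, b2, hr, c0, c1, c2⟩
  pen p hp n hn := Nat.eq_of_beq_eq_true (allN_iff.1 (allN_iff.1 hw p hp) n hn)
  wtb K hK hT := by
    have h1 := allN_iff.1 ht K hK
    rw [Bool.and_eq_true, tb_eq, hT] at h1
    have h2 : (Nat.beq (Nat.land (Nat.shiftRight T.wt (Nat.mul 192 K)) MK)
      (T.wv K + (T.wv (p23 K) * XX + T.wv (p31 K) * XX ^ 2)) &&
        Nat.beq (T.wv (q23 K)) (T.wv K)) = true := h1.2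
    rw [Bool.and_eq_true] at h2
    exact Nat.eq_of_beq_eq_true h2.1
  wvb K hK := by
    have h1 := allN_iff.1 ht K hK
    rw [Bool.and_eq_true] at h1
    exact Nat.le_of_ble_eq_true h1.1

theorem wsym_of (ht : chkWt T = true) : T.WSym := by
  intro K hK hT
  have h1 := allN_iff.1 ht K hK
  rw [Bool.and_eq_true, tb_eq, hT] at h1
  have h2 : (Nat.beq (Nat.land (Nat.shiftRight T.wt (Nat.mul 192 K)) MK)
    (T.wv K + (T.wv (p23 K) * XX + T.wv (p31 K) * XX ^ 2)) &&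
      Nat.beq (T.wv (q23 K)) (T.wv K)) = true := h1.2
  rw [Bool.and_eq_true] at h2
  exact Nat.eq_of_beq_eq_true h2.2

theorem msym_of {tc : Nat → Nat} {offa offb : Nat}
    (hvp : ∀ p q s, T.vp p q s = pairB T.TAB (tc p) (tc q) s)
    (h : ∀ p < T.nt, chkRec T tc offa offb p = true) : T.MSym := by
  have key : ∀ p < T.nt, ∀ q < T.nt, p ≤ q → ∀ s < 512, T.vp p q s = true →
      (T.mm 0 q p (rv3 s) = T.mm 0 p q s ∧ T.mm 1 q p (rv3 s) = T.mm 1 p q s ∧
        T.mm 2 q p (rv3 s) = T.mm 2 p q s) ∧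
      ∀ j < T.nj, T.oo j q p (rv3 s) = T.oo j p q s := by
    intro p hp q hq hpq s hs hv
    obtain ⟨x, hx, rfl, -, -, h3⟩ := rec_sound hvp h hp hq hs hv
    have h4 := h3 hpq
    simp only [okX, Bool.and_eq_true, Nat.beq_eq, Nat.ble_eq] at h4
    obtain ⟨⟨⟨⟨⟨-, a4, a5⟩, a6, a7⟩, -⟩,
      ⟨⟨⟨b0, b1⟩, b2⟩, ⟨b0', b1'⟩, b2'⟩, o0, -⟩, -⟩ := h4
    unfold Tb.mm Tb.oo
    rw [← a5, ← a6]
    refine ⟨⟨by rw [← b0, ← b0'], by rw [← b1, ← b1'], by rw [← b2, ← b2']⟩, fun j hj => ?_⟩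
    exact (Nat.eq_of_beq_eq_true (allN_iff.1 o0 j hj)).symm
  intro p hp q hq s hs hv hv'
  rcases le_total p q with hpq | hpq
  · exact key p hp q hq hpq s hs hv
  · have h1 := key q hq p hp hpq (rv3 s) (rv3_lt s) hv'
    rw [rv3_rv3 hs] at h1
    obtain ⟨⟨m0, m1, m2⟩, o0⟩ := h1
    exact ⟨⟨m0.symm, m1.symm, m2.symm⟩, fun j hj => (o0 j hj).symm⟩

/-! ### the main check in pieces -/

variable (T) in
/-- the main check for `p`, all `q` in a list, all `r ≥ q` -/
noncomputable def chkQ (G : List Sy) (offw offa offb : Nat) (wn : Nat → Nat) (p : Nat)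
    (l : List Nat) : Bool :=
  allM l fun q => allN T.nt fun r => Bool.rec (motive := fun _ => Bool) true
    (Bool.rec (motive := fun _ => Bool) true (T.chkT offw offa offb wn p q r) (can G p q r))
    (Nat.ble q r)

theorem chkQ_append {G : List Sy} {offw offa offb : Nat} {wn : Nat → Nat} {p : Nat}
    {l l' : List Nat} (h : chkQ T G offw offa offb wn p l = true)
    (h' : chkQ T G offw offa offb wn p l' = true) :
    chkQ T G offw offa offb wn p (l ++ l') = true := by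
  unfold chkQ at *
  rw [allM_iff] at *
  intro x hx
  rcases List.mem_append.1 hx with h1 | h1
  · exact h x h1
  · exact h' x h1

theorem sound_of_chkQ {G : List Sy} {offw offa offb : Nat} {wn : Nat → Nat}
    (ho : T.Ok offw offa offb wn) {p : Nat} {l : List Nat}
    (h : chkQ T G offw offa offb wn p l = true) {q r A B C d : Nat} (hq : q ∈ l) (hpq : p ≤ q)
    (hqr : q ≤ r) (hr : r < T.nt) (hc : can G p q r = true) (hA : A < 512) (hB : B < 512)
    (hC : C < 512) (vA : T.vp p q A = true) (vB : T.vp p r B = true) (vC : T.vp q r C = true)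
    (hd : d < 8) (ht : T.tst A B C d = true) : T.VX p q r A B C d ≤ 0 := by
  have h1 := allN_iff.1 (allM_iff.1 h q hq) r hr
  rw [Nat.ble_eq_true_of_le hqr, hc] at h1
  exact T.chkT_sound ho hpq hqr hr h1 hA hB hC vA vB vC hd ht

/-- the blocks of the main check are the positive semidefinite blocks plus the rows -/
theorem spl_of : T.Spl := by
  intro p i j
  unfold Tb.Qt
  ring

/-! ### invariance -/

variable (T)

/-- the small tables of the symmetry -/
noncomputable def invS (g : Sy) : Bool :=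
  (allN 8 fun d => (Nat.ble (g.sp d + 1) 8 && Nat.beq (na (g.sp d)) (na d)) &&
    (Nat.beq (g.sp (rvd d)) (rvd (g.sp d)) && Nat.beq (g.sp (rot d)) (rot (g.sp d)))) &&
  ((allN 4096 fun K => Bool.rec (motive := fun _ => Bool) true
    (tb T.TAB (g.sk K) && Nat.beq (T.wv (g.sk K)) (T.wv K)) (tb T.TAB K)) &&
  (allN T.nt fun p => ((Nat.ble (g.tp p + 1) T.nt && Nat.beq (T.mu (g.tp p)) (T.mu p)) &&
    (Nat.beq (T.gm (g.tp p)) (T.gm p) && Nat.beq (T.nu 0 (g.tp p)) (T.nu (g.rk 0) p))) &&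
    ((allN T.nj fun j => Nat.beq (Nat.add (T.fp (g.jk j) (g.tp p)) (T.fm j p))
      (Nat.add (T.fp j p) (T.fm (g.jk j) (g.tp p)))) && (Nat.beq (T.nu 1 (g.tp p)) (T.nu (g.rk 1) p) && Nat.beq (T.nu 2 (g.tp p)) (T.nu (g.rk 2) p)) &&
    (allN T.nt fun q => Nat.beq (T.q0 (g.tp p) (g.tp q)) (T.q0 p q)))))

/-- the pairs and the flags -/
noncomputable def invF (g : Sy) (p : Nat) : Bool :=
  allN T.nt fun q => allL (T.E p q) fun x => T.vp (g.tp p) (g.tp q) (g.cd x.s) &&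
    Nat.beq (T.fl (g.tp p) (g.tp q) (g.cd x.s)) (g.pm p x.f)

/-- the multipliers -/
noncomputable def invM (g : Sy) (p : Nat) : Bool :=
  allN (T.nb p) fun i =>
    ((Nat.beq (lk (T.mv 0 (g.tp p)) (g.pm p i)) (lk (T.mv (g.rk 0) p) i) &&
      Nat.beq (lk (T.mv 1 (g.tp p)) (g.pm p i)) (lk (T.mv (g.rk 1) p) i)) &&
      Nat.beq (lk (T.mv 2 (g.tp p)) (g.pm p i)) (lk (T.mv (g.rk 2) p) i)) &&
    (allN T.nj fun j => Nat.beq (lk (T.ov (g.jk j) (g.tp p)) (g.pm p i)) (lk (T.ov j p) i))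

variable {T}

theorem inv_of {g : Sy} {tc : Nat → Nat} {offa offb : Nat}
    (hvp : ∀ p q s, T.vp p q s = pairB T.TAB (tc p) (tc q) s)
    (h : ∀ p < T.nt, chkRec T tc offa offb p = true)
    (hrk : Pm (g.rk 0) (g.rk 1) (g.rk 2))
    (hjk : ∀ f : Nat → ℤ, ∑ j ∈ range T.nj, f (g.jk j) = ∑ j ∈ range T.nj, f j)
    (hS : invS T g = true)
    (hF : ∀ p < T.nt, invF T g p = true) (hM : ∀ p < T.nt, invM T g p = true)
    (hB : ∀ p < T.nt, ∀ i < T.nb p, ∀ j < T.nb p,
      T.Mt (g.tp p) (g.pm p i) (g.pm p j) = T.Mt p i j)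
    (hU : ∀ p < T.nt, ∀ q < T.nt, ∀ r < T.nt, T.u3 (g.tp p) (g.tp q) (g.tp r) = T.u3 p q r) :
    T.Inv g := by
  unfold invS at hS
  rw [Bool.and_eq_true, Bool.and_eq_true] at hS
  obtain ⟨s1, s2, s3⟩ := hS
  have k1 : ∀ d < 8, ((g.sp d + 1 ≤ 8 ∧ na (g.sp d) = na d) ∧
      (g.sp (rvd d) = rvd (g.sp d) ∧ g.sp (rot d) = rot (g.sp d))) := by
    intro d hd
    have := allN_iff.1 s1 d hd
    simpa only [Bool.and_eq_true, Nat.beq_eq, Nat.ble_eq] using this
  have k3 : ∀ p < T.nt, ((g.tp p + 1 ≤ T.nt ∧ T.mu (g.tp p) = T.mu p) ∧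
      (T.gm (g.tp p) = T.gm p ∧ T.nu 0 (g.tp p) = T.nu (g.rk 0) p)) ∧
      (∀ j < T.nj, T.fp (g.jk j) (g.tp p) + T.fm j p = T.fp j p + T.fm (g.jk j) (g.tp p)) ∧
      (T.nu 1 (g.tp p) = T.nu (g.rk 1) p ∧ T.nu 2 (g.tp p) = T.nu (g.rk 2) p) ∧
      ∀ q < T.nt, T.q0 (g.tp p) (g.tp q) = T.q0 p q := by
    intro p hp
    have := allN_iff.1 s3 p hp
    simp only [Bool.and_eq_true, Nat.beq_eq, Nat.ble_eq, allN_iff] at this
    exact ⟨this.1, this.2.1.1, ⟨this.2.1.2.1, this.2.1.2.2⟩, this.2.2⟩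
  exact
    { sp8 := fun d hd => (k1 d hd).1.1
      spna := fun d hd => (k1 d hd).1.2
      sprv := fun d hd => (k1 d hd).2.1
      sprot := fun d hd => (k1 d hd).2.2
      rk := hrk
      tb := by
        intro K hK hT
        have h1 := allN_iff.1 s2 K hK
        have h0 : tb T.TAB K = true := by rw [tb_eq]; exact hT
        rw [h0] at h1
        have h2 : (tb T.TAB (g.sk K) && Nat.beq (T.wv (g.sk K)) (T.wv K)) = true := h1
        rw [Bool.and_eq_true, tb_eq] at h2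
        exact ⟨h2.1, Nat.eq_of_beq_eq_true h2.2⟩
      tpl := fun p hp => (k3 p hp).1.1.1
      flg := by
        intro p hp q hq s hs hv
        obtain ⟨x, hx, rfl, e1, e2, -⟩ := rec_sound hvp h hp hq hs hv
        have h1 := allL_iff.1 (allN_iff.1 (hF p hp) q hq) x hx
        rw [Bool.and_eq_true] at h1
        refine ⟨h1.1, ?_, ?_⟩
        · rw [← e1]
          exact Nat.eq_of_beq_eq_true h1.2
        · rw [← e1]
          exact e2
      blk := hB
      q0 := by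
        intro p hp q hq
        unfold Tb.Q0
        rw [if_pos ⟨(k3 p hp).1.1.1, (k3 q hq).1.1.1⟩, if_pos ⟨hp, hq⟩, (k3 p hp).2.2.2 q hq]
      mu := fun p hp => (k3 p hp).1.1.2
      nu := fun p hp => ⟨(k3 p hp).1.2.2, (k3 p hp).2.2.1.1, (k3 p hp).2.2.1.2⟩
      mv := by
        intro p hp i hi
        have := allN_iff.1 (hM p hp) i hi
        simp only [Bool.and_eq_true, Nat.beq_eq] at this
        exact ⟨this.1.1.1, this.1.1.2, this.1.2⟩
      ov := by
        intro p hp i hi j hj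
        have := allN_iff.1 (hM p hp) i hi
        rw [Bool.and_eq_true] at this
        exact Nat.eq_of_beq_eq_true (allN_iff.1 this.2 j hj)
      fj := by
        intro r hr j hj
        have h1 := (k3 r hr).2.1 j hj
        have h2 : (T.fp (g.jk j) (g.tp r) : ℤ) + T.fm j r = T.fp j r + T.fm (g.jk j) (g.tp r) := by
          exact_mod_cast h1
        unfold Tb.FJ
        linarith
      gm := fun p hp => (k3 p hp).1.2.1
      jk := hjk
      u3 := hU }

/-- invariance of the blocks: the list of rows is the same, and invariant under the permutation -/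
theorem blk_inv {g : Sy} {p : Nat} (hn : T.nb (g.tp p) = T.nb p) (hb : T.blk (g.tp p) = T.blk p)
    (hP : (∀ i < T.nb p, g.pm p i = i) ∨ ∀ i < T.nb p, g.pm p i < T.nb p ∧ ∀ j < T.nb p,
      lb T.sb T.sm (nthL (T.blk p) (g.pm p i)) (g.pm p j) =
        lb T.sb T.sm (nthL (T.blk p) i) j) :
    ∀ i < T.nb p, ∀ j < T.nb p, T.Mt (g.tp p) (g.pm p i) (g.pm p j) = T.Mt p i j := by
  intro i hi j hj
  unfold Tb.Mt
  rw [hn, hb]
  rcases hP with h | h
  · rw [h i hi, h j hj]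
  · rw [if_pos ⟨(h i hi).1, (h j hj).1⟩, if_pos ⟨hi, hj⟩, (h i hi).2 j hj]

/-- the check of a permutation of the rows -/
noncomputable def permC (sb sm n : Nat) (M : List Nat) (pm : Nat → Nat) : Bool :=
  allN n fun i => Nat.ble (pm i + 1) n &&
    allN n fun j => Nat.beq (lb sb sm (nthL M (pm i)) (pm j)) (lb sb sm (nthL M i) j)

theorem permC_iff {sb sm n : Nat} {M : List Nat} {pm : Nat → Nat}
    (h : permC sb sm n M pm = true) :
    ∀ i < n, pm i < n ∧ ∀ j < n, lb sb sm (nthL M (pm i)) (pm j) = lb sb sm (nthL M i) j := by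
  intro i hi
  have h1 := allN_iff.1 h i hi
  rw [Bool.and_eq_true] at h1
  refine ⟨Nat.le_of_ble_eq_true h1.1, fun j hj => ?_⟩
  exact Nat.eq_of_beq_eq_true (allN_iff.1 h1.2 j hj)

end Pool.Agent.AKX
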