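import Pool.Agent.AKX.Parts

set_option autoImplicit false
set_option linter.unusedSectionVars false

/-!
# A strip of one weight, when all acute triples have small values of a second weight
-/

namespace Pool.Agent.AKX

open Finset Classical Pool.Agent.AKG Pool.Agent.AKO Pool.Agent.AKU Pool.Agent.MP_0af329_co
  Pool.Agent.AK

section

variable {ι : Type*} {x y : ι → ℝ} [Fintype ι]

/-- the own row, from below -/
theorem own_ge {w : ℕ → ℕ} {C : ℕ} (hC : ∀ K, w K ≤ C) {e a : ℕ} {r : Fin 3 → ι} (u v : ι)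
    (h : (a : ℤ) * Fintype.card ι ≤ e * Ph x y (fun K => (w K : ℤ)) r) :
    -(2 * ((e : ℤ) * C)) ≤
      ∑ z, (if Dz r u v z then (e : ℤ) * w (code x y (r 0) (r 1) (r 2) z) - a else 0) := by
  have e2 : ∀ z, (e : ℤ) * (if ∀ k, z ≠ r k then (w (code x y (r 0) (r 1) (r 2) z) : ℤ) else 0) -
      ((if z = u then (e : ℤ) * C else 0) + (if z = v then (e : ℤ) * C else 0)) - a ≤
      (if Dz r u v z then (e : ℤ) * w (code x y (r 0) (r 1) (r 2) z) - a else 0) := by
    intro z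
    have hwz : (e : ℤ) * w (code x y (r 0) (r 1) (r 2) z) ≤ e * C :=
      mul_le_mul_of_nonneg_left (by exact_mod_cast hC _) (Int.natCast_nonneg _)
    have hC0 : (0 : ℤ) ≤ (e : ℤ) * C := by positivity
    have ha0 : (0 : ℤ) ≤ a := Int.natCast_nonneg _
    by_cases hz : Dz r u v z
    · rw [if_pos hz, if_pos hz.1, if_neg hz.2.1, if_neg hz.2.2]
      linarith
    · rw [if_neg hz]
      by_cases g : ∀ k, z ≠ r k
      · rw [if_pos g]
        by_cases gu : z = u
        · rw [if_pos gu]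
          split_ifs <;> linarith
        · by_cases gv : z = v
          · rw [if_neg gu, if_pos gv]
            linarith
          · exact absurd ⟨g, gu, gv⟩ hz
      · rw [if_neg g, mul_zero]
        split_ifs <;> linarith
  have e3 := sum_le_sum fun z (_ : z ∈ (univ : Finset ι)) => e2 z
  rw [sum_sub_distrib, sum_sub_distrib, sum_add_distrib, sum_ite_eq' univ u,
    sum_ite_eq' univ v, if_pos (mem_univ _), if_pos (mem_univ _), sum_const, card_univ,
    nsmul_eq_mul, ← mul_sum] at e3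
  have e4 : Ph x y (fun K => (w K : ℤ)) r =
    ∑ z, (if ∀ k, z ≠ r k then (w (code x y (r 0) (r 1) (r 2) z) : ℤ) else 0) := rfl
  rw [← e4] at e3
  linarith

/-- the own row, from above -/
theorem own_le {w : ℕ → ℕ} {e b : ℕ} {r : Fin 3 → ι} (u v : ι)
    (h : (e : ℤ) * Ph x y (fun K => (w K : ℤ)) r ≤ b * (Fintype.card ι : ℤ)) :
    -(5 * (b : ℤ)) ≤
      ∑ z, (if Dz r u v z then (b : ℤ) - e * w (code x y (r 0) (r 1) (r 2) z) else 0) := by
  have h1 := row_ge (r := r) (u := u) (v := v) (a := b) (Int.natCast_nonneg _)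
    (f := fun z => (e : ℤ) * (if ∀ k, z ≠ r k then (w (code x y (r 0) (r 1) (r 2) z) : ℤ) else 0))
    (g := fun z => (e : ℤ) * w (code x y (r 0) (r 1) (r 2) z))
    (fun z => by
      split_ifs
      · positivity
      · simp)
    (fun z hz => by rw [if_pos hz.1])
  rw [← mul_sum] at h1
  have e4 : Ph x y (fun K => (w K : ℤ)) r =
    ∑ z, (if ∀ k, z ≠ r k then (w (code x y (r 0) (r 1) (r 2) z) : ℤ) else 0) := rfl
  rw [← e4] at h1
  linarith

/-- **A sum of rows at a pair** -/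
theorem pair_sumC {r : Fin 3 → ι} {u v : ι} {nj : ℕ} {o mm : ℕ → ℕ} {F G : ℕ → ι → ℤ}
    {c0 c1 : ℤ} {L : ℕ} (hc0 : 0 ≤ c0) (hc1 : 0 ≤ c1)
    (hF : ∀ j < nj, -c0 ≤ ∑ z, (if Dz r u v z then F j z else 0))
    (hG : ∀ k < 3, mm k ≠ 0 → -c1 ≤ ∑ z, (if Dz r u v z then G k z else 0))
    (ho : ∀ j < nj, o j ≤ L) (hm : ∀ k < 3, mm k ≤ L) :
    -(nj * (L * c0) + 3 * (L * c1)) ≤
      ∑ z, (if Dz r u v z then (∑ j ∈ range nj, (o j : ℤ) * F j z) +
        ((mm 0 : ℤ) * G 0 z + (mm 1 : ℤ) * G 1 z + (mm 2 : ℤ) * G 2 z) else 0) := by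
  have e1 : ∑ z, (if Dz r u v z then (∑ j ∈ range nj, (o j : ℤ) * F j z) +
        ((mm 0 : ℤ) * G 0 z + (mm 1 : ℤ) * G 1 z + (mm 2 : ℤ) * G 2 z) else 0) =
      (∑ j ∈ range nj, (o j : ℤ) * ∑ z, (if Dz r u v z then F j z else 0)) +
      ((mm 0 : ℤ) * ∑ z, (if Dz r u v z then G 0 z else 0) +
      (mm 1 : ℤ) * ∑ z, (if Dz r u v z then G 1 z else 0) +
      (mm 2 : ℤ) * ∑ z, (if Dz r u v z then G 2 z else 0)) := by
    have e2 : ∑ j ∈ range nj, (o j : ℤ) * ∑ z, (if Dz r u v z then F j z else 0) =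
        ∑ z, (if Dz r u v z then ∑ j ∈ range nj, (o j : ℤ) * F j z else 0) := by
      simp only [mul_sum]
      rw [sum_comm]
      refine sum_congr rfl fun z _ => ?_
      by_cases hz : Dz r u v z
      · simp only [if_pos hz]
      · simp only [if_neg hz, mul_zero, sum_const_zero]
    rw [e2]
    simp only [mul_sum, ← sum_add_distrib]
    refine sum_congr rfl fun z _ => ?_
    by_cases hz : Dz r u v z
    · simp only [if_pos hz]
    · simp only [if_neg hz, mul_zero, add_zero]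
  rw [e1]
  have mulb : ∀ {m : ℕ} {B X : ℤ}, m ≤ L → 0 ≤ B → -B ≤ X → -((L : ℤ) * B) ≤ (m : ℤ) * X := by
    intro m B X hm hB hX
    have hm' : (m : ℤ) ≤ L := by exact_mod_cast hm
    have h1 : (m : ℤ) * (-B) ≤ (m : ℤ) * X := mul_le_mul_of_nonneg_left hX (Int.natCast_nonneg _)
    have h2 : (m : ℤ) * B ≤ L * B := mul_le_mul_of_nonneg_right hm' hB
    linarith
  have k1 : -(nj * (L * c0)) ≤
      ∑ j ∈ range nj, (o j : ℤ) * ∑ z, (if Dz r u v z then F j z else 0) := by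
    have k7 := sum_le_sum fun j (hj : j ∈ range nj) =>
      mulb (ho j (mem_range.1 hj)) hc0 (hF j (mem_range.1 hj))
    rw [sum_const, card_range, nsmul_eq_mul] at k7
    linarith
  have key : ∀ k < 3, -((L : ℤ) * c1) ≤
      (mm k : ℤ) * ∑ z, (if Dz r u v z then G k z else 0) := by
    intro k hk
    by_cases h0 : mm k = 0
    · rw [h0, Nat.cast_zero, zero_mul]
      have : 0 ≤ (L : ℤ) * c1 := mul_nonneg (Int.natCast_nonneg _) hc1
      linarith
    · exact mulb (hm k hk) hc1 (hG k hk h0)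
  have K0 := key 0 (by norm_num)
  have K1 := key 1 (by norm_num)
  have K2 := key 2 (by norm_num)
  linarith

end

/-- The rows of a strip of the weight `w` under a condition on the weight `w1`: at pairs, the row
`0` is `e w - a`, the row `1` is `b - e w`, the row `2` is `a1 - e1 w1`, all for the roots; the
exchange rows of two roots are the combination with the coefficients `al`, `be` of the rows of
`w` (compared with the roots) and of `w1` (compared with `a1`); the rows of one root have the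
number `k % 3` of the root and the coefficients `al' k`, `be' k`. -/
structure Mix (T : Tb) (tcs : List ℕ) (w w1 : ℕ → ℕ) (e a b e1 a1 al be : ℕ) (al' be' : ℕ → ℕ) :
    Prop where
  nj : T.nj = 3
  f0 : ∀ r < T.nt, T.FJ 0 r = (e : ℤ) * w (2048 + tcs.getD r 0) - a
  f1 : ∀ r < T.nt, T.FJ 1 r = (b : ℤ) - e * w (2048 + tcs.getD r 0)
  f2 : ∀ r < T.nt, T.FJ 2 r = (a1 : ℤ) - e1 * w1 (2048 + tcs.getD r 0)
  gm : ∀ r < T.nt, T.gm r = al * w (2048 + tcs.getD r 0) + be * a1
  wv : ∀ K < 4096, T.wv K = al * w K + be * (e1 * w1 K)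
  lam : ∀ k < T.nk, ∀ p < tcs.length,
    xst (⟨k % 3, Nat.mod_lt _ (by norm_num)⟩ : Fin 3) (tcs.getD p 0) % 4 ≠ 0 →
      ∀ j, T.lam k p j = 0
  ev : ∀ k < T.nk, ∀ p < tcs.length, ∀ q < tcs.length, ∀ s < 512,
    pairT (tcs.getD p 0) (tcs.getD q 0) s = true →
    xst (⟨k % 3, Nat.mod_lt _ (by norm_num)⟩ : Fin 3) (tcs.getD p 0) % 4 = 0 →
    T.Ev k p (T.fl p q s) = (al' k : ℤ) * (w (xch (⟨k % 3, Nat.mod_lt _ (by norm_num)⟩ : Fin 3)
        (tcs.getD p 0) (tcs.getD q 0) s) - w (2048 + tcs.getD q 0)) +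
      be' k * (e1 * w1 (xch (⟨k % 3, Nat.mod_lt _ (by norm_num)⟩ : Fin 3)
        (tcs.getD p 0) (tcs.getD q 0) s) - a1)

variable {T : Tb} {tcs : List ℕ} {w w1 : ℕ → ℕ} {e a b e1 a1 al be : ℕ} {al' be' : ℕ → ℕ}

/-- **The rows at pairs** -/
theorem pair_rows2 (hM : Mix T tcs w w1 e a b e1 a1 al be al' be') (hL : LinkT T tcs) {C : ℕ}
    (hC : ∀ K, w K ≤ C) : ∃ s1 : ℕ,
    ∀ (ι : Type) [Fintype ι] (x y : ι → ℝ), GN x y → ∀ r : Fin 3 → ι,
      MaxT x y (fun K => (w K : ℤ)) r →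
      (a : ℤ) * Fintype.card ι ≤ e * Ph x y (fun K => (w K : ℤ)) r →
      e * Ph x y (fun K => (w K : ℤ)) r ≤ b * (Fintype.card ι : ℤ) →
      AllA x y (fun K => ((e1 * w1 K : ℕ) : ℤ)) a1 0 →
      ∀ u ∈ Free r, ∀ v ∈ Free r, u ≠ v →
        -(s1 : ℤ) ≤ ∑ z, pS r (tixA tcs x y (r 0) (r 1) (r 2)) (cixA x y (r 0) (r 1) (r 2))
          (st x y) T u v z := by
  set L : ℕ := 18446744073709551616 with hLdef
  set c0 : ℕ := 2 * (e * C) + 5 * b + 5 * a1 with hc0
  set c1 : ℕ := al * (10 * C) + be * (5 * a1) with hc1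
  refine ⟨T.nj * (L * c0) + 3 * (L * c1), ?_⟩
  intro ι _ x y hG r hr ho0 ho1 hA u hu v hv huv
  set τ := tixA tcs x y (r 0) (r 1) (r 2) with hτ
  set c := cixA x y (r 0) (r 1) (r 2) with hc
  have hCf := cfX hG hL hr.inj hr.st4
  rw [← hτ, ← hc] at hCf
  have tu := hCf.ty u hu
  have tv := hCf.ty v hv
  have tc := hCf.lt u hu v hv huv
  have tvp := hCf.vp u hu v hv huv
  have hwC : ∀ k, |(fun K => (w K : ℤ)) k| ≤ (C : ℤ) := by
    intro k
    simp only
    rw [abs_of_nonneg (Int.natCast_nonneg _)]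
    exact_mod_cast hC k
  have hcode : ∀ z ∈ Free r, 2048 + tcs.getD (τ z) 0 = code x y (r 0) (r 1) (r 2) z := by
    intro z hz
    have h1 := getD_tixA hG hL.types hr.inj hr.st4 hz 0
    rw [hτ, h1, code_tau hr.st4]
  have hm := hL.m2 (τ u) (by rw [← hL.nt]; exact tu) (τ v) (by rw [← hL.nt]; exact tv) _ tc tvp
  have d0 : dg0 (c u v) = st x y (r 0) u v := dg0_cixA ..
  have d1 : dg1 (c u v) = st x y (r 1) u v := dg1_cixA ..
  have d2 : dg2 (c u v) = st x y (r 2) u v := dg2_cixA ..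
  rw [d0, d1, d2] at hm
  have hsplit : ∑ z, pS r τ c (st x y) T u v z =
      ∑ z, (if Dz r u v z then (∑ j ∈ range T.nj, ((T.oo j (τ u) (τ v) (c u v) : ℕ) : ℤ) *
          T.FJ j (τ z)) +
        (((T.mm 0 (τ u) (τ v) (c u v) : ℕ) : ℤ) *
            ((T.gm (τ z) : ℤ) - T.wv (code x y (r 0) u v z)) +
        ((T.mm 1 (τ u) (τ v) (c u v) : ℕ) : ℤ) *
            ((T.gm (τ z) : ℤ) - T.wv (code x y (r 1) u v z)) +
          ((T.mm 2 (τ u) (τ v) (c u v) : ℕ) : ℤ) *
            ((T.gm (τ z) : ℤ) - T.wv (code x y (r 2) u v z))) else 0) := by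
    refine sum_congr rfl fun z _ => ?_
    by_cases hz : Dz r u v z
    · have hz' : z ∈ Free r ∧ z ≠ u ∧ z ≠ v := hz
      unfold pS
      rw [if_pos hz', if_pos hz]
      unfold Tb.PF Tb.PX Tb.PP Tb.GO
      obtain ⟨k0, k1, k2⟩ := code_cix (x := x) (y := y) (r 0) (r 1) (r 2) u v z
      rw [hc, k0, k1, k2]
    · have hz' : ¬ (z ∈ Free r ∧ z ≠ u ∧ z ≠ v) := hz
      unfold pS
      rw [if_neg hz', if_neg hz]
  rw [hsplit]
  have hac : AcT x y r := ⟨hr.inj, by rw [hr.st4]⟩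
  have w10 : ∀ k, 0 ≤ (fun K => ((e1 * w1 K : ℕ) : ℤ)) k := fun k => Int.natCast_nonneg _
  have ha10 : (0 : ℤ) ≤ a1 := Int.natCast_nonneg _
  have key := pair_sumC (r := r) (u := u) (v := v) (nj := T.nj)
    (o := fun j => T.oo j (τ u) (τ v) (c u v)) (mm := fun k => T.mm k (τ u) (τ v) (c u v))
    (F := fun j z => T.FJ j (τ z))
    (G := fun k z => (T.gm (τ z) : ℤ) - T.wv (code x y (r (Fin.ofNat 3 k)) u v z))
    (c0 := (c0 : ℤ)) (c1 := (c1 : ℤ)) (L := L) (Int.natCast_nonneg _) (Int.natCast_nonneg _)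
    (by
      intro j hj
      rw [hM.nj] at hj
      have b0 : (0 : ℤ) ≤ (e : ℤ) * C := by positivity
      have b1 : (0 : ℤ) ≤ (b : ℤ) := Int.natCast_nonneg _
      have hc0' : (c0 : ℤ) = 2 * ((e : ℤ) * C) + 5 * b + 5 * a1 := by rw [hc0]; push_cast; ring
      have hj3 : j = 0 ∨ j = 1 ∨ j = 2 := by omega
      rcases hj3 with rfl | rfl | rfl
      · have q1 := own_ge (x := x) (y := y) hC (e := e) (a := a) (r := r) u v ho0
        have q2 : ∑ z, (if Dz r u v z then T.FJ 0 (τ z) else 0) =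
            ∑ z, (if Dz r u v z then (e : ℤ) * w (code x y (r 0) (r 1) (r 2) z) - a else 0) := by
          refine sum_congr rfl fun z _ => ?_
          by_cases hz : Dz r u v z
          · rw [if_pos hz, if_pos hz, hM.f0 _ (hCf.ty z hz.1), hcode z hz.1]
          · rw [if_neg hz, if_neg hz]
        rw [q2, hc0']
        linarith
      · have q1 := own_le (x := x) (y := y) (w := w) (e := e) (b := b) (r := r) u v ho1
        have q2 : ∑ z, (if Dz r u v z then T.FJ 1 (τ z) else 0) =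
            ∑ z, (if Dz r u v z then (b : ℤ) - e * w (code x y (r 0) (r 1) (r 2) z) else 0) := by
          refine sum_congr rfl fun z _ => ?_
          by_cases hz : Dz r u v z
          · rw [if_pos hz, if_pos hz, hM.f1 _ (hCf.ty z hz.1), hcode z hz.1]
          · rw [if_neg hz, if_neg hz]
        rw [q2, hc0']
        linarith
      · have q1 := row_acute (r := r) (u := u) (v := v) hA w10 ha10 hac (fun z hz => hz.1)
        have q2 : ∑ z, (if Dz r u v z then T.FJ 2 (τ z) else 0) =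
            ∑ z, (if Dz r u v z then (a1 : ℤ) -
              (fun K => ((e1 * w1 K : ℕ) : ℤ)) (code x y (r 0) (r 1) (r 2) z) else 0) := by
          refine sum_congr rfl fun z _ => ?_
          by_cases hz : Dz r u v z
          · rw [if_pos hz, if_pos hz, hM.f2 _ (hCf.ty z hz.1), hcode z hz.1]
            push_cast
            ring
          · rw [if_neg hz, if_neg hz]
        rw [q2, hc0']
        linarith)
    (by
      intro k hk hne
      set kk : Fin 3 := Fin.ofNat 3 k with hkk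
      have hst : st x y (r kk) u v % 4 = 0 := by
        by_contra h0
        have hk3 : k = 0 ∨ k = 1 ∨ k = 2 := by omega
        rcases hk3 with rfl | rfl | rfl
        · exact hne (hm.1 h0)
        · exact hne (hm.2.1 h0)
        · exact hne (hm.2.2 h0)
      have x1 := exch2 hwC hr hu hv huv kk hst
      have hq : AcT x y ![r kk, u, v] :=
        ⟨(inj_iff _).2 ⟨(hu kk).symm, (hv kk).symm, huv⟩, hst⟩
      have x2 := row_acute (r := r) (u := u) (v := v) hA w10 ha10 hq (fun z hz => by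
        rw [forall_fin3]
        exact ⟨hz.1 kk, hz.2.1, hz.2.2⟩)
      have e5 : ∑ z, (if Dz r u v z then (T.gm (τ z) : ℤ) - T.wv (code x y (r kk) u v z)
            else 0) =
          (be : ℤ) * ∑ z, (if Dz r u v z then (a1 : ℤ) - (fun K => ((e1 * w1 K : ℕ) : ℤ))
            (code x y (![r kk, u, v] 0) (![r kk, u, v] 1) (![r kk, u, v] 2) z) else 0) -
          al * ∑ z, (if (∀ k, z ≠ r k) ∧ z ≠ u ∧ z ≠ v then
            (fun K => (w K : ℤ)) (code x y (r kk) u v z) -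
              (fun K => (w K : ℤ)) (2048 + tau x y (r 0) (r 1) (r 2) z) else 0) := by
        rw [mul_sum, mul_sum, ← sum_sub_distrib]
        refine sum_congr rfl fun z _ => ?_
        by_cases hz : Dz r u v z
        · have hz' : (∀ k, z ≠ r k) ∧ z ≠ u ∧ z ≠ v := hz
          rw [if_pos hz, if_pos hz, if_pos hz']
          have g1 := hM.gm _ (hCf.ty z hz.1)
          have g2 := hM.wv _ (code_lt x y (r kk) u v z)
          rw [hcode z hz.1] at g1
          rw [g1, g2, ← code_tau hr.st4]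
          have g3 : code x y (![r kk, u, v] 0) (![r kk, u, v] 1) (![r kk, u, v] 2) z =
            code x y (r kk) u v z := rfl
          rw [g3]
          push_cast
          ring
        · have hz' : ¬ ((∀ k, z ≠ r k) ∧ z ≠ u ∧ z ≠ v) := hz
          rw [if_neg hz, if_neg hz, if_neg hz']
          ring
      rw [e5]
      have a5 := mul_le_mul_of_nonneg_left x1 (Int.natCast_nonneg al)
      have a6 := mul_le_mul_of_nonneg_left x2 (Int.natCast_nonneg be)
      have hc1' : (c1 : ℤ) = al * (10 * C) + be * (5 * a1) := by rw [hc1]; push_cast; ring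
      rw [hc1']
      linarith)
    (fun j _ => oo_lt T j _ _ _) (fun k _ => mm_lt T k _ _ _)
  push_cast at key ⊢
  exact key

/-- **The rows of one root** -/
theorem one_rows2 (hM : Mix T tcs w w1 e a b e1 a1 al be al' be') (hL : LinkT T tcs) {C s0 : ℕ}
    (hC : ∀ K, w K ≤ C) (hs : ∀ k < T.nk, al' k * (2 * C) + be' k * (4 * a1) ≤ s0)
    {ι : Type*} [Fintype ι] {x y : ι → ℝ} (hG : GN x y) {r : Fin 3 → ι}
    (hr : MaxT x y (fun K => (w K : ℤ)) r)
    (hA : AllA x y (fun K => ((e1 * w1 K : ℕ) : ℤ)) a1 0) :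
    ∀ u ∈ Free r, ∀ k < T.nk, (∃ j, T.lam k (tixA tcs x y (r 0) (r 1) (r 2) u) j ≠ 0) →
      ∑ v, exS r (tixA tcs x y (r 0) (r 1) (r 2)) (cixA x y (r 0) (r 1) (r 2)) T k u v ≤
        (s0 : ℤ) := by
  intro u hu k hk hne
  have hwC : ∀ k, |(fun K => (w K : ℤ)) k| ≤ (C : ℤ) := by
    intro k
    simp only
    rw [abs_of_nonneg (Int.natCast_nonneg _)]
    exact_mod_cast hC k
  set kk : Fin 3 := ⟨k % 3, Nat.mod_lt _ (by norm_num)⟩ with hkk
  obtain ⟨j, hj⟩ := hne
  have e1' : tcs.getD (tixA tcs x y (r 0) (r 1) (r 2) u) 0 =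
      tau x y (r 0) (r 1) (r 2) u := getD_tixA hG hL.types hr.inj hr.st4 hu 0
  have hp := tixA_lt hG hL.types hr.inj hr.st4 hu
  have hx : xst kk (tau x y (r 0) (r 1) (r 2) u) % 4 = 0 := by
    by_contra h0
    rw [← e1'] at h0
    exact hj (hM.lam k hk _ hp h0 j)
  have h1 := hr.exch hG hwC hu kk hx
  have h2 := exchB hG hA (fun k => Int.natCast_nonneg _) (Int.natCast_nonneg _) hr.inj hu kk hx
  have h3 : ∑ v, exS r (tixA tcs x y (r 0) (r 1) (r 2)) (cixA x y (r 0) (r 1) (r 2)) T k u v =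
      (al' k : ℤ) * ∑ v, (if (∀ k, v ≠ r k) ∧ u ≠ v then
        (fun K => (w K : ℤ)) (xch kk (tau x y (r 0) (r 1) (r 2) u) (tau x y (r 0) (r 1) (r 2) v)
          (cixA x y (r 0) (r 1) (r 2) u v)) -
          (fun K => (w K : ℤ)) (2048 + tau x y (r 0) (r 1) (r 2) v) else 0) +
      be' k * ∑ v, (if (∀ k, v ≠ r k) ∧ u ≠ v then
        (fun K => ((e1 * w1 K : ℕ) : ℤ)) (xch kk (tau x y (r 0) (r 1) (r 2) u)
          (tau x y (r 0) (r 1) (r 2) v) (cixA x y (r 0) (r 1) (r 2) u v)) - a1 else 0) := by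
    rw [mul_sum, mul_sum, ← sum_add_distrib]
    refine sum_congr rfl fun v _ => ?_
    unfold exS fg
    by_cases g : (∀ j, v ≠ r j) ∧ u ≠ v
    · have g' : v ∈ Free r ∧ v ≠ u := ⟨g.1, g.2.symm⟩
      rw [if_pos g, if_pos g, if_pos g']
      have e2 : tcs.getD (tixA tcs x y (r 0) (r 1) (r 2) v) 0 =
          tau x y (r 0) (r 1) (r 2) v := getD_tixA hG hL.types hr.inj hr.st4 g.1 0
      have hq := tixA_lt hG hL.types hr.inj hr.st4 g.1
      have h2 := hM.ev k hk _ hp _ hq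
        (cixA x y (r 0) (r 1) (r 2) u v) (cixA_lt ..)
        (by rw [e1', e2]; exact pairT_ok hG hr.inj hu g.1 g.2) (by rw [e1']; exact hx)
      rw [h2, e1', e2]
      push_cast
      ring
    · have g' : ¬ (v ∈ Free r ∧ v ≠ u) := fun h => g ⟨h.1, h.2.symm⟩
      rw [if_neg g, if_neg g, if_neg g', mul_zero, mul_zero, add_zero]
  rw [h3]
  have h4 := mul_le_mul_of_nonneg_left h1 (Int.natCast_nonneg (al' k))
  have h5 := mul_le_mul_of_nonneg_left h2 (Int.natCast_nonneg (be' k))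
  have h6 : ((al' k * (2 * C) + be' k * (4 * a1) : ℕ) : ℤ) ≤ s0 := by exact_mod_cast hs k hk
  push_cast at h6
  linarith

/-- **A certificate of a strip under a condition on a second weight** -/
theorem strip_dec2 {C s0 : ℕ} (hN : ∀ s1, NB T s0 s1)
    (hM : Mix T tcs w w1 e a b e1 a1 al be al' be') (hL : LinkT T tcs)
    (hC : ∀ K, w K ≤ C) (hs : ∀ k < T.nk, al' k * (2 * C) + be' k * (4 * a1) ≤ s0) :
    Dec fun S => Btw w e a b S ∧ Low w1 e1 a1 S := by
  obtain ⟨s1, hp⟩ := pair_rows2 hM hL hC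
  obtain ⟨M, C', hM', hC', hb⟩ := hN s1
  refine ⟨M, C', 0, hM', hC', ?_⟩
  rintro S η hη _ hS _ hlt ⟨⟨r, hr, ho0, ho1⟩, hlow⟩
  have hg := gn_of hS.gen hS.nr
  have hA : AllA (X S) (Y S) (fun K => ((e1 * w1 K : ℕ) : ℤ)) a1 0 := by
    intro r' hr'
    have h1 := hlow r' hr'
    rw [Ph_mul (X S) (Y S) (w := fun K => (w1 K : ℤ)) (w' := fun K => ((e1 * w1 K : ℕ) : ℤ))
      (c := (e1 : ℤ)) (fun K _ => by push_cast; ring) r', add_zero]
    exact h1
  refine hb S η hη.le hS r (tixA tcs (X S) (Y S) (r 0) (r 1) (r 2))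
    (cixA (X S) (Y S) (r 0) (r 1) (r 2)) (st (X S) (Y S)) (cfX hg hL hr.inj hr.st4) ?_ ?_ ?_ ?_ hlt
  · intro u _ v _ z _ h1 h2 h3
    exact Nf_na h1 h2 h3
  · intro u hu v hv huv
    rw [dg0_cixA, dg1_cixA, dg2_cixA]
    exact ⟨Nf_na (hu 0).symm huv (hv 0).symm, Nf_na (hu 1).symm huv (hv 1).symm,
      Nf_na (hu 2).symm huv (hv 2).symm⟩
  · intro u hu k hk hne
    exact one_rows2 hM hL hC hs hg hr hA u hu k hk hne
  · intro u hu v hv huv
    exact hp S (X S) (Y S) hg r hr ho0 ho1 hA u hu v hv huv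

end Pool.Agent.AKX
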