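import Pool.Agent.AKX.Eng
import Pool.Agent.AKU.Sym

set_option autoImplicit false

/-!
# Rooted certificates with rows at pairs: orders of the free points, symmetries of the roots
-/

namespace Pool.Agent.AKX

open Finset Pool.Agent.AKU

/-- sum over the six orders -/
def s6 {ι : Type*} (g : ι → ι → ι → ℤ) (x y z : ι) : ℤ :=
  g x y z + g x z y + g y x z + g y z x + g z x y + g z y x

theorem s6_perm1 {ι : Type*} (g : ι → ι → ι → ℤ) (x y z : ι) : s6 g x y z = s6 g y x z := by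
  unfold s6; ring

theorem s6_perm2 {ι : Type*} (g : ι → ι → ι → ℤ) (x y z : ι) : s6 g x y z = s6 g x z y := by
  unfold s6; ring

theorem s6_add {ι : Type*} (g h : ι → ι → ι → ℤ) (x y z : ι) :
    s6 (fun a b c => g a b c + h a b c) x y z = s6 g x y z + s6 h x y z := by
  unfold s6; ring

/-- code of the four points `r, y, x, z` from that of `r, x, y, z` -/
def q23 (K : Nat) : Nat :=
  512 * rvd (K / 512) + 64 * (K / 8 % 8) + 8 * (K / 64 % 8) + rvd (rot (K % 8))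

theorem q23_mk {a b c d : Nat} (hb : b < 8) (hc : c < 8) (hd : d < 8) :
    q23 (512 * a + 64 * b + 8 * c + d) = 512 * rvd a + 64 * c + 8 * b + rvd (rot d) := by
  have e1 : (512 * a + 64 * b + 8 * c + d) / 64 % 8 = b := by omega
  have e2 : (512 * a + 64 * b + 8 * c + d) / 512 = a := by omega
  have e3 : (512 * a + 64 * b + 8 * c + d) / 8 % 8 = c := by omega
  have e4 : (512 * a + 64 * b + 8 * c + d) % 8 = d := by omega
  unfold q23
  rw [e1, e2, e3, e4]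

theorem na_rot {d : Nat} (hd : d < 8) : na (rot d) = na d := by
  interval_cases d <;> decide

namespace Tb

variable (T : Tb)

/-- the blocks of the main check are the positive semidefinite blocks plus the rows -/
def Spl : Prop := ∀ p i j, T.Mt p i j = T.Qt p i j + (T.XO p i j + T.XO p j i)

/-- the multipliers at pairs do not depend on the order of the pair -/
def MSym : Prop := ∀ p < T.nt, ∀ q < T.nt, ∀ s < 512, T.vp p q s = true → T.vp q p (rv3 s) = true →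
  (T.mm 0 q p (rv3 s) = T.mm 0 p q s ∧ T.mm 1 q p (rv3 s) = T.mm 1 p q s ∧
    T.mm 2 q p (rv3 s) = T.mm 2 p q s) ∧
  ∀ j < T.nj, T.oo j q p (rv3 s) = T.oo j p q s

/-- the multiplier of the subset rows is symmetric -/
def USym : Prop := ∀ p q r, T.u3 q p r = T.u3 p q r ∧ T.u3 p r q = T.u3 p q r

/-- the weight does not depend on the order of the second and the third point -/
def WSym : Prop := ∀ K < 4096, T.TAB.testBit K = true → T.wv (q23 K) = T.wv K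

/-- the certificate function at an ordered triple of free points: types `p1 p2 p3`, codes of the
pairs `(y1, y2)`, `(y1, y3)`, `(y2, y3)`, non-acute indicator `n` of the triple -/
noncomputable def GV (p1 p2 p3 c12 c13 c23 n : Nat) : ℤ :=
  T.Q0 p1 p2 + T.Qt p1 (T.fl p1 p2 c12) (T.fl p1 p3 c13) +
    2 * T.XO p1 (T.fl p1 p2 c12) (T.fl p1 p3 c13) +
    T.Mu p1 * (4 - 9 * n) + T.u3 p1 p2 p3 * (T.ld * n - T.ln) + T.NN p1 c23

/-- the whole function -/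
noncomputable def VX (p q r A B C d : Nat) : ℤ :=
  T.VV p q r A B C (na d) + T.XV p q r A B C d

/-- the configuration of three free points -/
structure Cf (N : Nat) {ι : Type*} (τ : ι → Nat) (c : ι → ι → Nat) (d : ι → ι → ι → Nat)
    (F : Set ι) : Prop where
  ty : ∀ x ∈ F, τ x < N
  lt : ∀ x ∈ F, ∀ y ∈ F, x ≠ y → c x y < 512
  vp : ∀ x ∈ F, ∀ y ∈ F, x ≠ y → T.vp (τ x) (τ y) (c x y) = true
  rv : ∀ x ∈ F, ∀ y ∈ F, x ≠ y → c y x = rv3 (c x y)
  dlt : ∀ x ∈ F, ∀ y ∈ F, ∀ z ∈ F, x ≠ y → y ≠ z → x ≠ z → d x y z < 8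
  tst : ∀ x ∈ F, ∀ y ∈ F, ∀ z ∈ F, x ≠ y → y ≠ z → x ≠ z →
    T.tst (c x y) (c x z) (c y z) (d x y z) = true
  d23 : ∀ x ∈ F, ∀ y ∈ F, ∀ z ∈ F, x ≠ y → y ≠ z → x ≠ z → d x z y = rvd (d x y z)
  d31 : ∀ x ∈ F, ∀ y ∈ F, ∀ z ∈ F, x ≠ y → y ≠ z → x ≠ z → d y z x = rot (d x y z)

variable {T}

variable (T) in
/-- the certificate function at three points -/
noncomputable def GF {ι : Type*} (τ : ι → Nat) (c : ι → ι → Nat) (d : ι → ι → ι → Nat)
    (x y z : ι) : ℤ :=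
  T.GV (τ x) (τ y) (τ z) (c x y) (c x z) (c y z) (na (d x y z))

variable (T) in
/-- the rows at pairs, at three points -/
noncomputable def PF {ι : Type*} (τ : ι → Nat) (c : ι → ι → Nat) (d : ι → ι → ι → Nat)
    (x y z : ι) : ℤ :=
  T.PX (τ x) (τ y) (τ z) (c x y) (c x z) (c y z) (d x y z)

variable (T) in
/-- the whole function at three points -/
noncomputable def VF {ι : Type*} (τ : ι → Nat) (c : ι → ι → Nat) (d : ι → ι → ι → Nat)
    (x y z : ι) : ℤ :=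
  T.VX (τ x) (τ y) (τ z) (c x y) (c x z) (c y z) (d x y z)

theorem NN_rv3 (p s : Nat) : T.NN p (rv3 s) = T.NN p s := by
  unfold NN
  rw [na0_rv3, na1_rv3, na2_rv3]

section

variable {N : Nat} {ι : Type*} {τ : ι → Nat} {c : ι → ι → Nat} {d : ι → ι → ι → Nat} {F : Set ι}

theorem Cf.d21 (h : T.Cf N τ c d F) {x y z : ι} (hx : x ∈ F) (hy : y ∈ F) (hz : z ∈ F)
    (hxy : x ≠ y) (hyz : y ≠ z) (hxz : x ≠ z) : d y x z = rvd (rot (d x y z)) := by
  rw [h.d23 y hy z hz x hx hyz hxz.symm hxy.symm, h.d31 x hx y hy z hz hxy hyz hxz]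

theorem s6_GF (h : T.Cf N τ c d F) (hS : T.Spl) (hQ0 : ∀ p q, T.Q0 p q = T.Q0 q p)
    (hQt : ∀ p i j, T.Qt p i j = T.Qt p j i) (hU : T.USym)
    {x y z : ι} (hx : x ∈ F) (hy : y ∈ F) (hz : z ∈ F)
    (hxy : x ≠ y) (hyz : y ≠ z) (hxz : x ≠ z) :
    s6 (T.GF τ c d) x y z =
      2 * T.VV (τ x) (τ y) (τ z) (c x y) (c x z) (c y z) (na (d x y z)) := by
  have r1 := h.rv x hx y hy hxy
  have r2 := h.rv x hx z hz hxz
  have r3 := h.rv y hy z hz hyz
  have l1 := h.dlt x hx y hy z hz hxy hyz hxz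
  have e1 : na (d x z y) = na (d x y z) := by
    rw [h.d23 x hx y hy z hz hxy hyz hxz, na_rvd l1]
  have e3 : na (d y z x) = na (d x y z) := by
    rw [h.d31 x hx y hy z hz hxy hyz hxz, na_rot l1]
  have e2 : na (d y x z) = na (d x y z) := by
    rw [h.d23 y hy z hz x hx hyz hxz.symm hxy.symm,
      na_rvd (h.dlt y hy z hz x hx hyz hxz.symm hxy.symm), e3]
  have e5 : na (d z y x) = na (d x y z) := by
    rw [h.d31 x hx z hz y hy hxz hyz.symm hxy,
      na_rot (h.dlt x hx z hz y hy hxz hyz.symm hxy), e1]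
  have e4 : na (d z x y) = na (d x y z) := by
    rw [h.d23 z hz y hy x hx hyz.symm hxy.symm hxz.symm,
      na_rvd (h.dlt z hz y hy x hx hyz.symm hxy.symm hxz.symm), e5]
  have u1 : T.u3 (τ x) (τ z) (τ y) = T.u3 (τ x) (τ y) (τ z) := (hU _ _ _).2
  have u2 : T.u3 (τ y) (τ x) (τ z) = T.u3 (τ x) (τ y) (τ z) := (hU _ _ _).1
  have u3 : T.u3 (τ y) (τ z) (τ x) = T.u3 (τ x) (τ y) (τ z) := by rw [(hU _ _ _).2, u2]
  have u4 : T.u3 (τ z) (τ x) (τ y) = T.u3 (τ x) (τ y) (τ z) := by rw [(hU _ _ _).1, u1]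
  have u5 : T.u3 (τ z) (τ y) (τ x) = T.u3 (τ x) (τ y) (τ z) := by rw [(hU _ _ _).1, u3]
  unfold s6 GF GV VV
  rw [e1, e2, e3, e4, e5, r1, r2, r3, u1, u2, u3, u4, u5]
  simp only [NN_rv3]
  rw [hQ0 (τ y) (τ x), hQ0 (τ z) (τ x), hQ0 (τ z) (τ y)]
  rw [hS (τ x), hS (τ y), hS (τ z)]
  rw [hQt (τ x) (T.fl (τ x) (τ z) (c x z)) (T.fl (τ x) (τ y) (c x y)),
    hQt (τ y) (T.fl (τ y) (τ z) (c y z)) (T.fl (τ y) (τ x) (rv3 (c x y))),
    hQt (τ z) (T.fl (τ z) (τ y) (rv3 (c y z))) (T.fl (τ z) (τ x) (rv3 (c x z)))]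
  ring

theorem PF_comm (h : T.Cf N τ c d F) (hN : N ≤ T.nt) (hM : T.MSym) (hW : T.WSym)
    {x y z : ι} (hx : x ∈ F) (hy : y ∈ F) (hz : z ∈ F)
    (hxy : x ≠ y) (hyz : y ≠ z) (hxz : x ≠ z) : T.PF τ c d y x z = T.PF τ c d x y z := by
  have l0 := h.dlt x hx y hy z hz hxy hyz hxz
  have r1 := h.rv x hx y hy hxy
  have hv := h.vp x hx y hy hxy
  have hv' := h.vp y hy x hx hxy.symm
  rw [r1] at hv'
  obtain ⟨⟨m0, m1, m2⟩, o0⟩ := hM _ ((h.ty x hx).trans_le hN) _ ((h.ty y hy).trans_le hN) _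
    (h.lt x hx y hy hxy) hv hv'
  have o1 : T.GO (τ y) (τ x) (rv3 (c x y)) (τ z) = T.GO (τ x) (τ y) (c x y) (τ z) := by
    unfold GO
    exact sum_congr rfl fun j hj => by rw [o0 j (mem_range.1 hj)]
  have ht := h.tst x hx y hy z hz hxy hyz hxz
  unfold tst at ht
  simp only [Bool.and_eq_true] at ht
  obtain ⟨⟨t0, t1⟩, t2⟩ := ht
  obtain ⟨a8, b8, c8⟩ := dg_lt (c x y)
  obtain ⟨a8', b8', c8'⟩ := dg_lt (c x z)
  obtain ⟨a8'', b8'', c8''⟩ := dg_lt (c y z)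
  have w0 := hW _ (by omega) t0
  have w1 := hW _ (by omega) t1
  have w2 := hW _ (by omega) t2
  rw [q23_mk a8' a8'' l0] at w0
  rw [q23_mk b8' b8'' l0] at w1
  rw [q23_mk c8' c8'' l0] at w2
  obtain ⟨s0, s1, s2⟩ := dg_rv3 (c x y)
  unfold PF PX PP
  rw [h.d21 hx hy hz hxy hyz hxz, r1, m0, m1, m2, o1, s0, s1, s2, w0, w1, w2]

theorem s6_PF (h : T.Cf N τ c d F) (hN : N ≤ T.nt) (hM : T.MSym) (hW : T.WSym)
    {x y z : ι} (hx : x ∈ F) (hy : y ∈ F) (hz : z ∈ F)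
    (hxy : x ≠ y) (hyz : y ≠ z) (hxz : x ≠ z) :
    s6 (T.PF τ c d) x y z = 2 * T.XV (τ x) (τ y) (τ z) (c x y) (c x z) (c y z) (d x y z) := by
  have r1 := h.rv x hx y hy hxy
  have r2 := h.rv x hx z hz hxz
  have r3 := h.rv y hy z hz hyz
  have k1 := PF_comm h hN hM hW hx hy hz hxy hyz hxz
  have k2 := PF_comm h hN hM hW hx hz hy hxz hyz.symm hxy
  have k3 := PF_comm h hN hM hW hy hz hx hyz hxz.symm hxy.symm
  have k4 : T.PF τ c d x z y = T.PX (τ x) (τ z) (τ y) (c x z) (c x y) (rv3 (c y z))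
      (rvd (d x y z)) := by
    unfold PF
    rw [h.d23 x hx y hy z hz hxy hyz hxz, r3]
  have k5 : T.PF τ c d y z x = T.PX (τ y) (τ z) (τ x) (c y z) (rv3 (c x y)) (rv3 (c x z))
      (rot (d x y z)) := by
    unfold PF
    rw [h.d31 x hx y hy z hz hxy hyz hxz, r1, r2]
  unfold s6 XV
  rw [k1, k2, k3, k4, k5]
  unfold PF
  ring

/-- the symmetrised function -/
theorem s6_tot (h : T.Cf N τ c d F) (hN : N ≤ T.nt) (hS : T.Spl)
    (hQ0 : ∀ p q, T.Q0 p q = T.Q0 q p)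
    (hQt : ∀ p i j, T.Qt p i j = T.Qt p j i) (hU : T.USym) (hM : T.MSym) (hW : T.WSym)
    {x y z : ι} (hx : x ∈ F) (hy : y ∈ F) (hz : z ∈ F)
    (hxy : x ≠ y) (hyz : y ≠ z) (hxz : x ≠ z) :
    s6 (fun a b e => T.GF τ c d a b e + T.PF τ c d a b e) x y z = 2 * T.VF τ c d x y z := by
  rw [s6_add, s6_GF h hS hQ0 hQt hU hx hy hz hxy hyz hxz, s6_PF h hN hM hW hx hy hz hxy hyz hxz]
  unfold VF VX
  ring

end

end Tb

/-! ### symmetries of the roots -/

/-- a symmetry: on types, on states, on the numbers of the roots, on flags, on the numbers of the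
rows -/
structure Sy where
  tp : Nat → Nat
  sp : Nat → Nat
  rk : Nat → Nat
  pm : Nat → Nat → Nat
  jk : Nat → Nat

/-- digit of a code -/
def dgs (k s : Nat) : Nat := (s >>> (3 * k)) % 8

theorem dgs0 (s : Nat) : dgs 0 s = dg0 s := rfl
theorem dgs1 (s : Nat) : dgs 1 s = dg1 s := rfl
theorem dgs2 (s : Nat) : dgs 2 s = dg2 s := rfl

namespace Sy

variable (g : Sy)

/-- the code of a pair -/
def cd (s : Nat) : Nat :=
  g.sp (dgs (g.rk 0) s) + 8 * g.sp (dgs (g.rk 1) s) + 64 * g.sp (dgs (g.rk 2) s)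

/-- the code of four points -/
def sk (K : Nat) : Nat :=
  512 * g.sp (K / 512) + 64 * g.sp (K / 64 % 8) + 8 * g.sp (K / 8 % 8) + g.sp (K % 8)

end Sy

theorem sk_mk (g : Sy) {a b c d : Nat} (hb : b < 8) (hc : c < 8) (hd : d < 8) :
    g.sk (512 * a + 64 * b + 8 * c + d) = 512 * g.sp a + 64 * g.sp b + 8 * g.sp c + g.sp d := by
  have e1 : (512 * a + 64 * b + 8 * c + d) / 64 % 8 = b := by omega
  have e2 : (512 * a + 64 * b + 8 * c + d) / 512 = a := by omega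
  have e3 : (512 * a + 64 * b + 8 * c + d) / 8 % 8 = c := by omega
  have e4 : (512 * a + 64 * b + 8 * c + d) % 8 = d := by omega
  unfold Sy.sk
  rw [e1, e2, e3, e4]

/-- the numbers `a b c` are `0 1 2` in some order -/
def Pm (a b c : Nat) : Prop :=
  (a = 0 ∧ b = 1 ∧ c = 2) ∨ (a = 0 ∧ b = 2 ∧ c = 1) ∨ (a = 1 ∧ b = 0 ∧ c = 2) ∨
    (a = 1 ∧ b = 2 ∧ c = 0) ∨ (a = 2 ∧ b = 0 ∧ c = 1) ∨ (a = 2 ∧ b = 1 ∧ c = 0)

theorem Pm.sum {a b c : Nat} (h : Pm a b c) (f : Nat → ℤ) : f a + f b + f c = f 0 + f 1 + f 2 := by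
  rcases h with ⟨rfl, rfl, rfl⟩ | ⟨rfl, rfl, rfl⟩ | ⟨rfl, rfl, rfl⟩ | ⟨rfl, rfl, rfl⟩ |
    ⟨rfl, rfl, rfl⟩ | ⟨rfl, rfl, rfl⟩ <;> ring

theorem Pm.all {a b c : Nat} (h : Pm a b c) {P : Nat → Prop} (h0 : P 0) (h1 : P 1) (h2 : P 2) :
    P a ∧ P b ∧ P c := by
  rcases h with ⟨rfl, rfl, rfl⟩ | ⟨rfl, rfl, rfl⟩ | ⟨rfl, rfl, rfl⟩ | ⟨rfl, rfl, rfl⟩ |
    ⟨rfl, rfl, rfl⟩ | ⟨rfl, rfl, rfl⟩ <;> exact ⟨by assumption, by assumption, by assumption⟩

namespace Tb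

variable (T : Tb)

/-- the certificate is invariant under the symmetry -/
structure Inv (g : Sy) : Prop where
  sp8 : ∀ d < 8, g.sp d < 8
  spna : ∀ d < 8, na (g.sp d) = na d
  sprv : ∀ d < 8, g.sp (rvd d) = rvd (g.sp d)
  sprot : ∀ d < 8, g.sp (rot d) = rot (g.sp d)
  rk : Pm (g.rk 0) (g.rk 1) (g.rk 2)
  tb : ∀ K < 4096, T.TAB.testBit K = true →
    T.TAB.testBit (g.sk K) = true ∧ T.wv (g.sk K) = T.wv K
  tpl : ∀ p < T.nt, g.tp p < T.nt
  flg : ∀ p < T.nt, ∀ q < T.nt, ∀ s < 512, T.vp p q s = true →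
    T.vp (g.tp p) (g.tp q) (g.cd s) = true ∧
    T.fl (g.tp p) (g.tp q) (g.cd s) = g.pm p (T.fl p q s) ∧ T.fl p q s < T.nb p
  blk : ∀ p < T.nt, ∀ i < T.nb p, ∀ j < T.nb p,
    T.Mt (g.tp p) (g.pm p i) (g.pm p j) = T.Mt p i j
  q0 : ∀ p < T.nt, ∀ q < T.nt, T.Q0 (g.tp p) (g.tp q) = T.Q0 p q
  mu : ∀ p < T.nt, T.mu (g.tp p) = T.mu p
  nu : ∀ p < T.nt, T.nu 0 (g.tp p) = T.nu (g.rk 0) p ∧ T.nu 1 (g.tp p) = T.nu (g.rk 1) p ∧
    T.nu 2 (g.tp p) = T.nu (g.rk 2) p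
  mv : ∀ p < T.nt, ∀ i < T.nb p, lk (T.mv 0 (g.tp p)) (g.pm p i) = lk (T.mv (g.rk 0) p) i ∧
    lk (T.mv 1 (g.tp p)) (g.pm p i) = lk (T.mv (g.rk 1) p) i ∧
    lk (T.mv 2 (g.tp p)) (g.pm p i) = lk (T.mv (g.rk 2) p) i
  ov : ∀ p < T.nt, ∀ i < T.nb p, ∀ j < T.nj,
    lk (T.ov (g.jk j) (g.tp p)) (g.pm p i) = lk (T.ov j p) i
  fj : ∀ r < T.nt, ∀ j < T.nj, T.FJ (g.jk j) (g.tp r) = T.FJ j r
  gm : ∀ p < T.nt, T.gm (g.tp p) = T.gm p
  jk : ∀ f : Nat → ℤ, ∑ j ∈ range T.nj, f (g.jk j) = ∑ j ∈ range T.nj, f j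
  u3 : ∀ p < T.nt, ∀ q < T.nt, ∀ r < T.nt, T.u3 (g.tp p) (g.tp q) (g.tp r) = T.u3 p q r

variable {T}

section

variable {N : Nat} {ι : Type*} {τ : ι → Nat} {c : ι → ι → Nat} {d : ι → ι → ι → Nat} {F : Set ι}

theorem dgs_lt (k s : Nat) : dgs k s < 8 := Nat.mod_lt _ (by norm_num)

theorem dgs_rv3 {k : Nat} (hk : k < 3) (s : Nat) : dgs k (rv3 s) = rvd (dgs k s) := by
  obtain ⟨s0, s1, s2⟩ := dg_rv3 s
  interval_cases k
  · rw [dgs0, dgs0]; exact s0
  · rw [dgs1, dgs1]; exact s1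
  · rw [dgs2, dgs2]; exact s2

theorem Inv.dg_cd {g : Sy} (h : T.Inv g) (s : Nat) : dg0 (g.cd s) = g.sp (dgs (g.rk 0) s) ∧
    dg1 (g.cd s) = g.sp (dgs (g.rk 1) s) ∧ dg2 (g.cd s) = g.sp (dgs (g.rk 2) s) :=
  dg_mk (h.sp8 _ (dgs_lt _ _)) (h.sp8 _ (dgs_lt _ _)) (h.sp8 _ (dgs_lt _ _))

theorem Inv.rv3_cd {g : Sy} (h : T.Inv g) (s : Nat) : g.cd (rv3 s) = rv3 (g.cd s) := by
  obtain ⟨s0, s1, s2⟩ := h.dg_cd s
  obtain ⟨k0, k1, k2⟩ := h.rk.all (P := fun k => k < 3) (by norm_num) (by norm_num) (by norm_num)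
  show g.sp (dgs (g.rk 0) (rv3 s)) + 8 * g.sp (dgs (g.rk 1) (rv3 s)) +
    64 * g.sp (dgs (g.rk 2) (rv3 s)) = rvd (dg0 (g.cd s)) + 8 * rvd (dg1 (g.cd s)) +
    64 * rvd (dg2 (g.cd s))
  rw [s0, s1, s2, dgs_rv3 k0, dgs_rv3 k1, dgs_rv3 k2, h.sprv _ (dgs_lt _ _),
    h.sprv _ (dgs_lt _ _), h.sprv _ (dgs_lt _ _)]

/-- the transformed code of four points -/
theorem Inv.codes {g : Sy} (h : T.Inv g) {A B C e : Nat} (he : e < 8)
    (ht : T.tst A B C e = true) :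
    (T.TAB.testBit (512 * dg0 (g.cd A) + 64 * dg0 (g.cd B) + 8 * dg0 (g.cd C) + g.sp e) = true ∧
      T.wv (512 * dg0 (g.cd A) + 64 * dg0 (g.cd B) + 8 * dg0 (g.cd C) + g.sp e) =
        T.wv (512 * dgs (g.rk 0) A + 64 * dgs (g.rk 0) B + 8 * dgs (g.rk 0) C + e)) ∧
    (T.TAB.testBit (512 * dg1 (g.cd A) + 64 * dg1 (g.cd B) + 8 * dg1 (g.cd C) + g.sp e) = true ∧
      T.wv (512 * dg1 (g.cd A) + 64 * dg1 (g.cd B) + 8 * dg1 (g.cd C) + g.sp e) =
        T.wv (512 * dgs (g.rk 1) A + 64 * dgs (g.rk 1) B + 8 * dgs (g.rk 1) C + e)) ∧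
    (T.TAB.testBit (512 * dg2 (g.cd A) + 64 * dg2 (g.cd B) + 8 * dg2 (g.cd C) + g.sp e) = true ∧
      T.wv (512 * dg2 (g.cd A) + 64 * dg2 (g.cd B) + 8 * dg2 (g.cd C) + g.sp e) =
        T.wv (512 * dgs (g.rk 2) A + 64 * dgs (g.rk 2) B + 8 * dgs (g.rk 2) C + e)) := by
  have key : ∀ k < 3, T.TAB.testBit (512 * dgs k A + 64 * dgs k B + 8 * dgs k C + e) = true := by
    unfold tst at ht
    simp only [Bool.and_eq_true] at ht
    obtain ⟨⟨t0, t1⟩, t2⟩ := ht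
    intro k hk
    interval_cases k
    · exact t0
    · exact t1
    · exact t2
  obtain ⟨A0, A1, A2⟩ := h.dg_cd A
  obtain ⟨B0, B1, B2⟩ := h.dg_cd B
  obtain ⟨C0, C1, C2⟩ := h.dg_cd C
  obtain ⟨k0, k1, k2⟩ := h.rk.all (P := fun k => k < 3) (by norm_num) (by norm_num) (by norm_num)
  rw [A0, A1, A2, B0, B1, B2, C0, C1, C2]
  have fin : ∀ k < 3, T.TAB.testBit (512 * g.sp (dgs k A) + 64 * g.sp (dgs k B) +
      8 * g.sp (dgs k C) + g.sp e) = true ∧ T.wv (512 * g.sp (dgs k A) + 64 * g.sp (dgs k B) +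
      8 * g.sp (dgs k C) + g.sp e) = T.wv (512 * dgs k A + 64 * dgs k B + 8 * dgs k C + e) := by
    intro k hk
    have u1 := dgs_lt k A
    have u2 := dgs_lt k B
    have u3 := dgs_lt k C
    have h1 := h.tb _ (by omega) (key k hk)
    rw [sk_mk g u2 u3 he] at h1
    exact h1
  exact ⟨fin _ k0, fin _ k1, fin _ k2⟩

/-- the transformed configuration -/
theorem Inv.cf {g : Sy} (h : T.Inv g) (hN : N = T.nt) (hc : T.Cf N τ c d F) :
    T.Cf N (fun x => g.tp (τ x)) (fun x y => g.cd (c x y)) (fun x y z => g.sp (d x y z)) F where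
  ty x hx := by
    subst hN
    exact h.tpl _ (hc.ty x hx)
  lt x hx y hy hxy := by
    have h0 := h.sp8 _ (dgs_lt (g.rk 0) (c x y))
    have h1 := h.sp8 _ (dgs_lt (g.rk 1) (c x y))
    have h2 := h.sp8 _ (dgs_lt (g.rk 2) (c x y))
    show g.sp (dgs (g.rk 0) (c x y)) + 8 * g.sp (dgs (g.rk 1) (c x y)) +
      64 * g.sp (dgs (g.rk 2) (c x y)) < 512
    omega
  vp x hx y hy hxy := by
    subst hN
    exact (h.flg _ (hc.ty x hx) _ (hc.ty y hy) _ (hc.lt x hx y hy hxy) (hc.vp x hx y hy hxy)).1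
  rv x hx y hy hxy := by
    show g.cd (c y x) = rv3 (g.cd (c x y))
    rw [hc.rv x hx y hy hxy, h.rv3_cd]
  dlt x hx y hy z hz hxy hyz hxz := h.sp8 _ (hc.dlt x hx y hy z hz hxy hyz hxz)
  tst x hx y hy z hz hxy hyz hxz := by
    obtain ⟨⟨a, -⟩, ⟨b, -⟩, e, -⟩ := h.codes (hc.dlt x hx y hy z hz hxy hyz hxz)
      (hc.tst x hx y hy z hz hxy hyz hxz)
    unfold Tb.tst
    rw [a, b, e]
    rfl
  d23 x hx y hy z hz hxy hyz hxz := by
    show g.sp (d x z y) = rvd (g.sp (d x y z))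
    rw [hc.d23 x hx y hy z hz hxy hyz hxz, h.sprv _ (hc.dlt x hx y hy z hz hxy hyz hxz)]
  d31 x hx y hy z hz hxy hyz hxz := by
    show g.sp (d y z x) = rot (g.sp (d x y z))
    rw [hc.d31 x hx y hy z hz hxy hyz hxz, h.sprot _ (hc.dlt x hx y hy z hz hxy hyz hxz)]

theorem Inv.NN_eq {g : Sy} (h : T.Inv g) {p : Nat} (hp : p < T.nt) (s : Nat) :
    T.NN (g.tp p) (g.cd s) = T.NN p s := by
  obtain ⟨s0, s1, s2⟩ := h.dg_cd s
  obtain ⟨n0, n1, n2⟩ := h.nu p hp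
  unfold NN Nu
  rw [s0, s1, s2, n0, n1, n2, h.spna _ (dgs_lt _ _), h.spna _ (dgs_lt _ _),
    h.spna _ (dgs_lt _ _), ← dgs0, ← dgs1, ← dgs2]
  exact h.rk.sum fun k => ((T.nu k p : ℤ) - T.offn) * (4 - 9 * na (dgs k s))

theorem Inv.Mt_eq {g : Sy} (h : T.Inv g) {p q r A B : Nat} (hp : p < T.nt) (hq : q < T.nt)
    (hr : r < T.nt) (hA : A < 512) (hB : B < 512) (vA : T.vp p q A = true)
    (vB : T.vp p r B = true) :
    T.Mt (g.tp p) (T.fl (g.tp p) (g.tp q) (g.cd A)) (T.fl (g.tp p) (g.tp r) (g.cd B)) =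
      T.Mt p (T.fl p q A) (T.fl p r B) := by
  obtain ⟨-, f1, f2⟩ := h.flg p hp q hq A hA vA
  obtain ⟨-, f3, f4⟩ := h.flg p hp r hr B hB vB
  rw [f1, f3]
  exact h.blk p hp _ f2 _ f4

theorem Inv.PX_eq {g : Sy} (h : T.Inv g) {p q r A B C e : Nat} (hp : p < T.nt) (hq : q < T.nt)
    (hr : r < T.nt) (hA : A < 512) (vA : T.vp p q A = true) (he : e < 8)
    (ht : T.tst A B C e = true) :
    T.PX (g.tp p) (g.tp q) (g.tp r) (g.cd A) (g.cd B) (g.cd C) (g.sp e) = T.PX p q r A B C e := by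
  obtain ⟨-, f1, f2⟩ := h.flg p hp q hq A hA vA
  obtain ⟨⟨-, w0⟩, ⟨-, w1⟩, -, w2⟩ := h.codes he ht
  obtain ⟨m0, m1, m2⟩ := h.mv p hp _ f2
  have hG : T.GO (g.tp p) (g.tp q) (g.cd A) (g.tp r) = T.GO p q A r := by
    unfold GO oo
    rw [← h.jk, f1]
    refine sum_congr rfl fun j hj => ?_
    rw [h.ov p hp _ f2 j (mem_range.1 hj), h.fj r hr j (mem_range.1 hj)]
  unfold PX PP mm
  rw [hG, f1, w0, w1, w2, m0, m1, m2, h.gm r hr]
  have := h.rk.sum fun k => ((lk (T.mv k p) (T.fl p q A) : ℕ) : ℤ) * ((T.gm r : ℤ) -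
    T.wv (512 * dgs k A + 64 * dgs k B + 8 * dgs k C + e))
  rw [this]
  rfl

/-- the function is invariant -/
theorem Inv.VF_eq {g : Sy} (h : T.Inv g) (hN : N = T.nt) (hc : T.Cf N τ c d F)
    {x y z : ι} (hx : x ∈ F) (hy : y ∈ F) (hz : z ∈ F)
    (hxy : x ≠ y) (hyz : y ≠ z) (hxz : x ≠ z) :
    T.VF (fun x => g.tp (τ x)) (fun x y => g.cd (c x y)) (fun x y z => g.sp (d x y z)) x y z =
      T.VF τ c d x y z := by
  subst hN
  have p1 := hc.ty x hx
  have p2 := hc.ty y hy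
  have p3 := hc.ty z hz
  have v1 := hc.vp x hx y hy hxy
  have v2 := hc.vp x hx z hz hxz
  have v3 := hc.vp y hy z hz hyz
  have v4 := hc.vp y hy x hx hxy.symm
  have v5 := hc.vp z hz x hx hxz.symm
  have v6 := hc.vp z hz y hy hyz.symm
  have l1 := hc.lt x hx y hy hxy
  have l2 := hc.lt x hx z hz hxz
  have l3 := hc.lt y hy z hz hyz
  have l4 := hc.lt y hy x hx hxy.symm
  have l5 := hc.lt z hz x hx hxz.symm
  have l6 := hc.lt z hz y hy hyz.symm
  have r1 := hc.rv x hx y hy hxy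
  have r2 := hc.rv x hx z hz hxz
  have r3 := hc.rv y hy z hz hyz
  rw [r1] at v4 l4
  rw [r2] at v5 l5
  rw [r3] at v6 l6
  have d1 := hc.dlt x hx y hy z hz hxy hyz hxz
  have d2 := hc.dlt x hx z hz y hy hxz hyz.symm hxy
  have d3 := hc.dlt y hy z hz x hx hyz hxz.symm hxy.symm
  have t1 := hc.tst x hx y hy z hz hxy hyz hxz
  have t2 := hc.tst x hx z hz y hy hxz hyz.symm hxy
  have t3 := hc.tst y hy z hz x hx hyz hxz.symm hxy.symm
  have e2 := hc.d23 x hx y hy z hz hxy hyz hxz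
  have e3 := hc.d31 x hx y hy z hz hxy hyz hxz
  rw [e2] at t2 d2
  rw [e3] at t3 d3
  rw [r3] at t2
  rw [r1, r2] at t3
  unfold VF VX VV XV
  rw [h.q0 _ p1 _ p2, h.q0 _ p1 _ p3, h.q0 _ p2 _ p3, ← h.rv3_cd, ← h.rv3_cd, ← h.rv3_cd,
    h.Mt_eq p1 p2 p3 l1 l2 v1 v2, h.Mt_eq p2 p1 p3 l4 l3 v4 v3, h.Mt_eq p3 p1 p2 l5 l6 v5 v6,
    h.NN_eq p1, h.NN_eq p2, h.NN_eq p3, h.spna _ d1, h.u3 _ p1 _ p2 _ p3]
  have m1 : T.Mu (g.tp (τ x)) = T.Mu (τ x) := by unfold Mu; rw [h.mu _ p1]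
  have m2 : T.Mu (g.tp (τ y)) = T.Mu (τ y) := by unfold Mu; rw [h.mu _ p2]
  have m3 : T.Mu (g.tp (τ z)) = T.Mu (τ z) := by unfold Mu; rw [h.mu _ p3]
  rw [m1, m2, m3, h.PX_eq p1 p2 p3 l1 v1 d1 t1]
  have s1 : rvd (g.sp (d x y z)) = g.sp (rvd (d x y z)) := (h.sprv _ d1).symm
  have s2 : rot (g.sp (d x y z)) = g.sp (rot (d x y z)) := (h.sprot _ d1).symm
  rw [s1, s2, h.PX_eq p1 p3 p2 l2 v2 d2 t2, h.PX_eq p2 p3 p1 l3 v3 d3 t3]

end

end Tb

/-! ### reduction to canonical triples of types -/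

def mn (a b : Nat) : Nat := Nat.sub a (Nat.sub a b)
def mx (a b : Nat) : Nat := Nat.add a (Nat.sub b a)

theorem mn_eq (a b : Nat) : mn a b = min a b := by
  show a - (a - b) = min a b
  omega

theorem mx_eq (a b : Nat) : mx a b = max a b := by
  show a + (b - a) = max a b
  omega

/-- key of an unordered triple of types -/
def key3 (a b c : Nat) : Nat :=
  Nat.add (Nat.mul 4096 (mn a (mn b c))) (Nat.add (Nat.mul 64 (Nat.sub (Nat.add a (Nat.add b c))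
    (Nat.add (mn a (mn b c)) (mx a (mx b c))))) (mx a (mx b c)))

theorem key3_eq (a b c : Nat) : key3 a b c = 4096 * min a (min b c) +
    (64 * (a + (b + c) - (min a (min b c) + max a (max b c))) + max a (max b c)) := by
  have e : key3 a b c = 4096 * mn a (mn b c) +
    (64 * (a + (b + c) - (mn a (mn b c) + mx a (mx b c))) + mx a (mx b c)) := rfl
  rw [e, mn_eq, mn_eq, mx_eq, mx_eq]

theorem key3_swap1 (a b c : Nat) : key3 a b c = key3 b a c := by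
  rw [key3_eq, key3_eq]; omega

theorem key3_swap2 (a b c : Nat) : key3 a b c = key3 a c b := by
  rw [key3_eq, key3_eq]; omega

noncomputable def allG (l : List Sy) (g : Sy → Bool) : Bool :=
  List.rec (motive := fun _ => Bool) true
    (fun x _ ih => Bool.rec (motive := fun _ => Bool) false ih (g x)) l

theorem allG_iff {l : List Sy} {g : Sy → Bool} : allG l g = true ↔ ∀ x ∈ l, g x = true := by
  induction l with
  | nil => simp [allG]
  | cons x l ih =>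
    have : allG (x :: l) g = Bool.rec (motive := fun _ => Bool) false (allG l g) (g x) := rfl
    rw [this, List.forall_mem_cons]
    cases g x
    · simp
    · simp [ih]

/-- the triple of types has the smallest key among its images -/
noncomputable def can (G : List Sy) (p q r : Nat) : Bool :=
  allG G fun g => Nat.ble (key3 p q r) (key3 (g.tp p) (g.tp q) (g.tp r))

namespace Tb

variable {T : Tb} {ι : Type*} {F : Set ι}

/-- **All orders and all symmetries** -/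
theorem VF_le {G : List Sy} (hG : ∀ g ∈ G, T.Inv g) (hS : T.Spl)
    (hQ0 : ∀ p q, T.Q0 p q = T.Q0 q p) (hQt : ∀ p i j, T.Qt p i j = T.Qt p j i)
    (hU : T.USym) (hM : T.MSym) (hW : T.WSym)
    (hK : ∀ p q r A B C d, p ≤ q → q ≤ r → r < T.nt → can G p q r = true → A < 512 → B < 512 →
      C < 512 → T.vp p q A = true → T.vp p r B = true → T.vp q r C = true → d < 8 →
      T.tst A B C d = true → T.VX p q r A B C d ≤ 0) (n : Nat) :
    ∀ (τ : ι → Nat) (c : ι → ι → Nat) (d : ι → ι → ι → Nat), T.Cf T.nt τ c d F →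
      ∀ x ∈ F, ∀ y ∈ F, ∀ z ∈ F, x ≠ y → y ≠ z → x ≠ z → key3 (τ x) (τ y) (τ z) = n →
        T.VF τ c d x y z ≤ 0 := by
  induction n using Nat.strong_induction_on with
  | _ n ih =>
    intro τ c d hc x hx y hy z hz hxy hyz hxz hn
    by_cases hcan : can G (τ x) (τ y) (τ z) = true
    · -- sorted
      have key : ∀ x ∈ F, ∀ y ∈ F, ∀ z ∈ F, x ≠ y → y ≠ z → x ≠ z →
          can G (τ x) (τ y) (τ z) = true → τ x ≤ τ y → τ y ≤ τ z →
          s6 (fun a b e => T.GF τ c d a b e + T.PF τ c d a b e) x y z ≤ 0 := by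
        intro x hx y hy z hz hxy hyz hxz h0 h1 h2
        rw [s6_tot hc le_rfl hS hQ0 hQt hU hM hW hx hy hz hxy hyz hxz]
        have := hK (τ x) (τ y) (τ z) (c x y) (c x z) (c y z) (d x y z) h1 h2 (hc.ty z hz) h0
          (hc.lt x hx y hy hxy) (hc.lt x hx z hz hxz) (hc.lt y hy z hz hyz) (hc.vp x hx y hy hxy)
          (hc.vp x hx z hz hxz) (hc.vp y hy z hz hyz) (hc.dlt x hx y hy z hz hxy hyz hxz)
          (hc.tst x hx y hy z hz hxy hyz hxz)
        unfold VF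
        linarith
      have csw1 : ∀ p q r, can G p q r = true → can G q p r = true := by
        intro p q r h
        unfold can at *
        rw [allG_iff] at *
        intro g hg
        have := h g hg
        rwa [key3_swap1 p q r, key3_swap1 (g.tp p)] at this
      have csw2 : ∀ p q r, can G p q r = true → can G p r q = true := by
        intro p q r h
        unfold can at *
        rw [allG_iff] at *
        intro g hg
        have := h g hg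
        rwa [key3_swap2 p q r, key3_swap2 (g.tp p)] at this
      have hs : s6 (fun a b e => T.GF τ c d a b e + T.PF τ c d a b e) x y z ≤ 0 := by
        rcases le_total (τ x) (τ y) with h1 | h1
        · rcases le_total (τ y) (τ z) with h2 | h2
          · exact key x hx y hy z hz hxy hyz hxz hcan h1 h2
          · rcases le_total (τ x) (τ z) with h3 | h3
            · rw [s6_perm2]
              exact key x hx z hz y hy hxz hyz.symm hxy (csw2 _ _ _ hcan) h3 h2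
            · rw [s6_perm2, s6_perm1]
              exact key z hz x hx y hy hxz.symm hxy hyz.symm
                (csw1 _ _ _ (csw2 _ _ _ hcan)) h3 h1
        · rcases le_total (τ x) (τ z) with h2 | h2
          · rw [s6_perm1]
            exact key y hy x hx z hz hxy.symm hxz hyz (csw1 _ _ _ hcan) h1 h2
          · rcases le_total (τ y) (τ z) with h3 | h3
            · rw [s6_perm1, s6_perm2]
              exact key y hy z hz x hx hyz hxz.symm hxy.symm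
                (csw2 _ _ _ (csw1 _ _ _ hcan)) h3 h2
            · rw [s6_perm1, s6_perm2, s6_perm1]
              exact key z hz y hy x hx hyz.symm hxy.symm hxz.symm
                (csw1 _ _ _ (csw2 _ _ _ (csw1 _ _ _ hcan))) h3 h1
      rw [s6_tot hc le_rfl hS hQ0 hQt hU hM hW hx hy hz hxy hyz hxz] at hs
      linarith
    · -- a symmetry with a smaller key
      have h0 : ∃ g ∈ G, Nat.ble (key3 (τ x) (τ y) (τ z))
          (key3 (g.tp (τ x)) (g.tp (τ y)) (g.tp (τ z))) ≠ true := by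
        by_contra hcon
        push Not at hcon
        exact hcan (allG_iff.2 hcon)
      obtain ⟨g, hg, hlt⟩ := h0
      have hlt' : key3 (g.tp (τ x)) (g.tp (τ y)) (g.tp (τ z)) < n := by
        rw [← hn]
        by_contra hge
        exact hlt (Nat.ble_eq_true_of_le (not_lt.1 hge))
      have h1 := ih _ hlt' _ _ _ ((hG g hg).cf rfl hc) x hx y hy z hz hxy hyz hxz rfl
      rw [(hG g hg).VF_eq rfl hc hx hy hz hxy hyz hxz] at h1
      exact h1

/-- the symmetrised function is at most zero -/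
theorem s6_le {G : List Sy} (hG : ∀ g ∈ G, T.Inv g) (hS : T.Spl)
    (hQ0 : ∀ p q, T.Q0 p q = T.Q0 q p) (hQt : ∀ p i j, T.Qt p i j = T.Qt p j i)
    (hU : T.USym) (hM : T.MSym) (hW : T.WSym)
    (hK : ∀ p q r A B C d, p ≤ q → q ≤ r → r < T.nt → can G p q r = true → A < 512 → B < 512 →
      C < 512 → T.vp p q A = true → T.vp p r B = true → T.vp q r C = true → d < 8 →
      T.tst A B C d = true → T.VX p q r A B C d ≤ 0)
    {τ : ι → Nat} {c : ι → ι → Nat} {d : ι → ι → ι → Nat} (hc : T.Cf T.nt τ c d F)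
    {x y z : ι} (hx : x ∈ F) (hy : y ∈ F) (hz : z ∈ F)
    (hxy : x ≠ y) (hyz : y ≠ z) (hxz : x ≠ z) :
    s6 (fun a b e => T.GF τ c d a b e + T.PF τ c d a b e) x y z ≤ 0 := by
  rw [s6_tot hc le_rfl hS hQ0 hQt hU hM hW hx hy hz hxy hyz hxz]
  have := VF_le hG hS hQ0 hQt hU hM hW hK _ τ c d hc x hx y hy z hz hxy hyz hxz rfl
  linarith

end Tb

end Pool.Agent.AKX
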