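import Pool.Agent.AKX.Parts

set_option autoImplicit false

/-!
# The last strip
-/

namespace Pool.Agent.AKX

open Finset Classical Pool.Agent.AKG Pool.Agent.AKO Pool.Agent.AKU Pool.Agent.MP_0af329_co
  Pool.Agent.AK

theorem dec_bot : Dec fun _ => False :=
  ⟨0, 0, 0, le_refl _, le_refl _, fun _ _ _ _ _ _ _ h => h.elim⟩

/-- no triple has more than the largest weight -/
theorem up_top {w : ℕ → ℕ} {e b : ℕ} (hb : 0 < b) (hC : ∀ K < 4096, e * w K ≤ b) :
    Dec (Up w e b) := by
  refine dec_mono ?_ dec_bot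
  rintro S ⟨r, hr, h⟩
  have h1 : (e : ℤ) * Ph (X S) (Y S) (fun K => (w K : ℤ)) r ≤
      ∑ v : S, (if ∀ k, v ≠ r k then (b : ℤ) else 0) := by
    unfold Ph
    rw [mul_sum]
    refine sum_le_sum fun v _ => ?_
    split_ifs
    · have h2 := hC _ (code_lt (x := X S) (y := Y S) (r 0) (r 1) (r 2) v)
      have h3 : ((e * w (code (X S) (Y S) (r 0) (r 1) (r 2) v) : ℕ) : ℤ) ≤ b := by
        exact_mod_cast h2
      push_cast at h3
      exact h3
    · simp
  have h4 : ∑ v : S, (if ∀ k, v ≠ r k then (b : ℤ) else 0) ≤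
      ∑ v : S, ((b : ℤ) - (if v = r 0 then (b : ℤ) else 0)) := by
    have hb0 : (0 : ℤ) ≤ b := Int.natCast_nonneg _
    refine sum_le_sum fun v _ => ?_
    by_cases h5 : v = r 0
    · rw [if_neg (fun g => g 0 h5), if_pos h5, sub_self]
    · rw [if_neg h5]
      split_ifs <;> linarith
  rw [sum_sub_distrib, sum_ite_eq' univ (r 0), if_pos (mem_univ _), sum_const, card_univ,
    nsmul_eq_mul] at h4
  have h6 : (0 : ℤ) < b := by exact_mod_cast hb
  have h7 : (b : ℤ) * Fintype.card S = Fintype.card S * b := mul_comm _ _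
  linarith

/-- **The strip up to the largest weight** -/
theorem up_of_last {w : ℕ → ℕ} {e a b : ℕ} (hI : InvW fun K => (w K : ℤ))
    (hd : Dec (Btw w e a b)) (hb : 0 < b) (hC : ∀ K < 4096, e * w K ≤ b) : Dec (Up w e a) :=
  up_step hI hd (up_top hb hC)

end Pool.Agent.AKX
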