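import Pool.Agent.AKX.Strip2
import Pool.Agent.AKX.Top
import Pool.Agent.AKX.DatOwn
import Pool.Agent.AKC.Six2

set_option autoImplicit false

/-!
# The weights of the types of a point, and the use of the certificates

A weight is packed as a number with 12 bits for every code: the digit of the code of `a b c d` is
`A - q W` with the weight `W` of the type of the point `d` over the acute triple `a b c`, the
largest weight `A / q`, and `0` if `a b c` is not acute.
-/

namespace Pool.Agent.AKX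

open Finset Classical Pool.Agent.AKG Pool.Agent.AKO Pool.Agent.AKU Pool.Agent.MP_0af329_co
  Pool.Agent.AK

/-- digit of 12 bits -/
def wvf (P K : Nat) : Nat := Nat.mod (Nat.shiftRight P (Nat.mul 12 K)) 4096

theorem wvf_le (P K : ℕ) : wvf P K ≤ 4095 := by
  have h : wvf P K < 4096 := Nat.mod_lt _ (by norm_num)
  omega

theorem wv_eq {D : Dt} {P : ℕ} (h : D.wvP = P) (K : ℕ) : D.T.wv K = wvf P K := by
  subst h
  rfl

/-! ### strips -/

/-- **A strip**: a certificate for the packed weight `P` decides the strip of another scale -/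
theorem strip_of {D : Dt} {tcs : List ℕ} {P e a b : ℕ} (hw : D.wvP = P) (he : 0 < e)
    (hN : ∀ s0 s1, NB D.T s0 s1) (hO : OwnK D.T) (hL : LinkT D.T tcs) (hE : LinkE D.T tcs)
    (h1 : D.h0 * e ≤ a * D.e) (h2 : b * D.e ≤ D.h1 * e) : Dec (Btw (wvf P) e a b) := by
  refine btw_of_inS (c := 1) (strip_dec (C := 4095) (hN _) hO hL hE fun K => ?_) he
    (fun K _ => ?_) ?_ ?_
  · rw [wv_eq hw]
    exact wvf_le _ _
  · rw [wv_eq hw, one_mul]
  · rw [mul_one]
    exact h1
  · rw [mul_one]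
    exact h2

/-- the same, from the end theorem of a certificate -/
theorem strip_ofI {D : Dt} {P e a b : ℕ} (hw : D.wvP = P) (he : 0 < e) (hd : Dec (InS D.T))
    (h1 : D.h0 * e ≤ a * D.e) (h2 : b * D.e ≤ D.h1 * e) : Dec (Btw (wvf P) e a b) := by
  refine btw_of_inS (c := 1) hd he (fun K _ => ?_) ?_ ?_
  · rw [wv_eq hw, one_mul]
  · rw [mul_one]
    exact h1
  · rw [mul_one]
    exact h2

/-- a strip under a condition on a second weight -/
theorem strip_of2 {D : Dt} {tcs : List ℕ} {P P1 e a b e1 a1 al be : ℕ} {al' be' : ℕ → ℕ}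
    (hN : ∀ s0 s1, NB D.T s0 s1)
    (hM : Mix D.T tcs (wvf P) (wvf P1) e a b e1 a1 al be al' be') (hL : LinkT D.T tcs) :
    Dec fun S => Btw (wvf P) e a b S ∧ Low (wvf P1) e1 a1 S := by
  refine strip_dec2 (s0 := ∑ k ∈ range D.T.nk, (al' k * (2 * 4095) + be' k * (4 * a1)))
    (hN _) hM hL (wvf_le P) fun k hk => ?_
  exact single_le_sum (f := fun k => al' k * (2 * 4095) + be' k * (4 * a1))
    (fun _ _ => Nat.zero_le _) (mem_range.2 hk)

/-- **The piece of the smallest values** by a certificate with the largest sum of squares -/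
theorem up_of_b4 {D : Dt} {tcs : List ℕ} {P h : ℕ} (hw : D.wvP = P)
    (hN : ∀ s0 s1, NB D.T s0 s1) (hO : OwnQ D.T h) (hL : LinkT D.T tcs)
    (hE : LinkEQ D.T tcs h) : Dec (Up (wvf P) 1 h) := by
  have e1 : D.T.wv = wvf P := funext fun K => wv_eq hw K
  have h1 := up_of_Q (C := 4095) (hN _) hO hL hE fun K => by
    rw [e1]
    exact wvf_le _ _
  rw [e1] at h1
  exact h1

/-- the same, from the all-in-one theorem of the packed data -/
theorem up_of_wv {D : Dt} {P e a : ℕ} (hw : D.wvP = P) (hd : Dec (Up D.T.wv e a)) :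
    Dec (Up (wvf P) e a) := by
  have e1 : D.T.wv = wvf P := funext fun K => wv_eq hw K
  rw [e1] at hd
  exact hd

/-- another scale and another bound -/
theorem up_conv {w : ℕ → ℕ} {e a e' a' : ℕ} (he : 0 < e') (h : a * e' ≤ a' * e)
    (hd : Dec (Up w e a)) : Dec (Up w e' a') := by
  refine dec_mono ?_ hd
  rintro S ⟨r, hr, h1⟩
  refine ⟨r, hr, ?_⟩
  have he' : (0 : ℤ) < e' := by exact_mod_cast he
  have hn : (0 : ℤ) ≤ (Fintype.card S : ℤ) := Int.natCast_nonneg _
  have h2 := mul_le_mul_of_nonneg_left h1 (Int.natCast_nonneg e)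
  have h3 : ((a : ℤ) * e') * Fintype.card S ≤ (a' * e) * Fintype.card S :=
    mul_le_mul_of_nonneg_right (by exact_mod_cast h) hn
  refine le_of_mul_le_mul_left ?_ he'
  linarith

/-- **A strip under a condition on a second weight** that is decided -/
theorem strip_assume {W W1 P P1 e a b e1 a1 E A B A1 : ℕ} (hW : W = P) (hW1 : W1 = P1)
    (hd : Dec fun S => Btw (wvf W) e a b S ∧ Low (wvf W1) e1 a1 S)
    (hu : Dec (Up (wvf P1) E A1)) (he1 : 0 < e1) (h3 : A1 * e1 ≤ a1 * E) (hE : 0 < E)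
    (h1 : a * E ≤ A * e) (h2 : B * e ≤ b * E) : Dec (Btw (wvf P) E A B) := by
  subst hW hW1
  refine dec_mono (fun S hS => ?_) (dec_assume (up_conv he1 h3 hu) hd)
  exact btw_conv (c := 1) hE (fun K _ => (one_mul _).symm) (by rw [mul_one]; exact h1)
    (by rw [mul_one]; exact h2) S hS

/-- a smaller part -/
theorem up_mono {w : ℕ → ℕ} {e a b : ℕ} (h : a ≤ b) (hd : Dec (Up w e a)) : Dec (Up w e b) := by
  refine dec_mono ?_ hd
  rintro S ⟨r, hr, h1⟩
  refine ⟨r, hr, le_trans ?_ h1⟩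
  exact mul_le_mul_of_nonneg_right (by exact_mod_cast h) (Int.natCast_nonneg _)

/-- the weight does not depend on the order of the roots, for the kernel -/
noncomputable def chkInv (TB P : Nat) : Bool :=
  allN 64 fun i => allN 64 fun j => Bool.rec (motive := fun _ => Bool) true
    (Nat.beq (wvf P (cs12 (Nat.add (Nat.mul 64 i) j))) (wvf P (Nat.add (Nat.mul 64 i) j)) &&
      Nat.beq (wvf P (cs23 (Nat.add (Nat.mul 64 i) j))) (wvf P (Nat.add (Nat.mul 64 i) j)))
    (tb TB (Nat.add (Nat.mul 64 i) j))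

theorem inv_of_chk {P : ℕ} (h : chkInv TAB P = true) : InvW fun K => ((wvf P K : ℕ) : ℤ) := by
  intro K hK h1
  have k1 := allN_iff.1 (allN_iff.1 h (K / 64) (by omega)) (K % 64) (Nat.mod_lt _ (by norm_num))
  have e : Nat.add (Nat.mul 64 (K / 64)) (K % 64) = K := Nat.div_add_mod K 64
  rw [e, tb_eq, h1] at k1
  have k2 : (Nat.beq (wvf P (cs12 K)) (wvf P K) && Nat.beq (wvf P (cs23 K)) (wvf P K)) = true := k1
  rw [Bool.and_eq_true] at k2
  have k3 : wvf P (cs12 K) = wvf P K := Nat.eq_of_beq_eq_true k2.1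
  have k4 : wvf P (cs23 K) = wvf P K := Nat.eq_of_beq_eq_true k2.2
  show ((wvf P (cs12 K) : ℕ) : ℤ) = (wvf P K : ℕ) ∧ ((wvf P (cs23 K) : ℕ) : ℤ) = (wvf P K : ℕ)
  rw [k3, k4]
  exact ⟨rfl, rfl⟩

/-- the weight does not depend on the order of the roots -/
theorem inv_of_link {D : Dt} {tcs : List ℕ} {P : ℕ} (hw : D.wvP = P) (hL : LinkT D.T tcs) :
    InvW fun K => ((wvf P K : ℕ) : ℤ) := by
  have h := hL.inv
  have e : (fun K => (D.T.wv K : ℤ)) = fun K => ((wvf P K : ℕ) : ℤ) := by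
    funext K
    rw [wv_eq hw]
  rw [e] at h
  exact h

/-! ### change of the weight -/

/-- `x * w + g ≤ y * w' + g'` for the weights of the codes with acute roots -/
noncomputable def chkUp (TB P Q x y g g' : Nat) : Bool :=
  allN 64 fun i => allN 64 fun j =>
    Bool.rec (motive := fun _ => Bool) true
      (Nat.ble (Nat.add (Nat.mul x (wvf P (Nat.add (Nat.mul 64 i) j))) g)
        (Nat.add (Nat.mul y (wvf Q (Nat.add (Nat.mul 64 i) j))) g'))
      (Bool.rec (motive := fun _ => Bool) false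
        (Nat.beq (Nat.mod (Nat.shiftRight (Nat.add (Nat.mul 64 i) j) 9) 4) 0)
        (tb TB (Nat.add (Nat.mul 64 i) j)))

theorem chkUp_sound {P Q x y g g' : ℕ} (h : chkUp TAB P Q x y g g' = true) {K : ℕ}
    (hK : K < 4096) (h1 : TAB.testBit K = true) (h2 : dig K 3 % 4 = 0) :
    x * wvf P K + g ≤ y * wvf Q K + g' := by
  have k1 := allN_iff.1 (allN_iff.1 h (K / 64) (by omega)) (K % 64) (Nat.mod_lt _ (by norm_num))
  have e : Nat.add (Nat.mul 64 (K / 64)) (K % 64) = K := Nat.div_add_mod K 64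
  rw [e, tb_eq, h1] at k1
  have e2 : Nat.beq (Nat.mod (Nat.shiftRight K 9) 4) 0 = true := by
    rw [Nat.beq_eq]
    have e3 : dig K 3 % 4 = (K >>> 9) % 8 % 4 := rfl
    have e4 : Nat.mod (Nat.shiftRight K 9) 4 = (K >>> 9) % 4 := rfl
    rw [e4]
    omega
  rw [e2] at k1
  exact Nat.le_of_ble_eq_true k1

/-- **Change of the weight**: the second weight decides more -/
theorem up_vec {P Q e1 a1 e2 a2 x y g g' α β : ℕ} (h : chkUp TAB P Q x y g g' = true)
    (hx : x = α * e1) (hy : y = β * e2) (hβ : 0 < β) (hc : β * a2 + g' ≤ α * a1 + g)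
    (hg : g ≤ g' ∨ β * a2 + g' < α * a1 + g) (hd : Dec (Up (wvf Q) e2 a2)) :
    Dec (Up (wvf P) e1 a1) := by
  subst hx hy
  refine up_change (α := α) (β := β) (γ := (g : ℤ) - g') hβ (fun K hK h1 h2 => ?_) ?_ ?_ hd
  · have h3 := chkUp_sound h hK h1 h2
    have h4 : ((α * e1 * wvf P K + g : ℕ) : ℤ) ≤ ((β * e2 * wvf Q K + g' : ℕ) : ℤ) := by
      exact_mod_cast h3
    push_cast at h4
    linarith
  · have h4 : ((β * a2 + g' : ℕ) : ℤ) ≤ ((α * a1 + g : ℕ) : ℤ) := by exact_mod_cast hc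
    push_cast at h4
    linarith
  · rcases hg with hg | hg
    · left
      have : (g : ℤ) ≤ g' := by exact_mod_cast hg
      linarith
    · right
      have h4 : ((β * a2 + g' : ℕ) : ℤ) < ((α * a1 + g : ℕ) : ℤ) := by exact_mod_cast hg
      push_cast at h4
      linarith

/-- bound of the packed weight -/
noncomputable def chkLe (P A : Nat) : Bool :=
  allN 64 fun i => allN 64 fun j => Nat.ble (wvf P (Nat.add (Nat.mul 64 i) j)) A

theorem chkLe_sound {P A : ℕ} (h : chkLe P A = true) {K : ℕ} (hK : K < 4096) : wvf P K ≤ A := by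
  have k1 := allN_iff.1 (allN_iff.1 h (K / 64) (by omega)) (K % 64) (Nat.mod_lt _ (by norm_num))
  have e : Nat.add (Nat.mul 64 (K / 64)) (K % 64) = K := Nat.div_add_mod K 64
  rw [e] at k1
  exact Nat.le_of_ble_eq_true k1

/-- the end of the chain -/
theorem up_topA {P e a A : ℕ} (hA : chkLe P A = true) (h0 : 0 < a) (h : e * A ≤ a) :
    Dec (Up (wvf P) e a) :=
  up_top h0 fun _ hK => (Nat.mul_le_mul_left e (chkLe_sound hA hK)).trans h

/-- change of the weight, same scale -/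
theorem up_vec1 {P Q e a : ℕ} (h : chkUp TAB P Q 1 1 0 0 = true) (hd : Dec (Up (wvf Q) e a)) :
    Dec (Up (wvf P) e a) := by
  refine up_change (α := 1) (β := 1) (γ := 0) one_pos (fun K hK h1 h2 => ?_) (by simp)
    (Or.inl le_rfl) hd
  have h3 := chkUp_sound h hK h1 h2
  rw [add_zero, add_zero, one_mul, one_mul] at h3
  have h4 : ((wvf P K : ℕ) : ℤ) ≤ (wvf Q K : ℕ) := by exact_mod_cast h3
  have h5 := mul_le_mul_of_nonneg_left h4 (Int.natCast_nonneg e)
  push_cast
  linarith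

/-- another scale -/
theorem up_scale {w : ℕ → ℕ} {e a : ℕ} (c : ℕ) (hc : 0 < c) (hd : Dec (Up w e a)) :
    Dec (Up w (c * e) (c * a)) := by
  refine dec_mono ?_ hd
  rintro S ⟨r, hr, h1⟩
  refine ⟨r, hr, ?_⟩
  push_cast at h1
  have hc' : (0 : ℤ) < c := by exact_mod_cast hc
  refine le_of_mul_le_mul_left ?_ hc'
  linarith

/-! ### the unrooted certificate with six points -/

/-- `v + x * w = m` for the weights of the codes with acute roots -/
noncomputable def chkU (TB CW P m x : Nat) : Bool :=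
  allN 64 fun i => allN 64 fun j =>
    Bool.rec (motive := fun _ => Bool) true
      (Nat.beq (Nat.add (AKY.lq CW (AKY.lb AKU5.IX (Nat.add (Nat.mul 64 i) j)))
        (Nat.mul x (wvf P (Nat.add (Nat.mul 64 i) j)))) m)
      (Bool.rec (motive := fun _ => Bool) false
        (Nat.beq (Nat.mod (Nat.shiftRight (Nat.add (Nat.mul 64 i) j) 9) 4) 0)
        (tb TB (Nat.add (Nat.mul 64 i) j)))

theorem chkU_sound {TB CW P m x : ℕ} (h : chkU TB CW P m x = true) {K : ℕ}
    (hK : K < 4096) (h1 : TB.testBit K = true) (h2 : K >>> 9 % 4 = 0) :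
    AKY.lq CW (AKY.lb AKU5.IX K) + x * wvf P K = m := by
  have k1 := allN_iff.1 (allN_iff.1 h (K / 64) (by omega)) (K % 64) (Nat.mod_lt _ (by norm_num))
  have e : Nat.add (Nat.mul 64 (K / 64)) (K % 64) = K := Nat.div_add_mod K 64
  rw [e, tb_eq, h1] at k1
  have e2 : Nat.beq (Nat.mod (Nat.shiftRight K 9) 4) 0 = true := by
    rw [Nat.beq_eq]
    exact h2
  rw [e2] at k1
  exact Nat.eq_of_beq_eq_true k1

/-- **The sets in which all acute triples have small values of the packed weight `P`** are excluded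
by a certificate for the weight `m - x * P` -/
theorem low_of_fin6 {C : AKU6.Ce} {tab P m x e a : ℕ} (hc : chkU AKY.TAB C.W P m x = true)
    (he : 0 < e) (hth : e * C.th + x * a ≤ e * m) (hR : ∀ r < 15, AKU6.RF C tab r)
    (hF : ∀ {w : ℕ → ℤ}, (∀ s : AKU6.S4, s.a < 8 → s.b < 8 → s.c < 8 → s.d < 8 →
      AKY.TAB.testBit (AKU6.cdS s) = true → s.a % 4 = 0 →
        w (AKU6.cdS s) = AKY.lq C.W (AKY.lb AKU5.IX (AKU6.cdS s))) →
      ∀ {G : AKU6.Cfg (Fin 6)}, G.Ok AKY.TAB → ∑ s : Equiv.Perm (Fin 6),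
        AKU6.T C w G ⟨s 0, s 1, s 2, s 3⟩ (s 4) (s 5) ≤ -C.og)
    (hog : 0 < C.og) : Dec (Low (wvf P) e a) := by
  have hv : ∀ K < 4096, TAB.testBit K = true →
      (fun K => (m : ℤ) - x * (wvf P K : ℕ)) K = (m : ℤ) - x * (wvf P K : ℕ) := fun _ _ _ => rfl
  refine uni_dec (v := fun K => (m : ℤ) - x * (wvf P K : ℕ)) (th := (C.th : ℤ))
    (cc := 3 * (m : ℤ)) hv (Int.natCast_nonneg x) he ?_ le_rfl fun hlt => ?_
  · have h : ((e * C.th + x * a : ℕ) : ℤ) ≤ ((e * m : ℕ) : ℤ) := by exact_mod_cast hth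
    push_cast at h
    linarith
  · refine AKC.U6_of (C := C) (w := fun K => (m : ℤ) - x * (wvf P K : ℕ)) hR (fun G hG => ?_)
      hog hlt
    refine hF (fun s ha hb hc' hd ht h4 => ?_) hG
    have e1 : AKU6.cdS s = 8 * (8 * (8 * s.a + s.b) + s.c) + s.d := rfl
    have hK : AKU6.cdS s < 4096 := by omega
    have h2 : AKU6.cdS s >>> 9 % 4 = 0 := by
      rw [Nat.shiftRight_eq_div_pow]
      omega
    have h3 := chkU_sound hc hK ht h2
    have h5 : ((AKY.lq C.W (AKY.lb AKU5.IX (AKU6.cdS s)) + x * wvf P (AKU6.cdS s) : ℕ) : ℤ) = m := by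
      exact_mod_cast h3
    push_cast at h5
    show (m : ℤ) - x * (wvf P (AKU6.cdS s) : ℕ) = _
    linarith

end Pool.Agent.AKX
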